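import Pool.Agent.helper97.Coll.Det2

namespace Pool.Agent.helper97.Coll

open Finset MeasureTheory ProbabilityTheory Real

set_option linter.unusedSectionVars false

noncomputable section

variable {Ω : Type*} [mΩ : MeasurableSpace Ω]
variable {P : Measure Ω} [IsProbabilityMeasure P] {X : ℤ → Ω → ℝ} {M₀ r : ℝ}

theorem summable_con_of_left (a : Ω) (hs : Summable fun k : ℕ => exp (V X (-(k:ℤ)) k a / 4)) :
    Summable fun k : ℕ => con (fun i => X i a) (-(k:ℤ)) := by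
  refine summable_of_sum_le (fun k => (con_pos _ _).le)
    (c := (∑' k : ℕ, exp (V X (-(k:ℤ)) k a / 4)) ^ 4) fun u => ?_
  have h1 := sum_pow4_le u (fun k : ℕ => exp (V X (-(k:ℤ)) k a / 4)) (fun i _ => (exp_pos _).le)
    (hs.sum_le_tsum u fun i _ => (exp_pos _).le)
  refine le_trans (le_of_eq ?_) h1
  refine Finset.sum_congr rfl fun k _ => ?_
  rw [V_eq_pot, neg_add_cancel, pot_zero, ← exp_nat_mul]
  unfold con
  congr 1; push_cast; ring

theorem mass_nat_le {x : ℤ → ℝ} (hx : ∀ i, |x i| ≤ M₀) (hM₀ : 0 ≤ M₀)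
    (hS : Summable fun k : ℕ => con x (-(k:ℤ))) (m : ℕ) :
    mass x m ≤ (1 + mass x 0) * (1 + m * ((1 + exp M₀) * exp (m * M₀))) := by
  have h1 := mass_mono x hS 0 m
  rw [zero_add] at h1
  have h2 : ∑ i ∈ range m, pim x (0 + 1 + i) ≤ m * ((1 + exp M₀) * exp (m * M₀)) := by
    calc ∑ i ∈ range m, pim x (0 + 1 + i) ≤ ∑ i ∈ range m, ((1 + exp M₀) * exp (m * M₀)) := by
          refine Finset.sum_le_sum fun i hi => ?_
          refine (pim_le hx _).trans (mul_le_mul_of_nonneg_left ?_ (by positivity))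
          unfold con
          apply exp_le_exp.2
          refine (neg_le_abs _).trans ((pot_abs_le hx _).trans ?_)
          apply mul_le_mul_of_nonneg_right _ hM₀
          have hi' := Finset.mem_range.1 hi
          have : |((0:ℤ) + 1 + i)| ≤ (m:ℤ) := by rw [abs_le]; omega
          exact_mod_cast this
      _ = _ := by simp
  have h3 := mass_nonneg x 0
  have h4 : 0 ≤ (m:ℝ) * ((1 + exp M₀) * exp (m * M₀)) := by positivity
  rw [h1]
  nlinarith

/-- almost every environment has traps at infinitely many scales -/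
theorem Inc.ae_trap (h : Inc P X M₀ r) : ∃ A > 0, ∀ᵐ a ∂P,
    (Summable fun k : ℕ => con (fun i => X i a) (-(k:ℤ))) ∧
    ∀ x₀ : ℕ, ∃ (b c : ℤ) (s : ℕ), Trap (fun i => X i a) A x₀ b c s := by
  have hr0 := h.r0
  have hr1 := h.r1
  have hr : 0 < 1 - r := by linarith
  have hM := h.M0
  obtain ⟨B₁, hB₁⟩ := exists_nat_ge (2 * (1 + 384 * (1 + exp M₀) / (1 - r)))
  set B : ℕ := B₁ + 4 with hBdef
  have hB4 : 4 ≤ B := by omega
  have hB : 2 * (1 + 384 * (1 + exp M₀) / (1 - r)) ≤ (B:ℝ) ^ 2 := by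
    have h1 : (B₁:ℝ) ≤ B := by rw [hBdef]; push_cast; linarith
    have h2 : (1:ℝ) ≤ B := by exact_mod_cast (by omega : 1 ≤ B)
    nlinarith
  have hβ : (2:ℝ) ≤ 18 * B := by
    have : (4:ℝ) ≤ B := by exact_mod_cast hB4
    linarith
  set D : ℝ := 4 / (1 - r) with hD
  have hD0 : 0 < D := by positivity
  set c₀ : ℝ := (exp (-M₀ / 2) / (4 * (18 * B))) ^ 2 / (1 + 4 / (1 - r) * (2 * (1 - r)⁻¹)) with hc₀
  have hc₀pos : 0 < c₀ := by
    have : (0:ℝ) < B := by exact_mod_cast (by omega : 0 < B)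
    positivity
  have hK : ∀ L : ℕ, ∃ K : ℕ, 1 ≤ L → ∀ m : ℤ, c₀ ≤ P.real (Eev X m L
      (2 * Real.log ((18 * B) * L)) D (384 * (L:ℝ) ^ 2 / (1 - r)) K) := by
    intro L
    by_cases hL : 1 ≤ L
    · obtain ⟨K, hK⟩ := h.Eev_ge hβ L hL
      exact ⟨K, fun _ => hK⟩
    · exact ⟨0, fun h2 => absurd h2 hL⟩
  choose Kf hKf using hK
  set U : ℕ → ℝ := fun m => 1 + m * ((1 + exp M₀) * exp (m * M₀)) with hU
  have hU1 : ∀ m, 1 ≤ U m := by
    intro m
    have : 0 ≤ (m:ℝ) * ((1 + exp M₀) * exp (m * M₀)) := by positivity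
    simp only [hU]; linarith
  obtain ⟨m, L, hL1, hmL, hrec, hA, hBk⟩ := exists_scales
    (fun k m => k * (((m + k + 1) * exp ((m + k) * M₀)) * U m)) (fun k m => k * U m) Kf
    (ρ := r ^ 2) (by positivity) (pow_lt_one₀ hr0.le hr1 two_ne_zero)
  -- the events
  have hfreq := h.ae_frequently (fun k => (m k : ℤ)) (fun k => by
      have := hrec k; exact_mod_cast (by omega : m k ≤ m (k + 1)))
    (fun k => Eev X (m k) (L k) (2 * Real.log ((18 * B) * L k)) D
      (384 * (L k:ℝ) ^ 2 / (1 - r)) (Kf (L k)))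
    (fun k => Eev_meas (by
      intro y hy
      rw [Set.mem_Ioc] at hy ⊢
      have := hrec k
      omega) _ _ _) hc₀pos (fun k => hKf (L k) (hL1 k) (m k))
  refine ⟨1 + 2 * ((1 + exp M₀) * D ^ 4), by positivity, ?_⟩
  filter_upwards [hfreq, h.ae_left, h.ae_right] with a hfa hla hra
  obtain ⟨c₁, hc₁, hra⟩ := hra
  set x : ℤ → ℝ := fun i => X i a with hx
  have hS : Summable fun k : ℕ => con x (-(k:ℤ)) := summable_con_of_left a hla
  refine ⟨hS, fun x₀ => ?_⟩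
  have hxb : ∀ i, |x i| ≤ M₀ := fun i => h.bdd i a
  have hright : ∀ k : ℕ, exp (pot x k / 4) ≤ c₁ * (√r) ^ k := by
    intro k
    have := hra k
    rw [V_eq_pot, pot_zero, sub_zero, zero_add] at this
    exact this
  set c₂ : ℝ := (1 + c₁ ^ 4 * (1 - r)⁻¹) * (1 + mass x 0) with hc₂
  set c₃ : ℝ := (1 + mass x 0) * c₁ ^ 4 with hc₃
  obtain ⟨N₁, hN₁⟩ := exists_nat_ge (max c₂ c₃)
  obtain ⟨k, hk, hEk⟩ := hfa (max x₀ N₁)
  have hkx : x₀ ≤ k := (le_max_left _ _).trans hk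
  have hkN : (N₁:ℝ) ≤ k := by exact_mod_cast (le_max_right _ _).trans hk
  have hk2 : c₂ ≤ k := (le_max_left _ _).trans (hN₁.trans hkN)
  have hk3 : c₃ ≤ k := (le_max_right _ _).trans (hN₁.trans hkN)
  unfold Eev at hEk
  simp only [Set.mem_iUnion] at hEk
  obtain ⟨n, hn, hFa, hGa⟩ := hEk
  rw [Finset.mem_Ioc] at hn
  obtain ⟨κ, hκK, hκH, hκD⟩ := hFa
  obtain ⟨hG1, hG2⟩ := hGa
  have hmass := mass_nat_le hxb hM hS (m k)
  have hm0 := mass_nonneg x 0
  have hr' : 0 ≤ c₁ ^ 4 * (1 - r)⁻¹ := by positivity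
  refine ⟨_, _, _, trap_of_scale hxb hM hr0 hr1 hS hc₁ hright (m k) (L k) n κ x₀ B D (hL1 k)
    hn.1 hn.2 hB4 hB ?_ ?_ ?_ ?_ ?_ ?_ ?_⟩
  · rw [V_eq_pot] at hκH; exact hκH
  · simp only [V_eq_pot] at hκD; exact hκD
  · refine le_trans (le_of_eq ?_) hG1
    refine Finset.sum_congr rfl fun i hi => ?_
    have hi' := Finset.mem_range.1 hi
    rw [V_eq_pot]
    have : ((m k : ℤ) + 1 + i + ((n - 1 - i : ℕ) : ℤ)) = (m k : ℤ) + n := by omega
    rw [this]
  · refine le_trans (le_of_eq ?_) hG2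
    refine Finset.sum_congr rfl fun i _ => Finset.sum_congr rfl fun j _ => ?_
    rw [V_eq_pot]
  · have := hmL k; omega
  · -- hR1
    have hA' := hA k
    set E₁ : ℝ := ((m k : ℝ) + k + 1) * exp (((m k : ℝ) + k) * M₀) with hE₁
    have hE1 : 1 ≤ E₁ := by
      have h1 : (1:ℝ) ≤ (m k : ℝ) + k + 1 := by
        have : (0:ℝ) ≤ m k := by positivity
        have : (0:ℝ) ≤ k := by positivity
        linarith
      have h2 : 1 ≤ exp (((m k : ℝ) + k) * M₀) := one_le_exp (by positivity)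
      nlinarith
    have h1 : ((m k : ℝ) + x₀ + 1) * exp (((m k : ℝ) + x₀) * M₀) ≤ E₁ := by
      have hkx' : (x₀:ℝ) ≤ k := by exact_mod_cast hkx
      apply mul_le_mul (by linarith) (exp_le_exp.2 ?_) (exp_pos _).le (by positivity)
      apply mul_le_mul_of_nonneg_right (by linarith) hM
    have h2 : ((m k : ℝ) + x₀ + 1) * exp (((m k : ℝ) + x₀) * M₀) + c₁ ^ 4 * (1 - r)⁻¹ ≤
        (1 + c₁ ^ 4 * (1 - r)⁻¹) * E₁ := by nlinarith
    calc (((m k : ℝ) + x₀ + 1) * exp (((m k : ℝ) + x₀) * M₀) + c₁ ^ 4 * (1 - r)⁻¹) * mass x (m k)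
        ≤ ((1 + c₁ ^ 4 * (1 - r)⁻¹) * E₁) * ((1 + mass x 0) * U (m k)) :=
          mul_le_mul h2 hmass (mass_nonneg x _) (by positivity)
      _ = c₂ * (E₁ * U (m k)) := by rw [hc₂]; ring
      _ ≤ k * (E₁ * U (m k)) := by
          apply mul_le_mul_of_nonneg_right hk2
          have := hU1 (m k)
          positivity
      _ ≤ (L k : ℝ) ^ 2 := hA'
  · -- hR2
    have hB' := hBk k
    have hU0 := hU1 (m k)
    calc mass x (m k) * (c₁ ^ 4 * r ^ (2 * L k))
        ≤ ((1 + mass x 0) * U (m k)) * (c₁ ^ 4 * r ^ (2 * L k)) :=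
          mul_le_mul_of_nonneg_right hmass (by positivity)
      _ = c₃ * (U (m k) * (r ^ 2) ^ (L k)) := by rw [hc₃, ← pow_mul]; ring
      _ ≤ k * (U (m k) * (r ^ 2) ^ (L k)) := by
          apply mul_le_mul_of_nonneg_right hk3
          positivity
      _ = k * U (m k) * (r ^ 2) ^ (L k) := by ring
      _ ≤ 1 := hB'

end

end Pool.Agent.helper97.Coll
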