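import Mathlib

/-!
# Nearest-neighbour walks on `ℤ`: deterministic estimates

`K ω` is the transition operator of the walk that moves from `x` to `x+1` with probability `ω x`
and to `x-1` with probability `1 - ω x`.
-/

namespace Pool.Agent.helper97.Coll

open Finset

noncomputable section

/-- Transition operator of the nearest-neighbour walk with right-probabilities `ω`. -/
def K (ω : ℤ → ℝ) (f : ℤ → ℝ) (x : ℤ) : ℝ := ω x * f (x + 1) + (1 - ω x) * f (x - 1)

/-- point mass -/
def pt (y : ℤ) (x : ℤ) : ℝ := if x = y then 1 else 0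

/-- `n`-step transition probability from `x` to `y` -/
def q (ω : ℤ → ℝ) (n : ℕ) (x y : ℤ) : ℝ := (K ω)^[n] (pt y) x

/-- the probability, starting from `x`, of hitting `b` within `m` steps -/
def hit (ω : ℤ → ℝ) (b : ℤ) : ℕ → ℤ → ℝ
  | 0 => pt b
  | m + 1 => fun x => if x = b then 1 else K ω (hit ω b m) x

variable {ω : ℤ → ℝ}

theorem K_mono (h0 : ∀ x, 0 ≤ ω x) (h1 : ∀ x, ω x ≤ 1) {f g : ℤ → ℝ} (hfg : ∀ x, f x ≤ g x)
    (x : ℤ) : K ω f x ≤ K ω g x := by
  unfold K
  have := mul_le_mul_of_nonneg_left (hfg (x+1)) (h0 x)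
  have := mul_le_mul_of_nonneg_left (hfg (x-1)) (sub_nonneg.2 (h1 x))
  linarith

theorem K_iter_mono (h0 : ∀ x, 0 ≤ ω x) (h1 : ∀ x, ω x ≤ 1) (n : ℕ) {f g : ℤ → ℝ}
    (hfg : ∀ x, f x ≤ g x) (x : ℤ) : (K ω)^[n] f x ≤ (K ω)^[n] g x := by
  induction n generalizing x with
  | zero => exact hfg x
  | succ n ih =>
    rw [Function.iterate_succ_apply', Function.iterate_succ_apply']
    exact K_mono h0 h1 ih x

theorem K_const (c : ℝ) : K ω (fun _ => c) = fun _ => c := by
  funext x; unfold K; ring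

theorem K_iter_const (n : ℕ) (c : ℝ) : (K ω)^[n] (fun _ => c) = fun _ => c := by
  induction n with
  | zero => rfl
  | succ n ih => rw [Function.iterate_succ_apply', ih, K_const]

theorem K_iter_add (n : ℕ) (f g : ℤ → ℝ) :
    (K ω)^[n] (fun x => f x + g x) = fun x => (K ω)^[n] f x + (K ω)^[n] g x := by
  induction n with
  | zero => rfl
  | succ n ih =>
    rw [Function.iterate_succ_apply', Function.iterate_succ_apply', Function.iterate_succ_apply',
      ih]
    funext x; unfold K; ring

theorem K_iter_smul (n : ℕ) (c : ℝ) (f : ℤ → ℝ) :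
    (K ω)^[n] (fun x => c * f x) = fun x => c * (K ω)^[n] f x := by
  induction n with
  | zero => rfl
  | succ n ih =>
    rw [Function.iterate_succ_apply', Function.iterate_succ_apply', ih]
    funext x; unfold K; ring

theorem K_iter_sum {ι : Type*} (s : Finset ι) (n : ℕ) (f : ι → ℤ → ℝ) :
    (K ω)^[n] (fun x => ∑ i ∈ s, f i x) = fun x => ∑ i ∈ s, (K ω)^[n] (f i) x := by
  classical
  induction s using Finset.induction_on with
  | empty => simpa using K_iter_const (ω := ω) n 0
  | insert a s ha ih =>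
    simp only [Finset.sum_insert ha]
    rw [K_iter_add, ih]

theorem K_iter_nonneg (h0 : ∀ x, 0 ≤ ω x) (h1 : ∀ x, ω x ≤ 1) (n : ℕ) {f : ℤ → ℝ}
    (hf : ∀ x, 0 ≤ f x) (x : ℤ) : 0 ≤ (K ω)^[n] f x := by
  have := K_iter_mono h0 h1 n hf x
  rwa [K_iter_const] at this

theorem pt_nonneg (y x : ℤ) : 0 ≤ pt y x := by unfold pt; split_ifs <;> norm_num

theorem q_nonneg (h0 : ∀ x, 0 ≤ ω x) (h1 : ∀ x, ω x ≤ 1) (n : ℕ) (x y : ℤ) : 0 ≤ q ω n x y :=
  K_iter_nonneg h0 h1 n (pt_nonneg y) x

/-- expansion of `K^n f (x)` over a finite set containing `[x-n, x+n]` -/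
theorem K_iter_eq_sum (n : ℕ) (f : ℤ → ℝ) (I : Finset ℤ) (x : ℤ)
    (hI : ∀ y : ℤ, |y - x| ≤ n → y ∈ I) :
    (K ω)^[n] f x = ∑ y ∈ I, q ω n x y * f y := by
  induction n generalizing x with
  | zero =>
    have hx : x ∈ I := hI x (by simp)
    unfold q pt
    simp [hx]
  | succ n ih =>
    rw [Function.iterate_succ_apply']
    have e1 := ih (x + 1) (fun y hy => hI y (by
      have : |y - x| ≤ |y - (x+1)| + 1 := by
        calc |y - x| = |(y - (x+1)) + 1| := by ring_nf
          _ ≤ |y - (x+1)| + |(1:ℤ)| := abs_add_le _ _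
          _ = _ := by simp
      push_cast; linarith))
    have e2 := ih (x - 1) (fun y hy => hI y (by
      have : |y - x| ≤ |y - (x-1)| + 1 := by
        calc |y - x| = |(y - (x-1)) + (-1)| := by ring_nf
          _ ≤ |y - (x-1)| + |(-1:ℤ)| := abs_add_le _ _
          _ = _ := by simp
      push_cast; linarith))
    unfold K at e1 e2 ⊢
    rw [e1, e2, Finset.mul_sum, Finset.mul_sum, ← Finset.sum_add_distrib]
    refine Finset.sum_congr rfl fun y _ => ?_
    unfold q
    rw [Function.iterate_succ_apply']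
    unfold K
    ring

/-- forward recursion -/
theorem q_succ_right (n : ℕ) (x y : ℤ) :
    q ω (n + 1) x y = q ω n x (y - 1) * ω (y - 1) + q ω n x (y + 1) * (1 - ω (y + 1)) := by
  have hpt : K ω (pt y) = fun x => ω (y - 1) * pt (y - 1) x + (1 - ω (y + 1)) * pt (y + 1) x := by
    funext u
    unfold K pt
    by_cases h1 : u = y - 1
    · subst h1
      have : ¬ (y - 1 - 1 = y) := by omega
      have h3 : ¬ (y - 1 = y + 1) := by omega
      simp [this, h3]
    · by_cases h2 : u = y + 1
      · subst h2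
        have : ¬ (y + 1 + 1 = y) := by omega
        have h3 : ¬ (y + 1 = y - 1) := by omega
        simp [this, h3]
      · have h3 : ¬ (u + 1 = y) := by omega
        have h4 : ¬ (u - 1 = y) := by omega
        simp [h1, h2, h3, h4]
  unfold q
  rw [Function.iterate_succ_apply, hpt, K_iter_add, K_iter_smul, K_iter_smul]
  ring

/-- The environment given by conductances `C x` of the edges `{x, x+1}`. -/
structure IsCond (ω C : ℤ → ℝ) : Prop where
  pos : ∀ x, 0 < C x
  eq : ∀ x, ω x = C x / (C x + C (x - 1))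

variable {C : ℤ → ℝ}

theorem IsCond.nonneg (h : IsCond ω C) (x : ℤ) : 0 ≤ ω x := by
  rw [h.eq]; have := h.pos x; have := h.pos (x-1); positivity

theorem IsCond.one_sub (h : IsCond ω C) (x : ℤ) : 1 - ω x = C (x - 1) / (C x + C (x - 1)) := by
  rw [h.eq]; have := h.pos x; have := h.pos (x-1)
  field_simp
  ring

theorem IsCond.le_one (h : IsCond ω C) (x : ℤ) : ω x ≤ 1 := by
  have := h.one_sub x
  have h1 := h.pos x; have h2 := h.pos (x-1)
  have : 0 ≤ 1 - ω x := by rw [this]; positivity
  linarith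

/-- reversibility -/
theorem IsCond.reversible (h : IsCond ω C) (n : ℕ) (x y : ℤ) :
    (C x + C (x - 1)) * q ω n x y = (C y + C (y - 1)) * q ω n y x := by
  induction n generalizing x y with
  | zero =>
    unfold q pt
    simp only [Function.iterate_zero, id_eq]
    by_cases hxy : x = y
    · subst hxy; simp
    · have : ¬ (y = x) := fun h => hxy h.symm
      simp [hxy, this]
  | succ n ih =>
    have e : q ω (n+1) x y = ω x * q ω n (x+1) y + (1 - ω x) * q ω n (x-1) y := by
      unfold q; rw [Function.iterate_succ_apply']; rfl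
    rw [e, q_succ_right n y x, mul_add]
    have c1 := h.pos x
    have c2 := h.pos (x-1)
    have c3 := h.pos (x+1)
    have c4 := h.pos (x-1-1)
    have i1 := ih (x+1) y
    have i2 := ih (x-1) y
    have a1 : (C x + C (x-1)) * (ω x * q ω n (x+1) y) =
        (1 - ω (x+1)) * ((C (x+1) + C (x+1-1)) * q ω n (x+1) y) := by
      rw [h.one_sub (x+1), h.eq x]
      have : x + 1 - 1 = x := by ring
      rw [this]
      field_simp
    have a2 : (C x + C (x-1)) * ((1 - ω x) * q ω n (x-1) y) =
        ω (x-1) * ((C (x-1) + C (x-1-1)) * q ω n (x-1) y) := by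
      rw [h.one_sub x, h.eq (x-1)]
      field_simp
    rw [a1, a2, i1, i2]
    ring

/-- Return probability via Cauchy–Schwarz. -/
theorem IsCond.return_lower (h : IsCond ω C) (n : ℕ) (b c : ℤ) (A : ℝ) (hA : 0 < A)
    (hmass : ∀ I : Finset ℤ, (∀ y ∈ I, y < c) →
      ∑ y ∈ I, (C y + C (y - 1)) ≤ A * (C b + C (b - 1)))
       :
    (1 - (K ω)^[n] (fun x => if c ≤ x then (1:ℝ) else 0) b) ^ 2 / A ≤ q ω (2 * n) b b := by
  classical
  set I : Finset ℤ := Finset.Icc (b - n) (b + n) with hIdef
  have hI : ∀ y : ℤ, |y - b| ≤ n → y ∈ I := by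
    intro y hy
    rw [abs_le] at hy
    rw [hIdef, Finset.mem_Icc]; constructor <;> linarith
  have h0 := h.nonneg
  have h1 := h.le_one
  have hπ : ∀ y, 0 < C y + C (y - 1) := fun y => add_pos (h.pos _) (h.pos _)
  -- stay probability
  have hone := K_iter_eq_sum (ω := ω) n (fun _ => 1) I b hI
  rw [K_iter_const] at hone
  have hc := K_iter_eq_sum (ω := ω) n (fun x => if c ≤ x then (1:ℝ) else 0) I b hI
  set J : Finset ℤ := I.filter (fun y => y < c) with hJ
  have hstayeq : 1 - (K ω)^[n] (fun x => if c ≤ x then (1:ℝ) else 0) b = ∑ y ∈ J, q ω n b y := by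
    rw [hc, hJ, Finset.sum_filter, sub_eq_iff_eq_add, ← Finset.sum_add_distrib]
    simp only [mul_one] at hone
    refine hone.trans ?_
    refine Finset.sum_congr rfl fun y _ => ?_
    by_cases hy : y < c
    · have : ¬ c ≤ y := not_le.2 hy
      rw [if_pos hy, if_neg this]; ring
    · have : c ≤ y := not_lt.1 hy
      rw [if_neg hy, if_pos this]; ring
  rw [hstayeq]
  -- 2n-step return
  have hret : q ω (2 * n) b b = ∑ y ∈ I, q ω n b y * q ω n y b := by
    have : q ω (2*n) b b = (K ω)^[n] ((K ω)^[n] (pt b)) b := by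
      unfold q; rw [← Function.iterate_add_apply, two_mul]
    rw [this, K_iter_eq_sum n _ I b hI]
    rfl
  have hrev : ∀ y, q ω n y b = (C b + C (b-1)) * q ω n b y / (C y + C (y - 1)) := by
    intro y
    rw [eq_div_iff (hπ y).ne', mul_comm, h.reversible n y b]
  have hlow : ∑ y ∈ J, (q ω n b y) ^ 2 / (C y + C (y-1)) * (C b + C (b-1)) ≤ q ω (2*n) b b := by
    rw [hret]
    calc ∑ y ∈ J, (q ω n b y) ^ 2 / (C y + C (y-1)) * (C b + C (b-1))
        = ∑ y ∈ J, q ω n b y * q ω n y b := by
          refine Finset.sum_congr rfl fun y _ => ?_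
          rw [hrev y]; ring
      _ ≤ ∑ y ∈ I, q ω n b y * q ω n y b :=
          Finset.sum_le_sum_of_subset_of_nonneg (Finset.filter_subset _ _)
            (fun y _ _ => mul_nonneg (q_nonneg h0 h1 _ _ _) (q_nonneg h0 h1 _ _ _))
  refine le_trans ?_ hlow
  rw [← Finset.sum_mul]
  by_cases hJe : J = ∅
  · simp [hJe]
  have hJne : J.Nonempty := Finset.nonempty_iff_ne_empty.2 hJe
  have hS : 0 < ∑ y ∈ J, (C y + C (y-1)) := Finset.sum_pos (fun y _ => hπ y) hJne
  have hm := hmass J (fun y hy => (Finset.mem_filter.1 hy).2)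
  have cs := Finset.sq_sum_div_le_sum_sq_div J (fun y => q ω n b y) (g := fun y => C y + C (y-1))
    (fun y _ => hπ y)
  calc (∑ y ∈ J, q ω n b y) ^ 2 / A
      ≤ (∑ y ∈ J, q ω n b y) ^ 2 / (∑ y ∈ J, (C y + C (y-1))) * (C b + C (b-1)) := by
        rw [div_mul_eq_mul_div, div_le_div_iff₀ hA hS]
        have : 0 ≤ (∑ y ∈ J, q ω n b y) ^ 2 := by positivity
        nlinarith
    _ ≤ _ := mul_le_mul_of_nonneg_right cs (hπ b).le

/-- The walk started at the bottom `b` of a valley stays below `c` for a long time. -/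
theorem IsCond.exit_upper (h : IsCond ω C) (b c : ℤ) (hbc : b < c) (η : ℝ)
    (hη : C (c - 1) ≤ η * C b) (n : ℕ) :
    (K ω)^[n] (fun x => if c ≤ x then (1:ℝ) else 0) b ≤ n * η := by
  classical
  have h0 := h.nonneg
  have h1 := h.le_one
  set R : ℝ := ∑ y ∈ Finset.Ico b c, (C y)⁻¹ with hR
  have hRpos : 0 < R := by
    apply Finset.sum_pos (fun y _ => inv_pos.2 (h.pos y))
    exact ⟨b, Finset.mem_Ico.2 ⟨le_rfl, hbc⟩⟩
  have hRge : (C (c-1))⁻¹ ≤ R := by
    apply Finset.single_le_sum (f := fun y => (C y)⁻¹) (fun y _ => (inv_pos.2 (h.pos y)).le)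
    rw [Finset.mem_Ico]; constructor <;> omega
  set ψ : ℤ → ℝ := fun x => (∑ y ∈ Finset.Ico b x, (C y)⁻¹) / R with hψ
  have hηpos : 0 < η := by
    have := h.pos (c-1); have := h.pos b
    by_contra hcon
    push Not at hcon
    nlinarith
  have hψ_succ : ∀ x, b ≤ x → ψ (x + 1) = ψ x + (C x)⁻¹ / R := by
    intro x hx
    simp only [hψ]
    have : Finset.Ico b (x+1) = insert x (Finset.Ico b x) := by
      ext y; simp only [Finset.mem_Ico, Finset.mem_insert]; omega
    rw [this, Finset.sum_insert (by simp)]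
    ring
  have hψb : ∀ x, x ≤ b → ψ x = 0 := by
    intro x hx
    simp only [hψ]
    rw [Finset.Ico_eq_empty (by omega)]; simp
  have hψc : ∀ x, c ≤ x → 1 ≤ ψ x := by
    intro x hx
    simp only [hψ]
    rw [le_div_iff₀ hRpos, one_mul, hR]
    exact Finset.sum_le_sum_of_subset_of_nonneg (Finset.Ico_subset_Ico_right hx)
      (fun y _ _ => (inv_pos.2 (h.pos y)).le)
  have hψ0 : ∀ x, 0 ≤ ψ x := by
    intro x
    exact div_nonneg (Finset.sum_nonneg fun y _ => (inv_pos.2 (h.pos y)).le) hRpos.le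
  have hKψ : ∀ x, K ω ψ x ≤ ψ x + η := by
    intro x
    rcases lt_trichotomy x b with hx | hx | hx
    · unfold K
      rw [hψb x hx.le, hψb (x+1) (by omega), hψb (x-1) (by omega)]
      linarith
    · subst hx
      unfold K
      rw [hψb x le_rfl, hψb (x-1) (by omega), hψ_succ x le_rfl, hψb x le_rfl]
      have hx1 := h.pos x
      have hx2 := h1 x
      have hx3 := h0 x
      have hc1 := h.pos (c-1)
      have : (C x)⁻¹ / R ≤ η := by
        rw [div_le_iff₀ hRpos]
        have : η * (C (c-1))⁻¹ ≤ η * R := mul_le_mul_of_nonneg_left hRge hηpos.le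
        have h3 : (C x)⁻¹ ≤ η * (C (c-1))⁻¹ := by
          rw [← div_eq_mul_inv, le_div_iff₀ hc1, inv_mul_le_iff₀ hx1]
          linarith
        linarith
      have h4 : 0 ≤ (C x)⁻¹ / R := by positivity
      nlinarith
    · have e1 := hψ_succ x hx.le
      have e2 := hψ_succ (x-1) (by omega)
      rw [show x - 1 + 1 = x by ring] at e2
      have : K ω ψ x = ψ x := by
        unfold K
        rw [e1, h.one_sub x, h.eq x]
        have hx1 := h.pos x
        have hx2 := h.pos (x-1)
        have : ψ (x-1) = ψ x - (C (x-1))⁻¹ / R := by linarith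
        rw [this]
        field_simp
        ring
      linarith
  have hmain : ∀ n : ℕ, ∀ x, (K ω)^[n] (fun x => if c ≤ x then (1:ℝ) else 0) x ≤ ψ x + n * η := by
    intro n
    induction n with
    | zero =>
      intro x
      simp only [Function.iterate_zero, id_eq]
      by_cases hx : c ≤ x
      · have := hψc x hx; simp [hx]; linarith
      · have := hψ0 x; simp [hx]; linarith
    | succ n ih =>
      intro x
      rw [Function.iterate_succ_apply']
      calc K ω ((K ω)^[n] (fun x => if c ≤ x then (1:ℝ) else 0)) x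
          ≤ K ω (fun x => ψ x + n * η) x := K_mono h0 h1 ih x
        _ = K ω ψ x + n * η := by unfold K; ring
        _ ≤ ψ x + η + n * η := by linarith [hKψ x]
        _ = ψ x + (n+1 : ℕ) * η := by push_cast; ring
  have := hmain n b
  rw [hψb b le_rfl] at this
  linarith

end

end Pool.Agent.helper97.Coll
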