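import Pool.Agent.helper97.Coll.Chain

namespace Pool.Agent.helper97.Coll

open Finset

noncomputable section

variable {ω C : ℤ → ℝ}

theorem hit_self (ω : ℤ → ℝ) (b : ℤ) (m : ℕ) : hit ω b m b = 1 := by
  cases m <;> simp [hit, pt]

theorem hit_nonneg (h0 : ∀ x, 0 ≤ ω x) (h1 : ∀ x, ω x ≤ 1) (b : ℤ) (m : ℕ) (x : ℤ) :
    0 ≤ hit ω b m x := by
  induction m generalizing x with
  | zero => exact pt_nonneg _ _
  | succ m ih =>
    simp only [hit]
    split_ifs
    · norm_num
    · unfold K
      have := mul_nonneg (h0 x) (ih (x+1))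
      have := mul_nonneg (sub_nonneg.2 (h1 x)) (ih (x-1))
      linarith

theorem hit_le_one (h0 : ∀ x, 0 ≤ ω x) (h1 : ∀ x, ω x ≤ 1) (b : ℤ) (m : ℕ) (x : ℤ) :
    hit ω b m x ≤ 1 := by
  induction m generalizing x with
  | zero => simp only [hit, pt]; split_ifs <;> norm_num
  | succ m ih =>
    simp only [hit]
    split_ifs
    · norm_num
    · unfold K
      have := mul_le_mul_of_nonneg_left (ih (x+1)) (h0 x)
      have := mul_le_mul_of_nonneg_left (ih (x-1)) (sub_nonneg.2 (h1 x))
      linarith

theorem hit_mono_succ (h0 : ∀ x, 0 ≤ ω x) (h1 : ∀ x, ω x ≤ 1) (b : ℤ) (m : ℕ) (x : ℤ) :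
    hit ω b m x ≤ hit ω b (m + 1) x := by
  induction m generalizing x with
  | zero =>
    by_cases hx : x = b
    · subst hx; rw [hit_self, hit_self]
    · have : hit ω b 0 x = 0 := by simp [hit, pt, hx]
      rw [this]; exact hit_nonneg h0 h1 _ _ _
  | succ m ih =>
    by_cases hx : x = b
    · subst hx; rw [hit_self, hit_self]
    · have e1 : hit ω b (m+1) x = K ω (hit ω b m) x := by simp [hit, hx]
      have e2 : hit ω b (m+1+1) x = K ω (hit ω b (m+1)) x := by simp [hit, hx]
      rw [e1, e2]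
      exact K_mono h0 h1 ih x

theorem hit_monotone (h0 : ∀ x, 0 ≤ ω x) (h1 : ∀ x, ω x ≤ 1) (b : ℤ) (x : ℤ) :
    Monotone (fun m => hit ω b m x) :=
  monotone_nat_of_le_succ (fun m => hit_mono_succ h0 h1 b m x)

/-- if `hit` is bounded below on average, then it is at the last time -/
theorem sum_one_sub_hit_ge (h0 : ∀ x, 0 ≤ ω x) (h1 : ∀ x, ω x ≤ 1) (b : ℤ) (n : ℕ) (x : ℤ) :
    (n + 1 : ℝ) * (1 - hit ω b n x) ≤ ∑ i ∈ range (n + 1), (1 - hit ω b i x) := by
  have : ∑ i ∈ range (n + 1), (1 - hit ω b n x) ≤ ∑ i ∈ range (n + 1), (1 - hit ω b i x) := by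
    refine Finset.sum_le_sum fun i hi => ?_
    have := hit_monotone h0 h1 b x (Nat.lt_succ_iff.1 (mem_range.1 hi))
    simp only at this
    linarith
  rw [Finset.sum_const, card_range, nsmul_eq_mul] at this
  push_cast at this
  exact this

theorem sum_one_sub_hit_succ (b : ℤ) (n : ℕ) (x : ℤ) (hx : x ≠ b) :
    ∑ i ∈ range (n + 1), (1 - hit ω b i x) =
      1 + K ω (fun u => ∑ i ∈ range n, (1 - hit ω b i u)) x := by
  rw [Finset.sum_range_succ']
  have e0 : hit ω b 0 x = 0 := by simp [hit, pt, hx]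
  rw [e0, sub_zero, add_comm]
  congr 1
  unfold K
  rw [Finset.mul_sum, Finset.mul_sum, ← Finset.sum_add_distrib]
  refine Finset.sum_congr rfl fun i _ => ?_
  simp only [hit, if_neg hx, K]
  ring

/-- Markov bound for the hitting time of `b` from the left in terms of
`∑ M y / C y`, where `M y` is the total mass of `(-∞, y]` (or any supersolution). -/
theorem IsCond.hit_lower (h : IsCond ω C) (M : ℤ → ℝ)
    (hM : ∀ y, M y = M (y - 1) + (C y + C (y - 1))) (b : ℤ) (hM0 : ∀ y, 0 ≤ M y)
    (x : ℤ) (hx : x ≤ b) (n : ℕ) :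
    1 - (∑ y ∈ Finset.Ico x b, M y / C y) / (n + 1) ≤ hit ω b n x := by
  have h0 := h.nonneg
  have h1 := h.le_one
  have key : ∀ n : ℕ, ∀ x ≤ b, ∑ i ∈ range n, (1 - hit ω b i x) ≤
      ∑ y ∈ Finset.Ico x b, M y / C y := by
    intro n
    induction n with
    | zero =>
      intro x _
      simp only [range_zero, sum_empty]
      exact Finset.sum_nonneg fun y _ => div_nonneg (hM0 y) (h.pos y).le
    | succ n ih =>
      intro x hx
      rcases eq_or_lt_of_le hx with rfl | hlt
      · simp [hit_self]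
      rw [sum_one_sub_hit_succ b n x (ne_of_lt hlt)]
      have i1 := ih (x+1) (by omega)
      have i2 := ih (x-1) (by omega)
      have s1 : ∑ y ∈ Finset.Ico x b, M y / C y =
          M x / C x + ∑ y ∈ Finset.Ico (x+1) b, M y / C y := by
        have : Finset.Ico x b = insert x (Finset.Ico (x+1) b) := by
          ext y; simp only [Finset.mem_Ico, Finset.mem_insert]; omega
        rw [this, Finset.sum_insert (by simp)]
      have s2 : ∑ y ∈ Finset.Ico (x-1) b, M y / C y =
          M (x-1) / C (x-1) + ∑ y ∈ Finset.Ico x b, M y / C y := by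
        have : Finset.Ico (x-1) b = insert (x-1) (Finset.Ico x b) := by
          ext y; simp only [Finset.mem_Ico, Finset.mem_insert]; omega
        rw [this, Finset.sum_insert (by simp)]
      have c1 := h.pos x
      have c2 := h.pos (x-1)
      have k1 := mul_le_mul_of_nonneg_left i1 (h0 x)
      have k2 := mul_le_mul_of_nonneg_left i2 (sub_nonneg.2 (h1 x))
      have e1 : ω x * (M x / C x) = 1 + (1 - ω x) * (M (x-1) / C (x-1)) := by
        rw [h.one_sub x, h.eq x, hM x]
        field_simp
        ring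
      unfold K
      rw [s2] at k2
      have : ∑ y ∈ Finset.Ico (x+1) b, M y / C y = ∑ y ∈ Finset.Ico x b, M y / C y - M x / C x := by
        linarith
      rw [this] at k1
      nlinarith
  have h2 := (sum_one_sub_hit_ge h0 h1 b n x).trans (key (n+1) x hx)
  have hn : (0:ℝ) < n + 1 := by positivity
  rw [sub_le_iff_le_add, ← sub_le_iff_le_add', le_div_iff₀ hn]
  linarith

/-- lower bound on the transition probability to `b` from the hitting probability and the
return probabilities -/
theorem q_lower_of_hit (h0 : ∀ x, 0 ≤ ω x) (h1 : ∀ x, ω x ≤ 1) (b : ℤ) (α : ℝ) (n₂ : ℕ)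
    (hq : ∀ k : ℕ, 2 * k ≤ n₂ → α ≤ q ω (2 * k) b b) :
    ∀ (m n' : ℕ) (x : ℤ), m ≤ n' → n' ≤ n₂ → Even ((n' : ℤ) + x - b) →
      α * hit ω b m x ≤ q ω n' x b := by
  have hb : ∀ (n' : ℕ), n' ≤ n₂ → Even ((n' : ℤ) + b - b) → α ≤ q ω n' b b := by
    intro n' hn' hpar
    rw [add_sub_cancel_right] at hpar
    obtain ⟨k, hk⟩ := (Int.even_coe_nat n').1 hpar
    have : n' = 2 * k := by omega
    subst this
    exact hq k hn'
  intro m
  induction m with
  | zero =>
    intro n' x _ hn' hpar
    by_cases hx : x = b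
    · subst hx; rw [hit_self, mul_one]; exact hb n' hn' hpar
    · have : hit ω b 0 x = 0 := by simp [hit, pt, hx]
      rw [this, mul_zero]; exact q_nonneg h0 h1 _ _ _
  | succ m ih =>
    intro n' x hmn hn' hpar
    by_cases hx : x = b
    · subst hx; rw [hit_self, mul_one]; exact hb n' hn' hpar
    · obtain ⟨k, rfl⟩ : ∃ k, n' = k + 1 := ⟨n' - 1, by omega⟩
      have e1 : hit ω b (m+1) x = K ω (hit ω b m) x := by simp [hit, hx]
      have e2 : q ω (k+1) x b = ω x * q ω k (x+1) b + (1 - ω x) * q ω k (x-1) b := by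
        unfold q; rw [Function.iterate_succ_apply']; rfl
      rw [e1, e2]
      have i1 := ih k (x+1) (by omega) (by omega) (by
        have : (k:ℤ) + (x+1) - b = ((k+1:ℕ):ℤ) + x - b := by push_cast; ring
        rw [this]; exact hpar)
      have i2 := ih k (x-1) (by omega) (by omega) (by
        have : (k:ℤ) + (x-1) - b = (((k+1:ℕ):ℤ) + x - b) - 2 := by push_cast; ring
        rw [this]; exact hpar.sub even_two)
      unfold K
      have k1 := mul_le_mul_of_nonneg_left i1 (h0 x)
      have k2 := mul_le_mul_of_nonneg_left i2 (sub_nonneg.2 (h1 x))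
      nlinarith

/-! ### Simple random walk -/

/-- the homogeneous environment `1/2` -/
def half : ℤ → ℝ := fun _ => 1 / 2

theorem half_nonneg : ∀ x, 0 ≤ half x := fun _ => by unfold half; norm_num
theorem half_le_one : ∀ x, half x ≤ 1 := fun _ => by unfold half; norm_num

theorem K_half_iter_sq (b : ℤ) (n : ℕ) :
    (K half)^[n] (fun y : ℤ => ((y : ℝ) - b) ^ 2) = fun z : ℤ => ((z : ℝ) - b) ^ 2 + n := by
  induction n with
  | zero => funext z; simp
  | succ n ih =>
    rw [Function.iterate_succ_apply', ih]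
    funext z
    unfold K half
    push_cast
    ring

/-- gambler's ruin with a time bound -/
theorem srw_hit_lower (b : ℤ) (R : ℕ) (hR : 0 < R) (n : ℕ) (y : ℤ) (hy : |y - b| ≤ R) :
    1 - (|y - b| : ℤ) / (R : ℝ) - (|y - b| : ℤ) * (R - (|y - b| : ℤ)) / (n + 1) ≤
      hit half b n y := by
  have hR' : (0:ℝ) < R := by exact_mod_cast hR
  set F : ℕ → ℤ → ℝ := fun n u =>
    if |u - b| ≤ R then n * ((|u - b| : ℤ) / (R : ℝ)) + (|u - b| : ℤ) * (R - (|u - b| : ℤ)) else n
    with hF
  have key : ∀ n : ℕ, ∀ u, ∑ i ∈ range n, (1 - hit half b i u) ≤ F n u := by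
    intro n
    induction n with
    | zero =>
      intro u
      simp only [range_zero, sum_empty, hF]
      split_ifs with hu
      · have : (0:ℝ) ≤ (|u - b| : ℤ) := by exact_mod_cast abs_nonneg (u - b)
        have h2 : ((|u - b| : ℤ) : ℝ) ≤ R := by exact_mod_cast hu
        have := mul_nonneg this (sub_nonneg.2 h2)
        simpa using this
      · simp
    | succ n ih =>
      intro u
      by_cases hub : u = b
      · subst hub
        simp [hit_self, hF]
      by_cases huR : |u - b| < R
      · rw [sum_one_sub_hit_succ b n u hub]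
        have i1 := ih (u+1)
        have i2 := ih (u-1)
        have hcase : (|u + 1 - b| = |u - b| + 1 ∧ |u - 1 - b| = |u - b| - 1) ∨
            (|u + 1 - b| = |u - b| - 1 ∧ |u - 1 - b| = |u - b| + 1) := by
          rcases lt_or_gt_of_ne hub with h | h
          · right
            rw [abs_of_nonpos (by omega : u + 1 - b ≤ 0), abs_of_neg (by omega : u - b < 0),
              abs_of_neg (by omega : u - 1 - b < 0)]
            constructor <;> ring
          · left
            rw [abs_of_pos (by omega : 0 < u + 1 - b), abs_of_pos (by omega : 0 < u - b),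
              abs_of_nonneg (by omega : 0 ≤ u - 1 - b)]
            constructor <;> ring
        have hFu : F (n+1) u = ((n+1 : ℕ) : ℝ) * ((|u - b| : ℤ) / (R : ℝ)) +
            (|u - b| : ℤ) * (R - (|u - b| : ℤ)) := by
          simp only [hF]; rw [if_pos huR.le]
        have hk0 : (0:ℝ) ≤ (|u - b| : ℤ) := by exact_mod_cast abs_nonneg (u - b)
        have hk1 : 0 ≤ ((|u - b| : ℤ) : ℝ) / R := by positivity
        have hsum : F n (u+1) + F n (u-1) ≤ 2 * (n * ((|u - b| : ℤ) / (R : ℝ)) +
            (|u - b| : ℤ) * (R - (|u - b| : ℤ)) - 1) := by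
          simp only [hF]
          rcases hcase with ⟨h1, h2⟩ | ⟨h1, h2⟩
          · rw [h1, h2, if_pos (by omega), if_pos (by omega)]
            push_cast
            apply le_of_eq
            field_simp
            ring
          · rw [h1, h2, if_pos (by omega), if_pos (by omega)]
            push_cast
            apply le_of_eq
            field_simp
            ring
        rw [hFu]
        rw [Nat.cast_add, Nat.cast_one]
        unfold K half at *
        nlinarith
      · push Not at huR
        have hle : ∑ i ∈ range (n+1), (1 - hit half b i u) ≤ ((n+1 : ℕ) : ℝ) := by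
          calc ∑ i ∈ range (n+1), (1 - hit half b i u) ≤ ∑ i ∈ range (n+1), (1:ℝ) :=
                Finset.sum_le_sum fun i _ => by
                  have := hit_nonneg half_nonneg half_le_one b i u; linarith
            _ = _ := by simp
        refine hle.trans ?_
        simp only [hF]
        split_ifs with hu
        · have hkR : |u - b| = R := le_antisymm hu huR
          rw [hkR]
          simp only [Int.cast_natCast, sub_self, mul_zero, add_zero]
          rw [div_self hR'.ne', mul_one]
        · exact le_rfl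
  have h2 := (sum_one_sub_hit_ge half_nonneg half_le_one b n y).trans (key (n+1) y)
  simp only [hF] at h2
  rw [if_pos hy] at h2
  have hn : (0:ℝ) < n + 1 := by positivity
  have h3 : 1 - hit half b n y ≤ (|y - b| : ℤ) / (R : ℝ) +
      (|y - b| : ℤ) * (R - (|y - b| : ℤ)) / (n + 1) := by
    rw [← mul_le_mul_iff_right₀ hn]
    refine h2.trans (le_of_eq ?_)
    push_cast
    field_simp
  linarith

/-- Simple random walk hits `b` in the time window `[s², 145 s²]` with probability at least
`1/3`, when started within distance `s` of `b`. -/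
theorem srw_window (s : ℕ) (hs : 0 < s) (b z : ℤ) (hz : |z - b| ≤ s) :
    1 / 3 ≤ (K half)^[s ^ 2] (hit half b (144 * s ^ 2)) z := by
  have hs' : (0:ℝ) < s := by exact_mod_cast hs
  have hlow : ∀ y : ℤ, 1 / 2 - 1 / (18 * s ^ 2) * ((y : ℝ) - b) ^ 2 ≤
      hit half b (144 * s ^ 2) y := by
    intro y
    by_cases hy : |y - b| ≤ 3 * s
    · have h1 := srw_hit_lower b (12 * s) (by omega) (144 * s ^ 2) y (by push_cast; omega)
      have hk0 : (0:ℝ) ≤ (|y - b| : ℤ) := by exact_mod_cast abs_nonneg (y - b)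
      have hk3 : ((|y - b| : ℤ) : ℝ) ≤ 3 * s := by exact_mod_cast hy
      have e1 : ((|y - b| : ℤ) : ℝ) / ((12 * s : ℕ) : ℝ) ≤ 1 / 4 := by
        rw [div_le_iff₀ (by positivity), Nat.cast_mul, Nat.cast_ofNat]; linarith
      have e2 : ((|y - b| : ℤ) : ℝ) * (((12 * s : ℕ) : ℝ) - ((|y - b| : ℤ) : ℝ)) /
          (((144 * s ^ 2 : ℕ) : ℝ) + 1) ≤ 1 / 4 := by
        rw [div_le_iff₀ (by positivity), Nat.cast_mul, Nat.cast_mul, Nat.cast_ofNat,
          Nat.cast_ofNat, Nat.cast_pow]
        nlinarith
      have e3 : 0 ≤ 1 / (18 * (s:ℝ) ^ 2) * ((y : ℝ) - b) ^ 2 := by positivity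
      linarith
    · push Not at hy
      have h1 := hit_nonneg half_nonneg half_le_one b (144 * s^2) y
      have h2 : (9:ℝ) * s ^ 2 ≤ ((y : ℝ) - b) ^ 2 := by
        have : (3 * s : ℝ) ≤ |(y : ℝ) - b| := by
          have : ((3 * s : ℤ) : ℝ) ≤ ((|y - b| : ℤ) : ℝ) := by exact_mod_cast hy.le
          push_cast at this; exact this
        rw [← sq_abs ((y:ℝ) - b)]
        nlinarith
      have h3 : 1 / 2 ≤ 1 / (18 * (s:ℝ) ^ 2) * ((y : ℝ) - b) ^ 2 := by
        rw [div_mul_eq_mul_div, one_mul, le_div_iff₀ (by positivity)]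
        linarith
      linarith
  have h1 := K_iter_mono half_nonneg half_le_one (s ^ 2) hlow z
  refine le_trans ?_ h1
  have e : (fun y : ℤ => 1 / 2 - 1 / (18 * (s:ℝ) ^ 2) * ((y : ℝ) - b) ^ 2) =
      fun y : ℤ => (1/2 : ℝ) + (-(1 / (18 * (s:ℝ) ^ 2))) * ((y : ℝ) - b) ^ 2 := by
    funext y; ring
  rw [e, K_iter_add, K_iter_smul, K_half_iter_sq, K_iter_const]
  simp only
  have h2 : ((z:ℝ) - b) ^ 2 ≤ s ^ 2 := by
    have : |(z:ℝ) - b| ≤ s := by
      have : ((|z - b| : ℤ) : ℝ) ≤ ((s : ℤ) : ℝ) := by exact_mod_cast hz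
      push_cast at this; exact this
    exact sq_le_sq' (by have := neg_abs_le ((z:ℝ) - b); linarith) (le_trans (le_abs_self _) this)
  have h3 : 1 / (18 * (s:ℝ) ^ 2) * (((z:ℝ) - b) ^ 2 + (s ^ 2 : ℕ)) ≤ 1 / 9 := by
    rw [div_mul_eq_mul_div, one_mul, div_le_iff₀ (by positivity)]
    push_cast
    linarith
  linarith

end

end Pool.Agent.helper97.Coll
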