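import Pool.Agent.helper97.Coll.Env4

namespace Pool.Agent.helper97.Coll

open Finset MeasureTheory ProbabilityTheory Real
open scoped ENNReal Topology

set_option linter.unusedSectionVars false

noncomputable section

variable {Ω : Type*} [mΩ : MeasurableSpace Ω]
variable {P : Measure Ω} [IsProbabilityMeasure P] {X : ℤ → Ω → ℝ} {M₀ r : ℝ}

/-- summability from summable expectations -/
theorem ae_summable_of_integral {f : ℕ → Ω → ℝ} (hf : ∀ k, Integrable (f k) P)
    (hf0 : ∀ k a, 0 ≤ f k a) {g : ℕ → ℝ} (hg : Summable g) (hfg : ∀ k, ∫ a, f k a ∂P ≤ g k) :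
    ∀ᵐ a ∂P, Summable fun k => f k a := by
  have hg0 : ∀ k, 0 ≤ g k := fun k => (integral_nonneg (hf0 k)).trans (hfg k)
  have h1 : ∫⁻ a, ∑' k, ENNReal.ofReal (f k a) ∂P < ∞ := by
    rw [lintegral_tsum fun k => (hf k).aestronglyMeasurable.aemeasurable.ennreal_ofReal]
    calc ∑' k, ∫⁻ a, ENNReal.ofReal (f k a) ∂P ≤ ∑' k, ENNReal.ofReal (g k) := by
          refine ENNReal.tsum_le_tsum fun k => ?_
          rw [← ofReal_integral_eq_lintegral_ofReal (hf k)
            (Filter.Eventually.of_forall (hf0 k))]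
          exact ENNReal.ofReal_le_ofReal (hfg k)
      _ = ENNReal.ofReal (∑' k, g k) := (ENNReal.ofReal_tsum_of_nonneg hg0 hg).symm
      _ < ∞ := ENNReal.ofReal_lt_top
  have h2 := ae_lt_top' (AEMeasurable.tsum fun k =>
    (hf k).aestronglyMeasurable.aemeasurable.ennreal_ofReal) h1.ne
  filter_upwards [h2] with a ha
  have := ENNReal.summable_toReal ha.ne
  refine this.congr fun k => ?_
  rw [ENNReal.toReal_ofReal (hf0 k a)]

theorem Inc.ae_left (h : Inc P X M₀ r) :
    ∀ᵐ a ∂P, Summable fun k : ℕ => exp (V X (-(k:ℤ)) k a / 4) :=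
  ae_summable_of_integral (fun k => h.expV4_int _ _) (fun k a => (exp_pos _).le)
    (summable_geometric_of_lt_one h.r0.le h.r1) (fun k => h.expV4 _ _)

theorem Inc.ae_right (h : Inc P X M₀ r) :
    ∀ᵐ a ∂P, ∃ c : ℝ, 0 < c ∧ ∀ k : ℕ, exp (V X 0 k a / 4) ≤ c * (√r) ^ k := by
  have hr0 := h.r0
  have hs0 : 0 < √r := Real.sqrt_pos.2 hr0
  have hs1 : √r < 1 := by
    have := Real.sqrt_lt_sqrt hr0.le h.r1
    rwa [Real.sqrt_one] at this
  have hsum : ∀ᵐ a ∂P, Summable fun k : ℕ => exp (V X 0 k a / 4) * ((√r) ^ k)⁻¹ := by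
    refine ae_summable_of_integral (g := fun k => (√r) ^ k) (fun k => (h.expV4_int _ _).mul_const _)
      (fun k a => by positivity) (summable_geometric_of_lt_one hs0.le hs1) (fun k => ?_)
    rw [integral_mul_const]
    calc (∫ a, exp (V X 0 k a / 4) ∂P) * ((√r) ^ k)⁻¹ ≤ r ^ k * ((√r) ^ k)⁻¹ :=
          mul_le_mul_of_nonneg_right (h.expV4 _ _) (by positivity)
      _ = (√r) ^ k := by
          have : r ^ k = (√r) ^ k * (√r) ^ k := by
            rw [← mul_pow, Real.mul_self_sqrt hr0.le]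
          rw [this]; field_simp
  filter_upwards [hsum] with a ha
  refine ⟨(∑' k : ℕ, exp (V X 0 k a / 4) * ((√r) ^ k)⁻¹) + 1, ?_, fun k => ?_⟩
  · have : 0 ≤ ∑' k : ℕ, exp (V X 0 k a / 4) * ((√r) ^ k)⁻¹ := tsum_nonneg fun k => by positivity
    linarith
  · have h1 := ha.le_tsum k (fun j _ => by positivity)
    have hk : 0 < (√r) ^ k := by positivity
    rw [← div_eq_mul_inv, div_le_iff₀ hk] at h1
    nlinarith

/-- sequential second Borel–Cantelli -/
theorem Inc.ae_frequently (h : Inc P X M₀ r) (m : ℕ → ℤ) (hm : ∀ k, m k ≤ m (k + 1))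
    (E : ℕ → Set Ω) (hE : ∀ k, MeasurableSet[Fil X (Set.Ioc (m k) (m (k + 1)))] (E k))
    {c : ℝ} (hc : 0 < c) (hP : ∀ k, c ≤ P.real (E k)) :
    ∀ᵐ a ∂P, ∀ n : ℕ, ∃ k ≥ n, a ∈ E k := by
  have hmono : Monotone m := monotone_nat_of_le_succ hm
  have hEm : ∀ k, MeasurableSet (E k) := fun k => h.Fil_le _ _ (hE k)
  rw [ae_all_iff]
  intro n
  -- intersection of complements
  set B : ℕ → Set Ω := fun N => ⋂ i ∈ Finset.range N, (E (n + i))ᶜ with hB
  have hBm : ∀ N, MeasurableSet[Fil X (Set.Ioc (m n) (m (n + N)))] (B N) := by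
    intro N
    refine @Finset.measurableSet_biInter _ _ (Fil X (Set.Ioc (m n) (m (n + N)))) _ _
      fun i hi => ?_
    have hi' := Finset.mem_range.1 hi
    have hs : Set.Ioc (m (n + i)) (m (n + i + 1)) ⊆ Set.Ioc (m n) (m (n + N)) :=
      Set.Ioc_subset_Ioc (hmono (by omega)) (hmono (by omega))
    exact MeasurableSet.compl (m := Fil X (Set.Ioc (m n) (m (n + N))))
      (Fil_mono hs _ (hE (n + i)))
  have hc1 : c ≤ 1 := (hP 0).trans (measureReal_le_one)
  have hBle : ∀ N, P.real (B N) ≤ (1 - c) ^ N := by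
    intro N
    induction N with
    | zero => rw [pow_zero]; exact measureReal_le_one
    | succ N ih =>
      have e : B (N + 1) = B N ∩ (E (n + N))ᶜ := by
        ext a
        simp only [hB, Set.mem_iInter, Finset.mem_range, Set.mem_inter_iff]
        constructor
        · intro h2; exact ⟨fun i hi => h2 i (by omega), h2 N (by omega)⟩
        · rintro ⟨h2, h3⟩ i hi
          rcases Nat.lt_or_ge i N with hlt | hge
          · exact h2 i hlt
          · have : i = N := by omega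
            subst this; exact h3
      have hdisj : Disjoint (Set.Ioc (m n) (m (n + N))) (Set.Ioc (m (n + N)) (m (n + N + 1))) := by
        rw [Set.disjoint_left]
        intro x hx hx2
        rw [Set.mem_Ioc] at hx hx2
        omega
      rw [e, h.real_inter hdisj (hBm N)
        (MeasurableSet.compl (m := Fil X (Set.Ioc (m (n + N)) (m (n + N + 1)))) (hE (n + N))),
        probReal_compl_eq_one_sub (hEm _), pow_succ]
      exact mul_le_mul ih (by linarith [hP (n + N)])
        (by have := measureReal_le_one (μ := P) (s := E (n+N)); linarith) (by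
          apply pow_nonneg; linarith)
  have hlim : Filter.Tendsto (fun N => (1 - c) ^ N) Filter.atTop (𝓝 0) :=
    tendsto_pow_atTop_nhds_zero_of_lt_one (by linarith) (by linarith)
  have hzero : P.real {a | ¬ ∃ k ≥ n, a ∈ E k} ≤ 0 := by
    refine ge_of_tendsto' hlim fun N => ?_
    refine le_trans (measureReal_mono ?_) (hBle N)
    intro a ha
    have ha' : ¬ ∃ k ≥ n, a ∈ E k := ha
    simp only [hB, Set.mem_iInter]
    intro i _ hai
    exact ha' ⟨n + i, by omega, hai⟩
  rw [ae_iff]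
  have h0 : P.real {a | ¬ ∃ k ≥ n, a ∈ E k} = 0 := le_antisymm hzero measureReal_nonneg
  rwa [measureReal_eq_zero_iff] at h0

/-- existence of a suitable sequence of scales -/
theorem exists_scales (A B : ℕ → ℕ → ℝ) (Kf : ℕ → ℕ) {ρ : ℝ} (hρ0 : 0 ≤ ρ) (hρ : ρ < 1) :
    ∃ (m L : ℕ → ℕ), (∀ k, 1 ≤ L k) ∧ (∀ k, m k + k ≤ L k) ∧
      (∀ k, m (k + 1) = m k + 2 * L k + Kf (L k)) ∧
      (∀ k, A k (m k) ≤ (L k : ℝ) ^ 2) ∧ (∀ k, B k (m k) * ρ ^ (L k) ≤ 1) := by
  have hex : ∀ k m : ℕ, ∃ L : ℕ, 1 ≤ L ∧ m + k ≤ L ∧ A k m ≤ (L : ℝ) ^ 2 ∧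
      B k m * ρ ^ L ≤ 1 := by
    intro k m
    have t1 : Filter.Tendsto (fun L : ℕ => (L : ℝ) ^ 2) Filter.atTop Filter.atTop :=
      (Filter.tendsto_pow_atTop (by norm_num)).comp tendsto_natCast_atTop_atTop
    have t2 : Filter.Tendsto (fun L : ℕ => B k m * ρ ^ L) Filter.atTop (𝓝 0) := by
      have := (tendsto_pow_atTop_nhds_zero_of_lt_one hρ0 hρ).const_mul (B k m)
      rwa [mul_zero] at this
    have h1 := t1.eventually_ge_atTop (A k m)
    have h2 := t2.eventually_le_const (show (0:ℝ) < 1 by norm_num)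
    obtain ⟨L, hL⟩ := (((h1.and h2).and (Filter.eventually_ge_atTop 1)).and
      (Filter.eventually_ge_atTop (m + k))).exists
    exact ⟨L, hL.1.2, hL.2, hL.1.1.1, hL.1.1.2⟩
  choose Lf hLf using hex
  let m : ℕ → ℕ := fun k => Nat.rec 0 (fun k mk => mk + 2 * Lf k mk + Kf (Lf k mk)) k
  refine ⟨m, fun k => Lf k (m k), fun k => (hLf k (m k)).1, fun k => (hLf k (m k)).2.1,
    fun k => rfl, fun k => (hLf k (m k)).2.2.1, fun k => (hLf k (m k)).2.2.2⟩

end

end Pool.Agent.helper97.Coll
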