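import Pool.Agent.helper97.Coll.Markov
import Pool.Agent.helper97.Coll.Env5

namespace Pool.Agent.helper97.Coll

open Finset Real

set_option linter.unusedSectionVars false

noncomputable section

/-- the potential of a sequence of increments -/
def pot (x : ℤ → ℝ) (y : ℤ) : ℝ := ∑ i ∈ Finset.Ioc 0 y, x i - ∑ i ∈ Finset.Ioc y 0, x i

theorem pot_zero (x : ℤ → ℝ) : pot x 0 = 0 := by simp [pot]

theorem pot_step (x : ℤ → ℝ) (y : ℤ) : pot x y = pot x (y - 1) + x y := by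
  unfold pot
  rcases le_or_gt 1 y with hy | hy
  · have e1 : Finset.Ioc 0 y = insert y (Finset.Ioc 0 (y - 1)) := by
      ext i; simp only [Finset.mem_Ioc, Finset.mem_insert]; omega
    rw [e1, Finset.sum_insert (by simp), Finset.Ioc_eq_empty (by omega : ¬ y < 0),
      Finset.Ioc_eq_empty (by omega : ¬ y - 1 < 0)]
    ring
  · have e1 : Finset.Ioc (y - 1) 0 = insert y (Finset.Ioc y 0) := by
      ext i; simp only [Finset.mem_Ioc, Finset.mem_insert]; omega
    rw [e1, Finset.sum_insert (by simp), Finset.Ioc_eq_empty (by omega : ¬ 0 < y),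
      Finset.Ioc_eq_empty (by omega : ¬ 0 < y - 1)]
    ring

theorem pot_add (x : ℤ → ℝ) (b : ℤ) (k : ℕ) :
    pot x (b + k) = pot x b + ∑ i ∈ range k, x (b + 1 + i) := by
  induction k with
  | zero => simp
  | succ k ih =>
    rw [Finset.sum_range_succ, ← add_assoc, ← ih]
    have := pot_step x (b + (k + 1 : ℕ))
    rw [this]
    have e1 : b + ((k + 1 : ℕ) : ℤ) - 1 = b + k := by push_cast; ring
    have e2 : b + ((k + 1 : ℕ) : ℤ) = b + 1 + k := by push_cast; ring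
    rw [e1, e2]

theorem V_eq_pot {Ω : Type*} (X : ℤ → Ω → ℝ) (b : ℤ) (k : ℕ) (a : Ω) :
    V X b k a = pot (fun i => X i a) (b + k) - pot (fun i => X i a) b := by
  rw [pot_add]; unfold V; ring

/-- conductances -/
def con (x : ℤ → ℝ) (y : ℤ) : ℝ := exp (-pot x y)

theorem con_pos (x : ℤ → ℝ) (y : ℤ) : 0 < con x y := exp_pos _

theorem con_prev (x : ℤ → ℝ) (y : ℤ) : con x (y - 1) = con x y * exp (x y) := by
  unfold con
  rw [← exp_add, pot_step x y]; ring_nf

theorem isCond_con (x : ℤ → ℝ) {ω : ℤ → ℝ} (hω : ∀ y, ω y = 1 / (1 + exp (x y))) :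
    IsCond ω (con x) where
  pos := con_pos x
  eq := by
    intro y
    rw [hω, con_prev]
    have := con_pos x y
    have := exp_pos (x y)
    field_simp

/-- reversible measure -/
def pim (x : ℤ → ℝ) (y : ℤ) : ℝ := con x y + con x (y - 1)

theorem pim_pos (x : ℤ → ℝ) (y : ℤ) : 0 < pim x y := add_pos (con_pos _ _) (con_pos _ _)

/-- total mass of `(-∞, y]` -/
def mass (x : ℤ → ℝ) (y : ℤ) : ℝ := ∑' k : ℕ, pim x (y - k)

theorem summable_con (x : ℤ → ℝ) (hS : Summable fun k : ℕ => con x (-(k:ℤ))) (y : ℤ) :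
    Summable fun k : ℕ => con x (y - k) := by
  have hstep : ∀ y : ℤ, (Summable fun k : ℕ => con x (y - k)) ↔
      Summable fun k : ℕ => con x (y - 1 - k) := by
    intro y
    rw [← summable_nat_add_iff (f := fun k : ℕ => con x (y - k)) 1]
    have : (fun n : ℕ => con x (y - ((n + 1 : ℕ) : ℤ))) = fun k : ℕ => con x (y - 1 - k) := by
      funext n; congr 1; push_cast; ring
    rw [this]
  induction y using Int.induction_on with
  | zero => simpa using hS
  | succ i ih =>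
    have h2 := (hstep ((i : ℤ) + 1)).2
    apply h2
    have : (i : ℤ) + 1 - 1 = i := by ring
    rw [this]; exact ih
  | pred i ih => exact (hstep _).1 ih

theorem summable_pim (x : ℤ → ℝ) (hS : Summable fun k : ℕ => con x (-(k:ℤ))) (y : ℤ) :
    Summable fun k : ℕ => pim x (y - k) := by
  unfold pim
  refine (summable_con x hS y).add ?_
  have := summable_con x hS (y - 1)
  refine this.congr fun k => ?_
  congr 1; ring

theorem mass_step (x : ℤ → ℝ) (hS : Summable fun k : ℕ => con x (-(k:ℤ))) (y : ℤ) :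
    mass x y = mass x (y - 1) + pim x y := by
  unfold mass
  rw [(summable_pim x hS y).tsum_eq_zero_add, add_comm]
  congr 1
  · refine tsum_congr fun k => ?_
    congr 1; push_cast; ring
  · simp

theorem mass_nonneg (x : ℤ → ℝ) (y : ℤ) : 0 ≤ mass x y :=
  tsum_nonneg fun _ => (pim_pos _ _).le

theorem sum_pim_le_mass (x : ℤ → ℝ) (hS : Summable fun k : ℕ => con x (-(k:ℤ))) (y : ℤ)
    (I : Finset ℤ) (hI : ∀ j ∈ I, j ≤ y) : ∑ j ∈ I, pim x j ≤ mass x y := by
  classical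
  have e : ∑ j ∈ I, pim x j = ∑ k ∈ I.image (fun j => (y - j).toNat), pim x (y - k) := by
    rw [Finset.sum_image]
    · refine Finset.sum_congr rfl fun j hj => ?_
      have := hI j hj
      congr 1
      omega
    · intro j hj j' hj' hjj
      have h1 := hI j hj
      have h2 := hI j' hj'
      simp only at hjj
      omega
  rw [e]
  exact (summable_pim x hS y).sum_le_tsum _ fun k _ => (pim_pos _ _).le

theorem mass_mono (x : ℤ → ℝ) (hS : Summable fun k : ℕ => con x (-(k:ℤ))) (y : ℤ) (n : ℕ) :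
    mass x (y + n) = mass x y + ∑ i ∈ range n, pim x (y + 1 + i) := by
  induction n with
  | zero => simp
  | succ n ih =>
    rw [Finset.sum_range_succ, ← add_assoc, ← ih, mass_step x hS (y + (n + 1 : ℕ))]
    congr 2 <;> (push_cast; ring)

theorem mass_le_mass (x : ℤ → ℝ) (hS : Summable fun k : ℕ => con x (-(k:ℤ))) {y z : ℤ}
    (h : y ≤ z) : mass x y ≤ mass x z := by
  obtain ⟨n, hn⟩ := Int.le.dest h
  rw [← hn, mass_mono x hS]
  have : 0 ≤ ∑ i ∈ range n, pim x (y + 1 + i) := Finset.sum_nonneg fun i _ => (pim_pos _ _).le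
  linarith

variable {x : ℤ → ℝ} {M₀ : ℝ}

theorem pot_abs_le (hx : ∀ i, |x i| ≤ M₀) (y : ℤ) : |pot x y| ≤ |y| * M₀ := by
  have hpos : ∀ n : ℕ, |pot x n| ≤ n * M₀ := by
    intro n
    have := pot_add x 0 n
    rw [zero_add] at this
    rw [this, pot_zero, zero_add]
    calc |∑ i ∈ range n, x (0 + 1 + i)| ≤ ∑ i ∈ range n, |x (0 + 1 + i)| :=
          Finset.abs_sum_le_sum_abs _ _
      _ ≤ ∑ i ∈ range n, M₀ := Finset.sum_le_sum fun i _ => hx _
      _ = n * M₀ := by simp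
  have hneg : ∀ n : ℕ, |pot x (-(n:ℤ))| ≤ n * M₀ := by
    intro n
    have := pot_add x (-(n:ℤ)) n
    rw [neg_add_cancel, pot_zero] at this
    have e : pot x (-(n:ℤ)) = -∑ i ∈ range n, x (-(n:ℤ) + 1 + i) := by linarith
    rw [e, abs_neg]
    calc |∑ i ∈ range n, x (-(n:ℤ) + 1 + i)| ≤ ∑ i ∈ range n, |x (-(n:ℤ) + 1 + i)| :=
          Finset.abs_sum_le_sum_abs _ _
      _ ≤ ∑ i ∈ range n, M₀ := Finset.sum_le_sum fun i _ => hx _
      _ = n * M₀ := by simp
  rcases le_total 0 y with hy | hy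
  · obtain ⟨n, rfl⟩ := Int.eq_ofNat_of_zero_le hy
    simpa using hpos n
  · obtain ⟨n, hn⟩ := Int.eq_ofNat_of_zero_le (neg_nonneg.2 hy)
    have : y = -(n:ℤ) := by omega
    subst this
    simpa using hneg n

theorem pim_le (hx : ∀ i, |x i| ≤ M₀) (y : ℤ) : pim x y ≤ (1 + exp M₀) * con x y := by
  unfold pim
  rw [con_prev]
  have h1 : exp (x y) ≤ exp M₀ := exp_le_exp.2 ((le_abs_self _).trans (hx y))
  have := con_pos x y
  nlinarith

theorem sum_pow4_le {ι : Type*} (s : Finset ι) (f : ι → ℝ) (hf : ∀ i ∈ s, 0 ≤ f i) {D : ℝ}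
    (hD : ∑ i ∈ s, f i ≤ D) : ∑ i ∈ s, f i ^ 4 ≤ D ^ 4 := by
  have hs0 : 0 ≤ ∑ i ∈ s, f i := Finset.sum_nonneg hf
  calc ∑ i ∈ s, f i ^ 4 ≤ ∑ i ∈ s, f i * (∑ j ∈ s, f j) ^ 3 := by
        refine Finset.sum_le_sum fun i hi => ?_
        have h1 : f i ≤ ∑ j ∈ s, f j := Finset.single_le_sum hf hi
        have h2 : f i ^ 3 ≤ (∑ j ∈ s, f j) ^ 3 := pow_le_pow_left₀ (hf i hi) h1 3
        calc f i ^ 4 = f i * f i ^ 3 := by ring
          _ ≤ f i * (∑ j ∈ s, f j) ^ 3 := mul_le_mul_of_nonneg_left h2 (hf i hi)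
    _ = (∑ j ∈ s, f j) ^ 4 := by rw [← Finset.sum_mul]; ring
    _ ≤ D ^ 4 := pow_le_pow_left₀ hs0 hD 4

/-- What is needed of the environment: a trap `b < c` at scale `s`. -/
structure Trap (x : ℤ → ℝ) (A : ℝ) (x₀ : ℕ) (b c : ℤ) (s : ℕ) : Prop where
  spos : 0 < s
  hb : (x₀ : ℤ) ≤ b
  hbs : b + x₀ ≤ s
  hbc : b < c
  hit : ∑ y ∈ Finset.Ico (-(x₀:ℤ)) b, mass x y / con x y ≤ (s:ℝ) ^ 2 / 2
  mass : ∀ I : Finset ℤ, (∀ y ∈ I, y < c) → ∑ y ∈ I, pim x y ≤ A * pim x b
  depth : 290 * (s:ℝ) ^ 2 * con x (c - 1) ≤ con x b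

/-- a trap gives a collision probability bounded below -/
theorem nc_of_trap {d : ℕ} (hS : Summable fun k : ℕ => con x (-(k:ℤ)))
    {ω : ℤ → ℝ} (hω : ∀ y, ω y = 1 / (1 + exp (x y))) {A : ℝ} (hA : 0 < A) (S : St d)
    (hpar : par S) {x₀ : ℕ} (h1 : ∀ j, |S.1 j| ≤ x₀) (h2 : |S.2| ≤ x₀) {b c : ℤ} {s : ℕ}
    (ht : Trap x A x₀ b c s) :
    nc ω (145 * s ^ 2) S ≤ 1 - (1 / (8 * A)) ^ d / 3 := by
  have hc := isCond_con x hω
  have h0' := hc.nonneg
  have h1' := hc.le_one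
  have hs : (0:ℝ) < s := by exact_mod_cast ht.spos
  set η : ℝ := 1 / (290 * (s:ℝ) ^ 2) with hη
  have hη0 : 0 < η := by positivity
  have hdepth : con x (c - 1) ≤ η * con x b := by
    have := ht.depth
    rw [hη, div_mul_eq_mul_div, one_mul, le_div_iff₀ (by positivity)]
    linarith
  have hret : ∀ k : ℕ, 2 * k ≤ 145 * s ^ 2 → 1 / (4 * A) ≤ q ω (2 * k) b b := by
    intro k hk
    have h3 := hc.exit_upper b c ht.hbc η hdepth k
    have h4 := hc.return_lower k b c A hA ht.mass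
    have h5 : (k:ℝ) * η ≤ 1 / 2 := by
      have : (2 * k : ℝ) ≤ 145 * s ^ 2 := by exact_mod_cast hk
      rw [hη, mul_one_div, div_le_div_iff₀ (by positivity) (by norm_num)]
      nlinarith
    refine le_trans ?_ h4
    have h6 : 1 / 2 ≤ 1 - (K ω)^[k] (fun x => if c ≤ x then (1:ℝ) else 0) b := by linarith
    have h7 : (1 / 2 : ℝ) ^ 2 ≤ (1 - (K ω)^[k] (fun x => if c ≤ x then (1:ℝ) else 0) b) ^ 2 :=
      pow_le_pow_left₀ (by norm_num) h6 2
    calc 1 / (4 * A) = (1/2 : ℝ) ^ 2 / A := by field_simp; norm_num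
      _ ≤ _ := div_le_div_of_nonneg_right h7 hA.le
  refine nc_le h0' h1' b s ht.spos (1 / (8 * A)) (by positivity) S ?_ hpar ?_
  · rw [abs_le] at h2 ⊢
    have := ht.hb; have := ht.hbs
    constructor <;> omega
  · intro j n hn1 hn2 hev
    have hj := abs_le.1 (h1 j)
    have hq := q_lower_of_hit h0' h1' b (1 / (4 * A)) (145 * s ^ 2) hret (s ^ 2) n (S.1 j)
      hn1 hn2 hev
    refine le_trans ?_ hq
    have hh := hc.hit_lower (mass x) (fun y => mass_step x hS y) b (mass_nonneg x) (S.1 j)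
      (by have := ht.hb; omega) (s ^ 2)
    have hsum : ∑ y ∈ Finset.Ico (S.1 j) b, mass x y / con x y ≤ (s:ℝ) ^ 2 / 2 := by
      refine le_trans ?_ ht.hit
      refine Finset.sum_le_sum_of_subset_of_nonneg (Finset.Ico_subset_Ico_left hj.1)
        fun y _ _ => div_nonneg (mass_nonneg x y) (con_pos x y).le
    have hge : 1 / 2 ≤ hit ω b (s ^ 2) (S.1 j) := by
      refine le_trans ?_ hh
      have : (∑ y ∈ Finset.Ico (S.1 j) b, mass x y / con x y) / (((s ^ 2 : ℕ) : ℝ) + 1) ≤ 1 / 2 := by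
        rw [div_le_iff₀ (by positivity)]
        push_cast
        linarith
      linarith
    calc 1 / (8 * A) = 1 / (4 * A) * (1 / 2) := by field_simp; norm_num
      _ ≤ _ := mul_le_mul_of_nonneg_left hge (by positivity)

end

end Pool.Agent.helper97.Coll
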