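import Pool.Agent.helper97.Coll.Det

namespace Pool.Agent.helper97.Coll

open Finset Real

set_option linter.unusedSectionVars false

noncomputable section

variable {x : ℤ → ℝ} {M₀ r : ℝ}

theorem sum_Ioc_int (f : ℤ → ℝ) (a : ℤ) (n : ℕ) :
    ∑ y ∈ Finset.Ioc a (a + n), f y = ∑ i ∈ range n, f (a + 1 + i) := by
  induction n with
  | zero => simp
  | succ n ih =>
    rw [Finset.sum_range_succ, ← ih]
    have e : Finset.Ioc a (a + (n + 1 : ℕ)) = insert (a + 1 + n) (Finset.Ioc a (a + n)) := by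
      ext i; simp only [Finset.mem_Ioc, Finset.mem_insert]; omega
    rw [e, Finset.sum_insert (by simp), add_comm]

theorem inv_con (x : ℤ → ℝ) (y : ℤ) : (con x y)⁻¹ = exp (pot x y) := by
  unfold con; rw [← exp_neg, neg_neg]

theorem right_bound (hr0 : 0 < r) {c₁ : ℝ}
    (hright : ∀ k : ℕ, exp (pot x k / 4) ≤ c₁ * (√r) ^ k) (k : ℕ) :
    exp (pot x k) ≤ c₁ ^ 4 * r ^ (2 * k) := by
  have e1 : exp (pot x k) = exp (pot x k / 4) ^ 4 := by
    rw [← exp_nat_mul]; congr 1; push_cast; ring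
  have e2 : c₁ ^ 4 * r ^ (2 * k) = (c₁ * (√r) ^ k) ^ 4 := by
    have : r = (√r) ^ 2 := (Real.sq_sqrt hr0.le).symm
    conv_lhs => rw [this]
    ring
  rw [e1, e2]
  exact pow_le_pow_left₀ (exp_pos _).le (hright k) 4

theorem geom_le (hr0 : 0 < r) (hr1 : r < 1) (n : ℕ) : ∑ i ∈ range n, r ^ i ≤ (1 - r)⁻¹ := by
  have : Summable fun i : ℕ => r ^ i := summable_geometric_of_lt_one hr0.le hr1
  rw [← tsum_geometric_of_lt_one hr0.le hr1]
  exact this.sum_le_tsum _ (fun i _ => by positivity)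

/-- The scale conditions give a trap. -/
theorem trap_of_scale (hx : ∀ i, |x i| ≤ M₀) (hM₀ : 0 ≤ M₀) (hr0 : 0 < r) (hr1 : r < 1)
    (hS : Summable fun k : ℕ => con x (-(k:ℤ))) {c₁ : ℝ} (hc₁ : 0 < c₁)
    (hright : ∀ k : ℕ, exp (pot x k / 4) ≤ c₁ * (√r) ^ k)
    (m L n κ x₀ B : ℕ) (D : ℝ) (hL : 1 ≤ L) (hLn : L < n) (hn : n ≤ 2 * L)
    (hB4 : 4 ≤ B) (hB : 2 * (1 + 384 * (1 + exp M₀) / (1 - r)) ≤ (B:ℝ) ^ 2)
    (hκ : 2 * Real.log ((18 * B) * L) ≤ pot x ((m:ℤ) + n + κ) - pot x ((m:ℤ) + n))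
    (hF : ∑ i ∈ range (κ + 1), exp (-(pot x ((m:ℤ) + n + i) - pot x ((m:ℤ) + n)) / 4) ≤ D)
    (hG1 : ∑ i ∈ range n, exp ((pot x ((m:ℤ) + n) - pot x ((m:ℤ) + 1 + i)) / 4) ≤ D)
    (hG2 : ∑ i ∈ range n, ∑ k ∈ range (n - i),
      exp (pot x ((m:ℤ) + 1 + i + k) - pot x ((m:ℤ) + 1 + i)) ≤ 384 * (L:ℝ) ^ 2 / (1 - r))
    (hmx : m + x₀ ≤ L)
    (hR1 : ((m + x₀ + 1) * exp ((m + x₀) * M₀) + c₁ ^ 4 * (1 - r)⁻¹) * mass x m ≤ (L:ℝ) ^ 2)
    (hR2 : mass x m * (c₁ ^ 4 * r ^ (2 * L)) ≤ 1) :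
    Trap x (1 + 2 * ((1 + exp M₀) * D ^ 4)) x₀ ((m:ℤ) + n) ((m:ℤ) + n + κ + 1) (B * L) := by
  classical
  have hr : 0 < 1 - r := by linarith
  have hL' : (1:ℝ) ≤ L := by exact_mod_cast hL
  have hB' : (4:ℝ) ≤ B := by exact_mod_cast hB4
  have hmn : ((m:ℤ) + n) = ((m + n : ℕ) : ℤ) := by push_cast; ring
  -- mass at m is at most con at b
  have hmass_b : mass x m ≤ con x ((m:ℤ) + n) := by
    have h1 := right_bound hr0 hright (m + n)
    have h2 : r ^ (2 * (m + n)) ≤ r ^ (2 * L) :=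
      pow_le_pow_of_le_one hr0.le hr1.le (by omega)
    have h3 : exp (pot x ((m + n : ℕ) : ℤ)) ≤ c₁ ^ 4 * r ^ (2 * L) :=
      h1.trans (mul_le_mul_of_nonneg_left h2 (by positivity))
    rw [← hmn, ← inv_con] at h3
    have h4 := (mul_le_mul_of_nonneg_left h3 (mass_nonneg x m)).trans hR2
    have hc := con_pos x ((m:ℤ) + n)
    rw [← div_eq_mul_inv, div_le_one hc] at h4
    exact h4
  -- partial sums around b
  have hG1' : ∑ i ∈ range n, con x ((m:ℤ) + 1 + i) ≤ D ^ 4 * con x ((m:ℤ) + n) := by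
    have h1 := sum_pow4_le (range n) (fun i : ℕ => exp ((pot x ((m:ℤ) + n) - pot x ((m:ℤ) + 1 + i)) / 4))
      (fun i _ => (exp_pos _).le) hG1
    have h2 : ∑ i ∈ range n, con x ((m:ℤ) + 1 + i) = (∑ i ∈ range n,
        exp ((pot x ((m:ℤ) + n) - pot x ((m:ℤ) + 1 + i)) / 4) ^ 4) * con x ((m:ℤ) + n) := by
      rw [Finset.sum_mul]
      refine Finset.sum_congr rfl fun i _ => ?_
      unfold con
      rw [← exp_nat_mul, ← exp_add]
      congr 1; push_cast; ring
    rw [h2]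
    exact mul_le_mul_of_nonneg_right h1 (con_pos _ _).le
  have hF' : ∑ i ∈ range (κ + 1), con x ((m:ℤ) + n + i) ≤ D ^ 4 * con x ((m:ℤ) + n) := by
    have h1 := sum_pow4_le (range (κ + 1))
      (fun i : ℕ => exp (-(pot x ((m:ℤ) + n + i) - pot x ((m:ℤ) + n)) / 4))
      (fun i _ => (exp_pos _).le) hF
    have h2 : ∑ i ∈ range (κ + 1), con x ((m:ℤ) + n + i) = (∑ i ∈ range (κ + 1),
        exp (-(pot x ((m:ℤ) + n + i) - pot x ((m:ℤ) + n)) / 4) ^ 4) * con x ((m:ℤ) + n) := by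
      rw [Finset.sum_mul]
      refine Finset.sum_congr rfl fun i _ => ?_
      unfold con
      rw [← exp_nat_mul, ← exp_add]
      congr 1; push_cast; ring
    rw [h2]
    exact mul_le_mul_of_nonneg_right h1 (con_pos _ _).le
  have hFs : ∑ i ∈ range κ, con x ((m:ℤ) + n + 1 + i) ≤ D ^ 4 * con x ((m:ℤ) + n) := by
    refine le_trans ?_ hF'
    rw [Finset.sum_range_succ']
    have h0 := con_pos x ((m:ℤ) + n + (0:ℕ))
    have h1 : ∑ i ∈ range κ, con x ((m:ℤ) + n + 1 + i) =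
        ∑ i ∈ range κ, con x ((m:ℤ) + n + ((i + 1 : ℕ) : ℤ)) := by
      refine Finset.sum_congr rfl fun i _ => ?_
      congr 1; push_cast; ring
    rw [h1]
    linarith
  refine ⟨by positivity, by omega, ?_, by omega, ?_, ?_, ?_⟩
  · -- b + x₀ ≤ B L
    have : m + n + x₀ ≤ 4 * L := by omega
    have h2 : 4 * L ≤ B * L := Nat.mul_le_mul_right L hB4
    have h3 : m + n + x₀ ≤ B * L := this.trans h2
    exact_mod_cast h3
  · -- hitting
    have hsub : Finset.Ico (-(x₀:ℤ)) ((m:ℤ) + n) ⊆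
        Finset.Ico (-(x₀:ℤ)) ((m:ℤ) + 1) ∪ Finset.Ioc (m:ℤ) ((m:ℤ) + n) := by
      intro y hy
      simp only [Finset.mem_union, Finset.mem_Ico, Finset.mem_Ioc] at *
      omega
    have hnn : ∀ y, 0 ≤ mass x y / con x y := fun y => div_nonneg (mass_nonneg x y) (con_pos x y).le
    have hA1 : ∑ y ∈ Finset.Ico (-(x₀:ℤ)) ((m:ℤ) + 1), mass x y / con x y ≤
        (m + x₀ + 1) * exp ((m + x₀) * M₀) * mass x m := by
      calc ∑ y ∈ Finset.Ico (-(x₀:ℤ)) ((m:ℤ) + 1), mass x y / con x y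
          ≤ ∑ y ∈ Finset.Ico (-(x₀:ℤ)) ((m:ℤ) + 1), mass x m * exp ((m + x₀) * M₀) := by
            refine Finset.sum_le_sum fun y hy => ?_
            rw [Finset.mem_Ico] at hy
            rw [div_eq_mul_inv, inv_con]
            refine mul_le_mul (mass_le_mass x hS (by omega)) (exp_le_exp.2 ?_) (exp_pos _).le
              (mass_nonneg x _)
            refine ((le_abs_self _).trans (pot_abs_le hx y)).trans ?_
            apply mul_le_mul_of_nonneg_right _ hM₀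
            have : |y| ≤ (m:ℤ) + x₀ := by rw [abs_le]; omega
            exact_mod_cast this
        _ = _ := by
            rw [Finset.sum_const, Int.card_Ico, nsmul_eq_mul]
            have : (((m:ℤ) + 1 - -(x₀:ℤ)).toNat : ℝ) = m + x₀ + 1 := by
              have : ((m:ℤ) + 1 - -(x₀:ℤ)).toNat = m + x₀ + 1 := by omega
              rw [this]; push_cast; ring
            rw [this]; ring
    have hA2 : ∑ y ∈ Finset.Ioc (m:ℤ) ((m:ℤ) + n), mass x y / con x y ≤
        c₁ ^ 4 * (1 - r)⁻¹ * mass x m + (1 + exp M₀) * (384 * (L:ℝ) ^ 2 / (1 - r)) := by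
      rw [sum_Ioc_int]
      have hterm : ∀ i ∈ range n, mass x ((m:ℤ) + 1 + i) / con x ((m:ℤ) + 1 + i) ≤
          mass x m * (c₁ ^ 4 * r ^ i) + (1 + exp M₀) * ∑ i' ∈ range (i + 1),
            exp (pot x ((m:ℤ) + 1 + i) - pot x ((m:ℤ) + 1 + i')) := by
        intro i _
        have e1 : (m:ℤ) + 1 + i = (m:ℤ) + ((i + 1 : ℕ) : ℤ) := by push_cast; ring
        have e2 : mass x ((m:ℤ) + 1 + i) = mass x m + ∑ i' ∈ range (i + 1), pim x ((m:ℤ) + 1 + i') := by
          rw [e1, mass_mono x hS]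
        rw [e2, div_eq_mul_inv, inv_con, add_mul, Finset.sum_mul, Finset.mul_sum]
        refine add_le_add ?_ (Finset.sum_le_sum fun i' _ => ?_)
        · apply mul_le_mul_of_nonneg_left _ (mass_nonneg x m)
          have h1 := right_bound hr0 hright (m + 1 + i)
          have h2 : (((m + 1 + i : ℕ)) : ℤ) = (m:ℤ) + 1 + i := by push_cast; ring
          rw [h2] at h1
          refine h1.trans (mul_le_mul_of_nonneg_left ?_ (by positivity))
          exact pow_le_pow_of_le_one hr0.le hr1.le (by omega)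
        · have h1 := pim_le hx ((m:ℤ) + 1 + i')
          calc pim x ((m:ℤ) + 1 + i') * exp (pot x ((m:ℤ) + 1 + i))
              ≤ (1 + exp M₀) * con x ((m:ℤ) + 1 + i') * exp (pot x ((m:ℤ) + 1 + i)) :=
                mul_le_mul_of_nonneg_right h1 (exp_pos _).le
            _ = _ := by
                rw [mul_assoc]
                congr 1
                unfold con
                rw [← exp_add]; ring_nf
      refine (Finset.sum_le_sum hterm).trans ?_
      rw [Finset.sum_add_distrib, ← Finset.mul_sum, ← Finset.mul_sum, ← Finset.mul_sum]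
      have hswap : ∑ i ∈ range n, ∑ i' ∈ range (i + 1),
          exp (pot x ((m:ℤ) + 1 + i) - pot x ((m:ℤ) + 1 + i')) =
          ∑ i ∈ range n, ∑ k ∈ range (n - i),
            exp (pot x ((m:ℤ) + 1 + i + k) - pot x ((m:ℤ) + 1 + i)) := by
        have := Finset.sum_Ico_Ico_comm 0 n (fun i' i : ℕ =>
          exp (pot x ((m:ℤ) + 1 + i) - pot x ((m:ℤ) + 1 + i')))
        simp only [← Finset.range_eq_Ico] at this
        rw [← this]
        refine Finset.sum_congr rfl fun i _ => ?_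
        rw [Finset.sum_Ico_eq_sum_range]
        refine Finset.sum_congr rfl fun k _ => ?_
        congr 2
        congr 1
        push_cast; ring
      rw [hswap]
      have g1 := geom_le hr0 hr1 n
      have g2 : mass x m * (c₁ ^ 4 * ∑ i ∈ range n, r ^ i) ≤ c₁ ^ 4 * (1 - r)⁻¹ * mass x m := by
        have := mul_le_mul_of_nonneg_left g1 (show 0 ≤ c₁ ^ 4 by positivity)
        have := mul_le_mul_of_nonneg_left this (mass_nonneg x m)
        linarith
      have g3 := mul_le_mul_of_nonneg_left hG2 (show 0 ≤ 1 + exp M₀ by positivity)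
      linarith
    calc ∑ y ∈ Finset.Ico (-(x₀:ℤ)) ((m:ℤ) + n), mass x y / con x y
        ≤ ∑ y ∈ Finset.Ico (-(x₀:ℤ)) ((m:ℤ) + 1) ∪ Finset.Ioc (m:ℤ) ((m:ℤ) + n),
            mass x y / con x y :=
          Finset.sum_le_sum_of_subset_of_nonneg hsub fun y _ _ => hnn y
      _ ≤ ∑ y ∈ Finset.Ico (-(x₀:ℤ)) ((m:ℤ) + 1), mass x y / con x y +
            ∑ y ∈ Finset.Ioc (m:ℤ) ((m:ℤ) + n), mass x y / con x y := by
          rw [← Finset.sum_union_inter]
          have := Finset.sum_nonneg (s := Finset.Ico (-(x₀:ℤ)) ((m:ℤ) + 1) ∩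
            Finset.Ioc (m:ℤ) ((m:ℤ) + n)) fun y _ => hnn y
          linarith
      _ ≤ (L:ℝ) ^ 2 + (1 + exp M₀) * (384 * (L:ℝ) ^ 2 / (1 - r)) := by
          have : ((m + x₀ + 1) * exp ((m + x₀) * M₀) + c₁ ^ 4 * (1 - r)⁻¹) * mass x m =
              (m + x₀ + 1) * exp ((m + x₀) * M₀) * mass x m + c₁ ^ 4 * (1 - r)⁻¹ * mass x m := by
            ring
          linarith
      _ = (1 + 384 * (1 + exp M₀) / (1 - r)) * (L:ℝ) ^ 2 := by
          field_simp
          try ring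
      _ ≤ ((B:ℝ) ^ 2 / 2) * (L:ℝ) ^ 2 := mul_le_mul_of_nonneg_right (by linarith) (by positivity)
      _ = _ := by push_cast; ring
  · -- mass
    intro I hI
    have hsplit : I ⊆ I.filter (fun y : ℤ => y ≤ (m:ℤ)) ∪ (Finset.Ioc (m:ℤ) ((m:ℤ) + n) ∪
        Finset.Ioc ((m:ℤ) + n) ((m:ℤ) + n + κ)) := by
      intro y hy
      have := hI y hy
      simp only [Finset.mem_union, Finset.mem_filter, Finset.mem_Ioc]
      by_cases h1 : y ≤ m
      · left; exact ⟨hy, h1⟩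
      · right; omega
    have hpn : ∀ y, 0 ≤ pim x y := fun y => (pim_pos x y).le
    have hun : ∀ s t : Finset ℤ, ∑ y ∈ s ∪ t, pim x y ≤ ∑ y ∈ s, pim x y + ∑ y ∈ t, pim x y := by
      intro s t
      rw [← Finset.sum_union_inter]
      have := Finset.sum_nonneg (s := s ∩ t) fun y _ => hpn y
      linarith
    have b1 : ∑ y ∈ I.filter (fun y : ℤ => y ≤ (m:ℤ)), pim x y ≤ con x ((m:ℤ) + n) :=
      (sum_pim_le_mass x hS m _ fun j hj => (Finset.mem_filter.1 hj).2).trans hmass_b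
    have b2 : ∑ y ∈ Finset.Ioc (m:ℤ) ((m:ℤ) + n), pim x y ≤
        (1 + exp M₀) * (D ^ 4 * con x ((m:ℤ) + n)) := by
      rw [sum_Ioc_int]
      calc ∑ i ∈ range n, pim x ((m:ℤ) + 1 + i) ≤ ∑ i ∈ range n, (1 + exp M₀) * con x ((m:ℤ) + 1 + i) :=
            Finset.sum_le_sum fun i _ => pim_le hx _
        _ = (1 + exp M₀) * ∑ i ∈ range n, con x ((m:ℤ) + 1 + i) := by rw [Finset.mul_sum]
        _ ≤ _ := mul_le_mul_of_nonneg_left hG1' (by positivity)
    have b3 : ∑ y ∈ Finset.Ioc ((m:ℤ) + n) ((m:ℤ) + n + κ), pim x y ≤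
        (1 + exp M₀) * (D ^ 4 * con x ((m:ℤ) + n)) := by
      rw [sum_Ioc_int]
      calc ∑ i ∈ range κ, pim x ((m:ℤ) + n + 1 + i)
            ≤ ∑ i ∈ range κ, (1 + exp M₀) * con x ((m:ℤ) + n + 1 + i) :=
            Finset.sum_le_sum fun i _ => pim_le hx _
        _ = (1 + exp M₀) * ∑ i ∈ range κ, con x ((m:ℤ) + n + 1 + i) := by rw [Finset.mul_sum]
        _ ≤ _ := mul_le_mul_of_nonneg_left hFs (by positivity)
    have h1 := Finset.sum_le_sum_of_subset_of_nonneg hsplit (fun y _ _ => hpn y)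
    have h2 := hun (I.filter (fun y : ℤ => y ≤ (m:ℤ))) (Finset.Ioc (m:ℤ) ((m:ℤ) + n) ∪
        Finset.Ioc ((m:ℤ) + n) ((m:ℤ) + n + κ))
    have h3 := hun (Finset.Ioc (m:ℤ) ((m:ℤ) + n)) (Finset.Ioc ((m:ℤ) + n) ((m:ℤ) + n + κ))
    have h4 : ∑ y ∈ I, pim x y ≤ (1 + 2 * ((1 + exp M₀) * D ^ 4)) * con x ((m:ℤ) + n) := by
      linarith
    refine h4.trans ?_
    apply mul_le_mul_of_nonneg_left _ (by positivity)
    unfold pim
    have := con_pos x ((m:ℤ) + n - 1)
    linarith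
  · -- depth
    have e0 : (m:ℤ) + n + κ + 1 - 1 = (m:ℤ) + n + κ := by ring
    rw [e0]
    have h1 : con x ((m:ℤ) + n + κ) ≤ con x ((m:ℤ) + n) * (1 / ((18 * B) * L) ^ 2) := by
      have hpos : 0 < (18 * (B:ℝ)) * L := by positivity
      have e1 : (1 / ((18 * (B:ℝ)) * L) ^ 2) = exp (-(2 * Real.log ((18 * B) * L))) := by
        rw [exp_neg, mul_comm 2, exp_mul, Real.exp_log hpos, one_div]
        norm_num
      rw [e1]
      unfold con
      rw [← exp_add]
      apply exp_le_exp.2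
      linarith
    have hc := con_pos x ((m:ℤ) + n)
    calc 290 * (((B * L : ℕ)) : ℝ) ^ 2 * con x ((m:ℤ) + n + κ)
        ≤ 290 * (((B * L : ℕ)) : ℝ) ^ 2 * (con x ((m:ℤ) + n) * (1 / ((18 * B) * L) ^ 2)) :=
          mul_le_mul_of_nonneg_left h1 (by positivity)
      _ = 290 / 324 * con x ((m:ℤ) + n) := by
          push_cast
          field_simp
          norm_num
      _ ≤ con x ((m:ℤ) + n) := by nlinarith

end

end Pool.Agent.helper97.Coll
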