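import Mathlib

namespace Pool.Agent.helper97.Coll

open Finset MeasureTheory ProbabilityTheory Real

set_option linter.unusedSectionVars false

noncomputable section

variable {Ω : Type*} [mΩ : MeasurableSpace Ω]

/-- independent bounded increments of the potential with `E e^{X/2} = 1`, `E e^{X/4} ≤ r < 1` -/
structure Inc (P : Measure Ω) (X : ℤ → Ω → ℝ) (M₀ r : ℝ) : Prop where
  meas : ∀ i, Measurable (X i)
  indep : iIndepFun X P
  bdd : ∀ i a, |X i a| ≤ M₀
  M0 : 0 ≤ M₀
  h2 : ∀ i, ∫ a, exp (X i a / 2) ∂P = 1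
  h4 : ∀ i, ∫ a, exp (X i a / 4) ∂P ≤ r
  r0 : 0 < r
  r1 : r < 1

/-- the σ-algebra generated by the increments in `T` -/
@[reducible] def Fil (X : ℤ → Ω → ℝ) (T : Set ℤ) : MeasurableSpace Ω :=
  ⨆ i ∈ T, MeasurableSpace.comap (X i) inferInstance

variable {P : Measure Ω} [IsProbabilityMeasure P] {X : ℤ → Ω → ℝ} {M₀ r : ℝ}

theorem Fil_mono {S T : Set ℤ} (h : S ⊆ T) : Fil X S ≤ Fil X T :=
  iSup₂_le fun i hi => le_iSup₂_of_le i (h hi) le_rfl

theorem meas_X_Fil {T : Set ℤ} {i : ℤ} (hi : i ∈ T) : Measurable[Fil X T] (X i) :=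
  (comap_measurable (X i)).mono (le_iSup₂_of_le i hi le_rfl) le_rfl

theorem Inc.Fil_le (h : Inc P X M₀ r) (T : Set ℤ) : Fil X T ≤ mΩ :=
  iSup₂_le fun i _ => (h.meas i).comap_le

theorem Inc.indep_Fil (h : Inc P X M₀ r) {S T : Set ℤ} (hST : Disjoint S T) :
    Indep (Fil X S) (Fil X T) P :=
  indep_iSup_of_disjoint (fun i => (h.meas i).comap_le)
    ((iIndepFun_iff_iIndep _ _ _).1 h.indep) hST

omit [IsProbabilityMeasure P] in
theorem integrable_of_bdd' {f : Ω → ℝ} [IsFiniteMeasure P] (hf : Measurable f) (C : ℝ)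
    (hC : ∀ a, |f a| ≤ C) : Integrable f P :=
  Integrable.of_bound hf.aestronglyMeasurable C (Filter.Eventually.of_forall fun a => by
    simpa [Real.norm_eq_abs] using hC a)

theorem Inc.integral_mul (h : Inc P X M₀ r) {S T : Set ℤ} (hST : Disjoint S T) {f g : Ω → ℝ}
    (hf : Measurable[Fil X S] f) (hg : Measurable[Fil X T] g) :
    ∫ a, f a * g a ∂P = (∫ a, f a ∂P) * ∫ a, g a ∂P := by
  have hi : IndepFun f g P := by
    rw [IndepFun_iff_Indep]
    exact indep_of_indep_of_le_right (indep_of_indep_of_le_left (h.indep_Fil hST)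
      hf.comap_le) hg.comap_le
  have hf' : Measurable f := hf.mono (h.Fil_le S) le_rfl
  have hg' : Measurable g := hg.mono (h.Fil_le T) le_rfl
  exact hi.integral_fun_mul_eq_mul_integral hf'.aestronglyMeasurable hg'.aestronglyMeasurable

theorem Inc.integral_mul_exp2 (h : Inc P X M₀ r) {S : Set ℤ} {i : ℤ} (hi : i ∉ S) {W : Ω → ℝ}
    (hW : Measurable[Fil X S] W) :
    ∫ a, W a * exp (X i a / 2) ∂P = ∫ a, W a ∂P := by
  have hg : Measurable[Fil X {i}] (fun a => exp (X i a / 2)) := by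
    have := meas_X_Fil (X := X) (T := {i}) (i := i) rfl
    exact (measurable_exp.comp (this.div_const 2))
  rw [h.integral_mul (Set.disjoint_singleton_right.2 hi) hW hg, h.h2, mul_one]

theorem Inc.integral_mul_exp4 (h : Inc P X M₀ r) {S : Set ℤ} {i : ℤ} (hi : i ∉ S) {W : Ω → ℝ}
    (hW : Measurable[Fil X S] W) (hW0 : ∀ a, 0 ≤ W a) :
    ∫ a, W a * exp (X i a / 4) ∂P ≤ r * ∫ a, W a ∂P := by
  have hg : Measurable[Fil X {i}] (fun a => exp (X i a / 4)) := by
    have := meas_X_Fil (X := X) (T := {i}) (i := i) rfl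
    exact (measurable_exp.comp (this.div_const 4))
  rw [h.integral_mul (Set.disjoint_singleton_right.2 hi) hW hg, mul_comm]
  exact mul_le_mul_of_nonneg_right (h.h4 i) (integral_nonneg hW0)

/-- forward sums: `V(b+k) - V(b)` -/
def V (X : ℤ → Ω → ℝ) (b : ℤ) (k : ℕ) (a : Ω) : ℝ := ∑ i ∈ range k, X (b + 1 + i) a

theorem V_zero (b : ℤ) (a : Ω) : V X b 0 a = 0 := by simp [V]

theorem V_succ (b : ℤ) (k : ℕ) (a : Ω) : V X b (k + 1) a = V X b k a + X (b + 1 + k) a := by
  simp [V, Finset.sum_range_succ]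

theorem V_meas {T : Set ℤ} {b : ℤ} {k : ℕ} (hT : Set.Ioc b (b + k) ⊆ T) :
    Measurable[Fil X T] (V X b k) := by
  have : V X b k = fun a => ∑ i ∈ range k, X (b + 1 + i) a := rfl
  rw [this]
  refine @Finset.measurable_fun_sum _ _ _ _ _ _ (Fil X T) _ _ fun i hi => meas_X_Fil (hT ?_)
  have := Finset.mem_range.1 hi
  constructor <;> omega

theorem Inc.V_bdd (h : Inc P X M₀ r) (b : ℤ) (k : ℕ) (a : Ω) : |V X b k a| ≤ k * M₀ := by
  unfold V
  calc |∑ i ∈ range k, X (b + 1 + i) a| ≤ ∑ i ∈ range k, |X (b + 1 + i) a| :=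
        Finset.abs_sum_le_sum_abs _ _
    _ ≤ ∑ i ∈ range k, M₀ := Finset.sum_le_sum fun i _ => h.bdd _ a
    _ = k * M₀ := by simp

theorem Inc.expV4 (h : Inc P X M₀ r) (b : ℤ) (k : ℕ) :
    ∫ a, exp (V X b k a / 4) ∂P ≤ r ^ k := by
  induction k with
  | zero => simp [V_zero]
  | succ k ih =>
    have hm : Measurable[Fil X (Set.Ioc b (b+k))] (fun a => exp (V X b k a / 4)) :=
      measurable_exp.comp ((V_meas (X := X) subset_rfl).div_const 4)
    have h1 := h.integral_mul_exp4 (i := b + 1 + k) (S := Set.Ioc b (b+k))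
      (by rw [Set.mem_Ioc]; omega) hm (fun a => (exp_pos _).le)
    have h2 : (fun a => exp (V X b (k+1) a / 4)) =
        fun a => exp (V X b k a / 4) * exp (X (b + 1 + k) a / 4) := by
      funext a; rw [← exp_add, V_succ]; ring_nf
    rw [h2, pow_succ']
    exact h1.trans (mul_le_mul_of_nonneg_left ih h.r0.le)

/-! ### The renewal bound -/

/-- the superharmonic function -/
def Phi (t v : ℝ) : ℝ :=
  if v ≤ t then 2 * exp ((v + t) / 2) - 2 / 3 * exp v else 4 / 3 * exp (v / 4 + 3 * t / 4)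

theorem Phi_nonneg (t v : ℝ) : 0 ≤ Phi t v := by
  unfold Phi
  split_ifs with h
  · have : exp v ≤ exp ((v + t) / 2) := exp_le_exp.2 (by linarith)
    have := exp_pos ((v + t)/2)
    linarith
  · positivity

theorem Phi_le_low (t v x : ℝ) (hv : v ≤ t) :
    Phi t (v + x) ≤ 4 / 3 * exp v * exp (x / 4) +
      2 * (exp ((v + t) / 2) - exp v) * exp (x / 2) := by
  have hB := exp_pos (v / 4)
  have hA := exp_pos (t / 4)
  have hy := exp_pos ((v + x) / 4)
  set B := exp (v / 4) with hBdef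
  set A := exp (t / 4) with hAdef
  set y := exp ((v + x) / 4) with hydef
  have hBA : B ≤ A := exp_le_exp.2 (by linarith)
  have e1 : exp v = B ^ 4 := by rw [hBdef, ← exp_nat_mul]; congr 1; push_cast; ring
  have e2 : exp ((v + t) / 2) = B ^ 2 * A ^ 2 := by
    rw [hBdef, hAdef, ← exp_nat_mul, ← exp_nat_mul, ← exp_add]; congr 1; push_cast; ring
  have e3 : exp (x / 4) = y / B := by
    rw [hBdef, hydef, ← exp_sub]; congr 1; ring
  have e4 : exp (x / 2) = (y / B) ^ 2 := by
    rw [← e3, ← exp_nat_mul]; congr 1; push_cast; ring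
  rw [e1, e2, e3, e4]
  unfold Phi
  split_ifs with h
  · have hyA : y ≤ A := exp_le_exp.2 (by linarith)
    have e5 : exp ((v + x + t) / 2) = y ^ 2 * A ^ 2 := by
      rw [hydef, hAdef, ← exp_nat_mul, ← exp_nat_mul, ← exp_add]; congr 1; push_cast; ring
    have e6 : exp (v + x) = y ^ 4 := by
      rw [hydef, ← exp_nat_mul]; congr 1; push_cast; ring
    rw [e5, e6]
    have : 4 / 3 * B ^ 4 * (y / B) + 2 * (B ^ 2 * A ^ 2 - B ^ 4) * (y / B) ^ 2 =
        4 / 3 * B ^ 3 * y + 2 * (A ^ 2 - B ^ 2) * y ^ 2 := by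
      field_simp
    rw [this]
    have key : 0 ≤ 2 / 3 * y * ((y - B) ^ 2 * (y + 2 * B)) := by positivity
    nlinarith [key]
  · push Not at h
    have hyA : A ≤ y := exp_le_exp.2 (by linarith)
    have e5 : exp ((v + x) / 4 + 3 * t / 4) = y * A ^ 3 := by
      rw [hydef, hAdef, ← exp_nat_mul, ← exp_add]; congr 1; push_cast; ring
    rw [e5]
    have : 4 / 3 * B ^ 4 * (y / B) + 2 * (B ^ 2 * A ^ 2 - B ^ 4) * (y / B) ^ 2 =
        4 / 3 * B ^ 3 * y + 2 * (A ^ 2 - B ^ 2) * y ^ 2 := by
      field_simp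
    rw [this]
    have k1 : 0 ≤ 2 / 3 * y * ((A - B) ^ 2 * (A + 2 * B)) := by positivity
    have k2 : 0 ≤ 2 * y * ((A ^ 2 - B ^ 2) * (y - A)) := by
      have : 0 ≤ A ^ 2 - B ^ 2 := by nlinarith
      have h3 : 0 ≤ y - A := by linarith
      positivity
    nlinarith [k1, k2]

theorem Phi_le_high (t v x : ℝ) :
    Phi t (v + x) ≤ 4 / 3 * exp (v / 4 + 3 * t / 4) * exp (x / 4) := by
  have e0 : 4 / 3 * exp (v / 4 + 3 * t / 4) * exp (x / 4) =
      4 / 3 * exp ((v + x) / 4 + 3 * t / 4) := by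
    rw [mul_assoc, ← exp_add]; congr 2; ring
  rw [e0]
  unfold Phi
  split_ifs with h
  · set A := exp (t / 4) with hAdef
    set y := exp ((v + x) / 4) with hydef
    have hA : 0 < A := exp_pos _
    have hy : 0 < y := exp_pos _
    have e5 : exp ((v + x + t) / 2) = y ^ 2 * A ^ 2 := by
      rw [hydef, hAdef, ← exp_nat_mul, ← exp_nat_mul, ← exp_add]; congr 1; push_cast; ring
    have e6 : exp (v + x) = y ^ 4 := by
      rw [hydef, ← exp_nat_mul]; congr 1; push_cast; ring
    have e7 : exp ((v + x) / 4 + 3 * t / 4) = y * A ^ 3 := by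
      rw [hydef, hAdef, ← exp_nat_mul, ← exp_add]; congr 1; push_cast; ring
    rw [e5, e6, e7]
    have key : 0 ≤ 2 / 3 * y * ((A - y) ^ 2 * (2 * A + y)) := by positivity
    nlinarith [key]
  · exact le_rfl

theorem Phi_meas (t : ℝ) : Measurable (Phi t) := by
  unfold Phi
  refine Measurable.ite measurableSet_Iic ?_ ?_
  · fun_prop
  · fun_prop

theorem Phi_le_bound (t v C : ℝ) (hv : |v| ≤ C) :
    |Phi t v| ≤ 4 / 3 * exp (C / 4 + 3 * |t| / 4) := by
  rw [abs_of_nonneg (Phi_nonneg t v)]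
  have h1 := Phi_le_high t v 0
  rw [add_zero] at h1
  refine h1.trans ?_
  rw [zero_div, exp_zero, mul_one]
  have : exp (v / 4 + 3 * t / 4) ≤ exp (C / 4 + 3 * |t| / 4) := by
    apply exp_le_exp.2
    have := le_abs_self t
    have := (le_abs_self v).trans hv
    linarith
  linarith

/-- the renewal bound: the expected exponential sum below level `t` -/
theorem Inc.renewal (h : Inc P X M₀ r) (b : ℤ) (t : ℝ) (n : ℕ) :
    (4 / 3 * (1 - r)) * ∑ k ∈ range n,
      ∫ a, (if V X b k a ≤ t then exp (V X b k a) else 0) ∂P ≤ Phi t 0 := by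
  have hVm : ∀ k, Measurable (V X b k) := fun k =>
    (V_meas (X := X) (T := Set.univ) (Set.subset_univ _)).mono (h.Fil_le _) le_rfl
  have hstep : ∀ k, ∫ a, Phi t (V X b (k+1) a) ∂P ≤ (∫ a, Phi t (V X b k a) ∂P) -
      (4 / 3 * (1 - r)) * ∫ a, (if V X b k a ≤ t then exp (V X b k a) else 0) ∂P := by
    intro k
    -- the pieces
    set f1 : Ω → ℝ := fun a => if V X b k a ≤ t then 4 / 3 * exp (V X b k a) else
      4 / 3 * exp (V X b k a / 4 + 3 * t / 4) with hf1
    set f2 : Ω → ℝ := fun a => if V X b k a ≤ t then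
      2 * (exp ((V X b k a + t) / 2) - exp (V X b k a)) else 0 with hf2
    have hVF : Measurable[Fil X (Set.Ioc b (b+k))] (V X b k) := V_meas subset_rfl
    have hset : MeasurableSet[Fil X (Set.Ioc b (b+k))] {a | V X b k a ≤ t} :=
      hVF measurableSet_Iic
    have hf1m : Measurable[Fil X (Set.Ioc b (b+k))] f1 := by
      have hg : Measurable (fun v : ℝ => if v ≤ t then 4 / 3 * exp v else
          4 / 3 * exp (v / 4 + 3 * t / 4)) :=
        Measurable.ite measurableSet_Iic (by fun_prop) (by fun_prop)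
      exact hg.comp hVF
    have hf2m : Measurable[Fil X (Set.Ioc b (b+k))] f2 := by
      have hg : Measurable (fun v : ℝ => if v ≤ t then 2 * (exp ((v + t) / 2) - exp v) else 0) :=
        Measurable.ite measurableSet_Iic (by fun_prop) (by fun_prop)
      exact hg.comp hVF
    have hf10 : ∀ a, 0 ≤ f1 a := by
      intro a; simp only [hf1]; split_ifs <;> positivity
    have hbV := h.V_bdd b k
    have hf1b : ∀ a, |f1 a| ≤ 4 / 3 * exp (k * M₀) + 4 / 3 * exp (k * M₀ / 4 + 3 * |t| / 4) := by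
      intro a
      rw [abs_of_nonneg (hf10 a)]
      have h1 := (le_abs_self _).trans (hbV a)
      have h2 := le_abs_self t
      simp only [hf1]
      split_ifs
      · have : exp (V X b k a) ≤ exp (k * M₀) := exp_le_exp.2 h1
        have := exp_pos (k * M₀ / 4 + 3 * |t| / 4)
        linarith
      · have : exp (V X b k a / 4 + 3 * t / 4) ≤ exp (k * M₀ / 4 + 3 * |t| / 4) :=
          exp_le_exp.2 (by linarith)
        have := exp_pos (k * M₀)
        linarith
    have hf20 : ∀ a, 0 ≤ f2 a := by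
      intro a; simp only [hf2]; split_ifs with hh
      · have : exp (V X b k a) ≤ exp ((V X b k a + t) / 2) := exp_le_exp.2 (by linarith)
        linarith
      · exact le_rfl
    have hf2b : ∀ a, |f2 a| ≤ 2 * exp ((k * M₀ + |t|) / 2) := by
      intro a
      rw [abs_of_nonneg (hf20 a)]
      have h1 := (le_abs_self _).trans (hbV a)
      have h2 := le_abs_self t
      simp only [hf2]
      split_ifs
      · have : exp ((V X b k a + t) / 2) ≤ exp ((k * M₀ + |t|) / 2) := exp_le_exp.2 (by linarith)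
        have := exp_pos (V X b k a)
        linarith
      · positivity
    have hnot : (b + 1 + k : ℤ) ∉ Set.Ioc b (b+k) := by rw [Set.mem_Ioc]; omega
    have i1 := h.integral_mul_exp4 hnot hf1m hf10
    have i2 := h.integral_mul_exp2 hnot hf2m
    have hXb : ∀ a, exp (X (b+1+k) a / 4) ≤ exp (M₀ / 4) := fun a =>
      exp_le_exp.2 (by have := (le_abs_self _).trans (h.bdd (b+1+k) a); linarith)
    have hXb2 : ∀ a, exp (X (b+1+k) a / 2) ≤ exp (M₀ / 2) := fun a =>
      exp_le_exp.2 (by have := (le_abs_self _).trans (h.bdd (b+1+k) a); linarith)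
    have hf1m' : Measurable f1 := hf1m.mono (h.Fil_le _) le_rfl
    have hf2m' : Measurable f2 := hf2m.mono (h.Fil_le _) le_rfl
    have int1 : Integrable (fun a => f1 a * exp (X (b+1+k) a / 4)) P := by
      refine integrable_of_bdd' (hf1m'.mul (measurable_exp.comp ((h.meas _).div_const 4)))
        ((4 / 3 * exp (k * M₀) + 4 / 3 * exp (k * M₀ / 4 + 3 * |t| / 4)) * exp (M₀ / 4)) ?_
      intro a
      rw [abs_mul, abs_of_pos (exp_pos (X (b+1+k) a / 4))]
      exact mul_le_mul (hf1b a) (hXb a) (exp_pos _).le (by positivity)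
    have int2 : Integrable (fun a => f2 a * exp (X (b+1+k) a / 2)) P := by
      refine integrable_of_bdd' (hf2m'.mul (measurable_exp.comp ((h.meas _).div_const 2)))
        ((2 * exp ((k * M₀ + |t|) / 2)) * exp (M₀ / 2)) ?_
      intro a
      rw [abs_mul, abs_of_pos (exp_pos (X (b+1+k) a / 2))]
      exact mul_le_mul (hf2b a) (hXb2 a) (exp_pos _).le (by positivity)
    have hPm : ∀ k, Integrable (fun a => Phi t (V X b k a)) P := fun k =>
      integrable_of_bdd' ((Phi_meas t).comp (hVm k)) _ fun a => Phi_le_bound t _ _ (h.V_bdd b k a)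
    have hpt : ∀ a, Phi t (V X b (k+1) a) ≤
        f1 a * exp (X (b+1+k) a / 4) + f2 a * exp (X (b+1+k) a / 2) := by
      intro a
      rw [V_succ]
      simp only [hf1, hf2]
      split_ifs with hh
      · exact Phi_le_low t _ _ hh
      · rw [zero_mul, add_zero]; exact Phi_le_high t _ _
    have hle1 : ∫ a, Phi t (V X b (k+1) a) ∂P ≤ r * (∫ a, f1 a ∂P) + ∫ a, f2 a ∂P := by
      calc ∫ a, Phi t (V X b (k+1) a) ∂P
          ≤ ∫ a, (f1 a * exp (X (b+1+k) a / 4) + f2 a * exp (X (b+1+k) a / 2)) ∂P :=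
            integral_mono (hPm (k+1)) (int1.add int2) hpt
        _ = (∫ a, f1 a * exp (X (b+1+k) a / 4) ∂P) + ∫ a, f2 a * exp (X (b+1+k) a / 2) ∂P :=
            integral_add int1 int2
        _ ≤ _ := by rw [i2]; linarith
    have hint1 : Integrable f1 P := integrable_of_bdd' hf1m' _ hf1b
    have hint2 : Integrable f2 P := integrable_of_bdd' hf2m' _ hf2b
    have hint3 : Integrable (fun a => if V X b k a ≤ t then exp (V X b k a) else 0) P := by
      refine integrable_of_bdd' (Measurable.ite (hVm k measurableSet_Iic)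
        (measurable_exp.comp (hVm k)) measurable_const) (exp (k * M₀)) ?_
      intro a
      split_ifs
      · rw [abs_of_pos (exp_pos _)]
        exact exp_le_exp.2 ((le_abs_self _).trans (hbV a))
      · rw [abs_zero]; positivity
    have hpt2 : ∀ a, r * f1 a + f2 a ≤ Phi t (V X b k a) -
        (4 / 3 * (1 - r)) * (if V X b k a ≤ t then exp (V X b k a) else 0) := by
      intro a
      simp only [hf1, hf2]
      unfold Phi
      split_ifs with hh
      · linarith
      · have := h.r1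
        have h3 := exp_pos (V X b k a / 4 + 3 * t / 4)
        nlinarith
    calc ∫ a, Phi t (V X b (k+1) a) ∂P ≤ r * (∫ a, f1 a ∂P) + ∫ a, f2 a ∂P := hle1
      _ = ∫ a, (r * f1 a + f2 a) ∂P := by
          rw [integral_add (hint1.const_mul r) hint2, integral_const_mul]
      _ ≤ ∫ a, (Phi t (V X b k a) -
        (4 / 3 * (1 - r)) * (if V X b k a ≤ t then exp (V X b k a) else 0)) ∂P :=
          integral_mono ((hint1.const_mul r).add hint2)
            ((hPm k).sub (hint3.const_mul _)) hpt2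
      _ = _ := by rw [integral_sub (hPm k) (hint3.const_mul _), integral_const_mul]
  have hall : ∀ n : ℕ, (4 / 3 * (1 - r)) * ∑ k ∈ range n,
      ∫ a, (if V X b k a ≤ t then exp (V X b k a) else 0) ∂P ≤
        Phi t 0 - ∫ a, Phi t (V X b n a) ∂P := by
    intro n
    induction n with
    | zero => simp [V_zero]
    | succ n ih =>
      rw [Finset.sum_range_succ, mul_add]
      have := hstep n
      linarith
  have := hall n
  have h0 : 0 ≤ ∫ a, Phi t (V X b n a) ∂P := integral_nonneg fun a => Phi_nonneg _ _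
  linarith

end

end Pool.Agent.helper97.Coll
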