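import Pool.Agent.helper97.Coll.Env1

namespace Pool.Agent.helper97.Coll

open Finset MeasureTheory ProbabilityTheory Real

set_option linter.unusedSectionVars false

noncomputable section

variable {Ω : Type*} [mΩ : MeasurableSpace Ω]
variable {P : Measure Ω} [IsProbabilityMeasure P] {X : ℤ → Ω → ℝ} {M₀ r : ℝ}

/-- the potential started at `b` reaches level `H` within `n` steps -/
def passed (X : ℤ → Ω → ℝ) (b : ℤ) (H : ℝ) (n : ℕ) : Set Ω := {a | ∃ k ≤ n, H ≤ V X b k a}

theorem passed_meas {T : Set ℤ} {b : ℤ} {n : ℕ} (hT : Set.Ioc b (b + n) ⊆ T) (H : ℝ) :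
    MeasurableSet[Fil X T] (passed X b H n) := by
  have : passed X b H n = ⋃ k ∈ Set.Iic n, (V X b k) ⁻¹' Set.Ici H := by
    ext a; simp [passed]
  rw [this]
  refine MeasurableSet.biUnion (m := Fil X T) (Set.to_countable _) fun k hk => ?_
  have hk' : k ≤ n := hk
  exact (V_meas (X := X) (b := b) (k := k) ((Set.Ioc_subset_Ioc_right (by omega)).trans hT))
    measurableSet_Ici

open Classical in
/-- stopped exponential -/
def Yp (X : ℤ → Ω → ℝ) (b : ℤ) (H : ℝ) : ℕ → Ω → ℝ
  | 0 => fun _ => exp (-H / 2)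
  | n + 1 => fun a => if a ∈ passed X b H n then Yp X b H n a else exp ((V X b (n + 1) a - H) / 2)

open Classical in
/-- stopped sum -/
def Zp (X : ℤ → Ω → ℝ) (b : ℤ) (H : ℝ) : ℕ → Ω → ℝ
  | 0 => fun _ => 1
  | n + 1 => fun a => if a ∈ passed X b H n then Zp X b H n a else
      Zp X b H n a + exp (-V X b (n + 1) a / 4)

theorem passed_mono {b : ℤ} {H : ℝ} {m n : ℕ} (h : m ≤ n) : passed X b H m ⊆ passed X b H n := by
  rintro a ⟨k, hk, hV⟩; exact ⟨k, hk.trans h, hV⟩

theorem Yp_of_not {b : ℤ} {H : ℝ} {n : ℕ} {a : Ω} (h : a ∉ passed X b H n) :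
    Yp X b H n a = exp ((V X b n a - H) / 2) := by
  cases n with
  | zero => simp [Yp, V_zero]
  | succ n =>
    have : a ∉ passed X b H n := fun h2 => h (passed_mono (Nat.le_succ n) h2)
    simp [Yp, this]

theorem Yp_pos (b : ℤ) (H : ℝ) (n : ℕ) (a : Ω) : 0 < Yp X b H n a := by
  induction n with
  | zero => simp only [Yp]; exact exp_pos _
  | succ n ih => simp only [Yp]; split_ifs; exacts [ih, exp_pos _]

theorem Zp_nonneg (b : ℤ) (H : ℝ) (n : ℕ) (a : Ω) : 0 ≤ Zp X b H n a := by
  induction n with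
  | zero => simp only [Zp]; norm_num
  | succ n ih => simp only [Zp]; split_ifs; exacts [ih, by positivity]

theorem Yp_meas (b : ℤ) (H : ℝ) (n : ℕ) : Measurable[Fil X (Set.Ioc b (b + n))] (Yp X b H n) := by
  induction n with
  | zero => exact @measurable_const _ _ _ (Fil X _) _
  | succ n ih =>
    have hsub : Set.Ioc b (b + n) ⊆ Set.Ioc b (b + (n + 1 : ℕ)) :=
      Set.Ioc_subset_Ioc_right (by push_cast; omega)
    have h1 : Measurable[Fil X (Set.Ioc b (b + (n+1:ℕ)))] (Yp X b H n) :=
      ih.mono (Fil_mono hsub) le_rfl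
    have h2 : Measurable[Fil X (Set.Ioc b (b + (n+1:ℕ)))]
        (fun a => exp ((V X b (n + 1) a - H) / 2)) :=
      measurable_exp.comp (((V_meas (X := X) subset_rfl).sub_const H).div_const 2)
    exact Measurable.ite (passed_meas (n := n) hsub H) h1 h2

theorem Zp_meas (b : ℤ) (H : ℝ) (n : ℕ) : Measurable[Fil X (Set.Ioc b (b + n))] (Zp X b H n) := by
  induction n with
  | zero => exact @measurable_const _ _ _ (Fil X _) _
  | succ n ih =>
    have hsub : Set.Ioc b (b + n) ⊆ Set.Ioc b (b + (n + 1 : ℕ)) :=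
      Set.Ioc_subset_Ioc_right (by push_cast; omega)
    have h1 : Measurable[Fil X (Set.Ioc b (b + (n+1:ℕ)))] (Zp X b H n) :=
      ih.mono (Fil_mono hsub) le_rfl
    have h2 : Measurable[Fil X (Set.Ioc b (b + (n+1:ℕ)))]
        (fun a => exp (-V X b (n + 1) a / 4)) :=
      measurable_exp.comp (((V_meas (X := X) subset_rfl).neg).div_const 4)
    exact Measurable.ite (passed_meas (n := n) hsub H) h1 (Measurable.add h1 h2)

theorem Inc.Yp_le (h : Inc P X M₀ r) (b : ℤ) (H : ℝ) (n : ℕ) (a : Ω) :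
    Yp X b H n a ≤ exp ((n * M₀ + |H|) / 2) := by
  induction n with
  | zero =>
    simp only [Yp]
    apply exp_le_exp.2
    have := neg_abs_le H
    push_cast
    linarith
  | succ n ih =>
    simp only [Yp]
    have hM := h.M0
    split_ifs
    · refine ih.trans (exp_le_exp.2 ?_)
      push_cast
      linarith
    · apply exp_le_exp.2
      have h1 := (le_abs_self _).trans (h.V_bdd b (n+1) a)
      have := neg_abs_le H
      push_cast at h1 ⊢
      linarith

theorem Inc.Zp_le (h : Inc P X M₀ r) (b : ℤ) (H : ℝ) (n : ℕ) (a : Ω) :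
    Zp X b H n a ≤ (n + 1) * exp (n * M₀ / 4) := by
  induction n with
  | zero => simp [Zp]
  | succ n ih =>
    have hM := h.M0
    have e1 : exp (n * M₀ / 4) ≤ exp ((n + 1 : ℕ) * M₀ / 4) :=
      exp_le_exp.2 (by push_cast; linarith)
    have e2 : (n + 1 : ℝ) * exp (n * M₀ / 4) ≤ (n + 1) * exp ((n + 1 : ℕ) * M₀ / 4) :=
      mul_le_mul_of_nonneg_left e1 (by positivity)
    have e4 := exp_pos (((n + 1 : ℕ) : ℝ) * M₀ / 4)
    simp only [Zp]
    split_ifs
    · push_cast at *
      linarith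
    · have h1 := (neg_abs_le _).trans' (neg_le_neg (h.V_bdd b (n+1) a))
      have e3 : exp (-V X b (n+1) a / 4) ≤ exp ((n + 1 : ℕ) * M₀ / 4) :=
        exp_le_exp.2 (by linarith)
      push_cast at *
      linarith

theorem Inc.Yp_le_of_passed (h : Inc P X M₀ r) (b : ℤ) {H : ℝ} (hH : 0 < H) (n : ℕ) (a : Ω)
    (ha : a ∈ passed X b H n) : Yp X b H n a ≤ exp (M₀ / 2) := by
  induction n with
  | zero =>
    obtain ⟨k, hk, hV⟩ := ha
    have : k = 0 := by omega
    subst this
    rw [V_zero] at hV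
    linarith
  | succ n ih =>
    simp only [Yp]
    split_ifs with hp
    · exact ih hp
    · apply exp_le_exp.2
      have h1 : V X b n a < H := by
        by_contra hcon
        push Not at hcon
        exact hp ⟨n, le_rfl, hcon⟩
      have h2 := (le_abs_self _).trans (h.bdd (b + 1 + n) a)
      rw [V_succ]
      linarith

theorem one_le_Yp_of_passed (b : ℤ) {H : ℝ} (hH : 0 < H) (n : ℕ) (a : Ω)
    (ha : a ∈ passed X b H n) : 1 ≤ Yp X b H n a := by
  induction n with
  | zero =>
    obtain ⟨k, hk, hV⟩ := ha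
    have : k = 0 := by omega
    subst this
    rw [V_zero] at hV
    linarith
  | succ n ih =>
    simp only [Yp]
    split_ifs with hp
    · exact ih hp
    · obtain ⟨k, hk, hV⟩ := ha
      have hk' : k = n + 1 := by
        by_contra hne
        exact hp ⟨k, by omega, hV⟩
      subst hk'
      apply one_le_exp
      linarith

/-- The martingale property -/
theorem Inc.integral_Yp (h : Inc P X M₀ r) (b : ℤ) (H : ℝ) (n : ℕ) (U : Ω → ℝ)
    (hU : Measurable[Fil X (Set.Ioc b (b + n))] U) (C : ℝ) (hUb : ∀ a, |U a| ≤ C) :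
    ∫ a, Yp X b H (n + 1) a * U a ∂P = ∫ a, Yp X b H n a * U a ∂P := by
  classical
  set f1 : Ω → ℝ := fun a => if a ∈ passed X b H n then Yp X b H n a * U a else 0 with hf1
  set f2 : Ω → ℝ := fun a => if a ∈ passed X b H n then 0 else Yp X b H n a * U a with hf2
  have hYU : Measurable[Fil X (Set.Ioc b (b+n))] (fun a => Yp X b H n a * U a) :=
    Measurable.mul (Yp_meas b H n) hU
  have hf1m : Measurable[Fil X (Set.Ioc b (b+n))] f1 :=
    Measurable.ite (passed_meas (n := n) subset_rfl H) hYU (@measurable_const _ _ _ (Fil X _) _)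
  have hf2m : Measurable[Fil X (Set.Ioc b (b+n))] f2 :=
    Measurable.ite (passed_meas (n := n) subset_rfl H) (@measurable_const _ _ _ (Fil X _) _) hYU
  have hf1m' : Measurable f1 := hf1m.mono (h.Fil_le _) le_rfl
  have hf2m' : Measurable f2 := hf2m.mono (h.Fil_le _) le_rfl
  have hC : 0 ≤ C ∨ IsEmpty Ω := by
    by_cases hne : Nonempty Ω
    · left; obtain ⟨a⟩ := hne; exact (abs_nonneg _).trans (hUb a)
    · right; exact not_nonempty_iff.1 hne
  rcases hC with hC | hemp
  swap
  · simp [integral_of_isEmpty]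
  have hYUb : ∀ a, |Yp X b H n a * U a| ≤ exp ((n * M₀ + |H|) / 2) * C := by
    intro a
    rw [abs_mul, abs_of_pos (Yp_pos b H n a)]
    exact mul_le_mul (h.Yp_le b H n a) (hUb a) (abs_nonneg _) (exp_pos _).le
  have hf1b : ∀ a, |f1 a| ≤ exp ((n * M₀ + |H|) / 2) * C := by
    intro a; simp only [hf1]; split_ifs
    · exact hYUb a
    · rw [abs_zero]; positivity
  have hf2b : ∀ a, |f2 a| ≤ exp ((n * M₀ + |H|) / 2) * C := by
    intro a; simp only [hf2]; split_ifs
    · rw [abs_zero]; positivity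
    · exact hYUb a
  have hnot : (b + 1 + n : ℤ) ∉ Set.Ioc b (b+n) := by rw [Set.mem_Ioc]; omega
  have i2 := h.integral_mul_exp2 hnot hf2m
  have hXb2 : ∀ a, exp (X (b+1+n) a / 2) ≤ exp (M₀ / 2) := fun a =>
    exp_le_exp.2 (by have := (le_abs_self _).trans (h.bdd (b+1+n) a); linarith)
  have int1 : Integrable f1 P := integrable_of_bdd' hf1m' _ hf1b
  have int2 : Integrable f2 P := integrable_of_bdd' hf2m' _ hf2b
  have int3 : Integrable (fun a => f2 a * exp (X (b+1+n) a / 2)) P := by
    refine integrable_of_bdd' (hf2m'.mul (measurable_exp.comp ((h.meas _).div_const 2)))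
      ((exp ((n * M₀ + |H|) / 2) * C) * exp (M₀ / 2)) ?_
    intro a
    rw [abs_mul, abs_of_pos (exp_pos (X (b+1+n) a / 2))]
    exact mul_le_mul (hf2b a) (hXb2 a) (exp_pos _).le (by positivity)
  have e1 : ∀ a, Yp X b H (n + 1) a * U a = f1 a + f2 a * exp (X (b+1+n) a / 2) := by
    intro a
    simp only [Yp, hf1, hf2]
    split_ifs with hp
    · ring
    · rw [Yp_of_not hp, V_succ]
      have : exp ((V X b n a + X (b + 1 + n) a - H) / 2) =
          exp ((V X b n a - H) / 2) * exp (X (b + 1 + n) a / 2) := by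
        rw [← exp_add]; ring_nf
      rw [this]; ring
  have e2 : ∀ a, Yp X b H n a * U a = f1 a + f2 a := by
    intro a
    simp only [hf1, hf2]
    split_ifs <;> ring
  simp only [e1, e2]
  rw [integral_add int1 int3, integral_add int1 int2, i2]

theorem Inc.integral_Yp_eq (h : Inc P X M₀ r) (b : ℤ) (H : ℝ) (n : ℕ) :
    ∫ a, Yp X b H n a ∂P = exp (-H / 2) := by
  induction n with
  | zero => simp [Yp]
  | succ n ih =>
    have := h.integral_Yp b H n (fun _ => 1) (@measurable_const _ _ _ (Fil X _) _) 1 (by simp)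
    simp only [mul_one] at this
    rw [this, ih]

theorem Inc.Yp_integrable (h : Inc P X M₀ r) (b : ℤ) (H : ℝ) (n : ℕ) :
    Integrable (Yp X b H n) P :=
  integrable_of_bdd' ((Yp_meas b H n).mono (h.Fil_le _) le_rfl) _ (fun a => by
    rw [abs_of_pos (Yp_pos b H n a)]; exact h.Yp_le b H n a)

/-- Lundberg's inequality -/
theorem Inc.passed_le (h : Inc P X M₀ r) (b : ℤ) {H : ℝ} (hH : 0 < H) (n : ℕ) :
    P.real (passed X b H n) ≤ exp (-H / 2) := by
  rw [← h.integral_Yp_eq b H n]
  have hm : MeasurableSet (passed X b H n) :=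
    h.Fil_le (Set.Ioc b (b+n)) _ (passed_meas subset_rfl H)
  rw [← integral_indicator_one hm]
  refine integral_mono ((integrable_const 1).indicator hm) (h.Yp_integrable b H n) fun a => ?_
  by_cases ha : a ∈ passed X b H n
  · simp only [Set.indicator_of_mem ha, Pi.one_apply]; exact one_le_Yp_of_passed b hH n a ha
  · simp only [Set.indicator_of_notMem ha]; exact (Yp_pos b H n a).le

theorem Inc.integral_YZ (h : Inc P X M₀ r) (b : ℤ) (H : ℝ) (n : ℕ) :
    ∫ a, Yp X b H n a * Zp X b H n a ∂P ≤ exp (-H / 2) * ∑ i ∈ range (n + 1), r ^ i := by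
  classical
  induction n with
  | zero => simp [Yp, Zp]
  | succ n ih =>
    have hZb : ∀ a, |Zp X b H n a| ≤ (n + 1) * exp (n * M₀ / 4) := fun a => by
      rw [abs_of_nonneg (Zp_nonneg b H n a)]; exact h.Zp_le b H n a
    have i1 := h.integral_Yp b H n (Zp X b H n) (Zp_meas b H n) _ hZb
    have hYm : ∀ n, Measurable (Yp X b H n) := fun n => (Yp_meas b H n).mono (h.Fil_le _) le_rfl
    have hZm : ∀ n, Measurable (Zp X b H n) := fun n => (Zp_meas b H n).mono (h.Fil_le _) le_rfl
    have hYZi : ∀ m n, Integrable (fun a => Yp X b H m a * Zp X b H n a) P := fun m n =>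
      integrable_of_bdd' ((hYm m).mul (hZm n))
        (exp ((m * M₀ + |H|) / 2) * ((n + 1) * exp (n * M₀ / 4))) (fun a => by
          rw [abs_mul, abs_of_pos (Yp_pos b H m a), abs_of_nonneg (Zp_nonneg b H n a)]
          exact mul_le_mul (h.Yp_le b H m a) (h.Zp_le b H n a) (Zp_nonneg b H n a) (exp_pos _).le)
    have hVi : Integrable (fun a => exp (V X b (n+1) a / 4)) P := by
      have hVm : Measurable (V X b (n+1)) :=
        (V_meas (X := X) (T := Set.univ) (Set.subset_univ _)).mono (h.Fil_le _) le_rfl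
      refine integrable_of_bdd' (measurable_exp.comp (hVm.div_const 4)) (exp ((n+1:ℕ) * M₀ / 4))
        fun a => ?_
      rw [abs_of_pos (exp_pos _)]
      have := (le_abs_self _).trans (h.V_bdd b (n+1) a)
      exact exp_le_exp.2 (by linarith)
    have hpt : ∀ a, Yp X b H (n+1) a * Zp X b H (n+1) a ≤
        Yp X b H (n+1) a * Zp X b H n a + exp (-H/2) * exp (V X b (n+1) a / 4) := by
      intro a
      by_cases hp : a ∈ passed X b H n
      · have : Zp X b H (n+1) a = Zp X b H n a := by simp [Zp, hp]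
        rw [this]
        have := exp_pos (-H/2)
        have := exp_pos (V X b (n+1) a / 4)
        nlinarith
      · have e1 : Zp X b H (n+1) a = Zp X b H n a + exp (-V X b (n + 1) a / 4) := by
          simp [Zp, hp]
        have e2 : Yp X b H (n+1) a = exp ((V X b (n + 1) a - H) / 2) := by simp [Yp, hp]
        have e3 : exp ((V X b (n + 1) a - H) / 2) * exp (-V X b (n + 1) a / 4) =
            exp (-H/2) * exp (V X b (n+1) a / 4) := by
          rw [← exp_add, ← exp_add]; ring_nf
        rw [e1, mul_add, e2, e3]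
    calc ∫ a, Yp X b H (n+1) a * Zp X b H (n+1) a ∂P
        ≤ ∫ a, (Yp X b H (n+1) a * Zp X b H n a + exp (-H/2) * exp (V X b (n+1) a / 4)) ∂P :=
          integral_mono (hYZi _ _) ((hYZi _ _).add (hVi.const_mul _)) hpt
      _ = (∫ a, Yp X b H n a * Zp X b H n a ∂P) + exp (-H/2) * ∫ a, exp (V X b (n+1) a / 4) ∂P := by
          rw [integral_add (hYZi _ _) (hVi.const_mul _), i1, integral_const_mul]
      _ ≤ exp (-H / 2) * ∑ i ∈ range (n + 1), r ^ i + exp (-H/2) * r ^ (n+1) := by
          have := mul_le_mul_of_nonneg_left (h.expV4 b (n+1)) (exp_pos (-H/2)).le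
          linarith
      _ = _ := by rw [Finset.sum_range_succ (fun i => r ^ i) (n+1), mul_add]

/-- the valley event -/
def Fev (X : ℤ → Ω → ℝ) (b : ℤ) (H D : ℝ) (K : ℕ) : Set Ω :=
  {a | ∃ k ≤ K, H ≤ V X b k a ∧ ∑ i ∈ range (k + 1), exp (-V X b i a / 4) ≤ D}

theorem Fev_meas {T : Set ℤ} {b : ℤ} {K : ℕ} (hT : Set.Ioc b (b + K) ⊆ T) (H D : ℝ) :
    MeasurableSet[Fil X T] (Fev X b H D K) := by
  have : Fev X b H D K = ⋃ k ∈ Set.Iic K, ((V X b k) ⁻¹' Set.Ici H ∩
      (fun a => ∑ i ∈ range (k + 1), exp (-V X b i a / 4)) ⁻¹' Set.Iic D) := by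
    ext a
    simp only [Fev, Set.mem_iUnion, Set.mem_inter_iff, Set.mem_preimage, Set.mem_Ici,
      Set.mem_Iic, exists_prop]
    rfl
  rw [this]
  refine MeasurableSet.biUnion (m := Fil X T) (Set.to_countable _) fun k hk => ?_
  have hk' : k ≤ K := hk
  refine MeasurableSet.inter (m := Fil X T) ?_ ?_
  · exact (V_meas (X := X) (b := b) (k := k) ((Set.Ioc_subset_Ioc_right (by omega)).trans hT))
      measurableSet_Ici
  · have hm : Measurable[Fil X T] (fun a => ∑ i ∈ range (k + 1), exp (-V X b i a / 4)) := by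
      refine @Finset.measurable_fun_sum _ _ _ _ _ _ (Fil X T) _ _ fun i hi => ?_
      have := Finset.mem_range.1 hi
      exact measurable_exp.comp (((V_meas (X := X) (b := b) (k := i)
        ((Set.Ioc_subset_Ioc_right (by omega)).trans hT)).neg).div_const 4)
    exact hm measurableSet_Iic

theorem Zp_eq (b : ℤ) (H : ℝ) (n : ℕ) (a : Ω) :
    (a ∉ passed X b H n → Zp X b H n a = ∑ i ∈ range (n + 1), exp (-V X b i a / 4)) ∧
    (a ∈ passed X b H n → ∃ k ≤ n, H ≤ V X b k a ∧
      Zp X b H n a = ∑ i ∈ range (k + 1), exp (-V X b i a / 4)) := by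
  induction n with
  | zero =>
    constructor
    · intro _; simp [Zp, V_zero]
    · rintro ⟨k, hk, hV⟩
      have : k = 0 := by omega
      subst this
      exact ⟨0, le_rfl, hV, by simp [Zp, V_zero]⟩
  | succ n ih =>
    constructor
    · intro hp
      have hp' : a ∉ passed X b H n := fun h2 => hp (passed_mono (Nat.le_succ n) h2)
      rw [Finset.sum_range_succ, ← ih.1 hp']
      simp [Zp, hp']
    · intro hp
      by_cases hp' : a ∈ passed X b H n
      · obtain ⟨k, hk, hV, hZ⟩ := ih.2 hp'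
        exact ⟨k, by omega, hV, by simp [Zp, hp', hZ]⟩
      · obtain ⟨k, hk, hV⟩ := hp
        have hk' : k = n + 1 := by
          by_contra hne
          exact hp' ⟨k, by omega, hV⟩
        subst hk'
        refine ⟨n+1, le_rfl, hV, ?_⟩
        rw [Finset.sum_range_succ, ← ih.1 hp']
        simp [Zp, hp']

theorem Fev_subset_passed (b : ℤ) (H D : ℝ) (K : ℕ) : Fev X b H D K ⊆ passed X b H K := by
  rintro a ⟨k, hk, hV, _⟩; exact ⟨k, hk, hV⟩

theorem Inc.Fev_le (h : Inc P X M₀ r) (b : ℤ) {H : ℝ} (hH : 0 < H) (D : ℝ) (K : ℕ) :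
    P.real (Fev X b H D K) ≤ exp (-H / 2) :=
  (measureReal_mono (Fev_subset_passed b H D K)).trans (h.passed_le b hH K)

/-- lower bound for the probability of a deep valley -/
theorem Inc.Fev_ge (h : Inc P X M₀ r) (b : ℤ) {H : ℝ} (hH : 0 < H) {D : ℝ} (hD : 0 < D) (K : ℕ) :
    exp (-H / 2) ≤ exp (-H / 4) * r ^ K + D⁻¹ * (exp (-H / 2) * (1 - r)⁻¹) +
      exp (M₀ / 2) * P.real (Fev X b H D K) := by
  classical
  rw [← h.integral_Yp_eq b H K]
  have hYm : Measurable (Yp X b H K) := (Yp_meas b H K).mono (h.Fil_le _) le_rfl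
  have hZm : Measurable (Zp X b H K) := (Zp_meas b H K).mono (h.Fil_le _) le_rfl
  have hFm : MeasurableSet (Fev X b H D K) :=
    h.Fil_le (Set.Ioc b (b+K)) _ (Fev_meas subset_rfl H D)
  have hVm : Measurable (V X b K) :=
    (V_meas (X := X) (T := Set.univ) (Set.subset_univ _)).mono (h.Fil_le _) le_rfl
  have hVi : Integrable (fun a => exp (V X b K a / 4)) P := by
    refine integrable_of_bdd' (measurable_exp.comp (hVm.div_const 4)) (exp (K * M₀ / 4))
      fun a => ?_
    rw [abs_of_pos (exp_pos _)]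
    have := (le_abs_self _).trans (h.V_bdd b K a)
    exact exp_le_exp.2 (by linarith)
  have hYZi : Integrable (fun a => Yp X b H K a * Zp X b H K a) P :=
      integrable_of_bdd' (hYm.mul hZm)
        (exp ((K * M₀ + |H|) / 2) * ((K + 1) * exp (K * M₀ / 4))) (fun a => by
          rw [abs_mul, abs_of_pos (Yp_pos b H K a), abs_of_nonneg (Zp_nonneg b H K a)]
          exact mul_le_mul (h.Yp_le b H K a) (h.Zp_le b H K a) (Zp_nonneg b H K a) (exp_pos _).le)
  have hFi : Integrable ((Fev X b H D K).indicator (fun _ => (1:ℝ))) P :=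
    (integrable_const 1).indicator hFm
  have hpt : ∀ a, Yp X b H K a ≤ exp (-H / 4) * exp (V X b K a / 4) +
      D⁻¹ * (Yp X b H K a * Zp X b H K a) +
      exp (M₀ / 2) * (Fev X b H D K).indicator (fun _ => (1:ℝ)) a := by
    intro a
    have p1 : 0 ≤ exp (-H / 4) * exp (V X b K a / 4) := by positivity
    have p2 : 0 ≤ D⁻¹ * (Yp X b H K a * Zp X b H K a) := by
      have := (Yp_pos (X := X) b H K a).le; have := Zp_nonneg (X := X) b H K a; positivity
    have p3 : 0 ≤ exp (M₀ / 2) * (Fev X b H D K).indicator (fun _ => (1:ℝ)) a := by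
      have : 0 ≤ (Fev X b H D K).indicator (fun _ => (1:ℝ)) a :=
        Set.indicator_nonneg (fun _ _ => zero_le_one) a
      positivity
    by_cases hp : a ∈ passed X b H K
    · by_cases hZ : Zp X b H K a ≤ D
      · have haF : a ∈ Fev X b H D K := by
          obtain ⟨k, hk, hV, hZk⟩ := (Zp_eq b H K a).2 hp
          exact ⟨k, hk, hV, hZk ▸ hZ⟩
        have := h.Yp_le_of_passed b hH K a hp
        rw [Set.indicator_of_mem haF] at p3 ⊢
        linarith
      · push Not at hZ
        have hY := Yp_pos (X := X) b H K a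
        have : Yp X b H K a ≤ D⁻¹ * (Yp X b H K a * Zp X b H K a) := by
          rw [← div_eq_inv_mul, le_div_iff₀ hD]
          exact mul_le_mul_of_nonneg_left hZ.le hY.le
        linarith
    · have hV : V X b K a < H := by
        by_contra hcon
        push Not at hcon
        exact hp ⟨K, le_rfl, hcon⟩
      rw [Yp_of_not hp] at p2 ⊢
      have : exp ((V X b K a - H) / 2) ≤ exp (-H / 4) * exp (V X b K a / 4) := by
        rw [← exp_add]; apply exp_le_exp.2; linarith
      linarith
  have hint := integral_mono (h.Yp_integrable b H K)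
    (((hVi.const_mul (exp (-H/4))).add (hYZi.const_mul D⁻¹)).add (hFi.const_mul (exp (M₀/2)))) hpt
  refine hint.trans ?_
  have hsplit : ∫ a, (((fun a => exp (-H / 4) * exp (V X b K a / 4)) +
      fun a => D⁻¹ * (Yp X b H K a * Zp X b H K a)) +
      fun a => exp (M₀ / 2) * (Fev X b H D K).indicator (fun _ => (1:ℝ)) a) a ∂P =
      exp (-H / 4) * (∫ a, exp (V X b K a / 4) ∂P) +
      D⁻¹ * (∫ a, Yp X b H K a * Zp X b H K a ∂P) + exp (M₀ / 2) * P.real (Fev X b H D K) := by
    rw [integral_add' ((hVi.const_mul (exp (-H/4))).add (hYZi.const_mul D⁻¹))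
      (hFi.const_mul (exp (M₀/2))), integral_add' (hVi.const_mul (exp (-H/4)))
      (hYZi.const_mul D⁻¹), integral_const_mul, integral_const_mul, integral_const_mul]
    congr 2
    exact integral_indicator_one hFm
  rw [hsplit, h.integral_Yp_eq b H K]
  have g1 := mul_le_mul_of_nonneg_left (h.expV4 b K) (exp_pos (-H/4)).le
  have g2 : ∑ i ∈ range (K + 1), r ^ i ≤ (1 - r)⁻¹ := by
    have h1 := h.r1; have h0 := h.r0
    have : Summable fun i : ℕ => r ^ i := summable_geometric_of_lt_one h0.le h1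
    rw [← tsum_geometric_of_lt_one h0.le h1]
    exact this.sum_le_tsum _ (fun i _ => by positivity)
  have g3 : D⁻¹ * ∫ a, Yp X b H K a * Zp X b H K a ∂P ≤ D⁻¹ * (exp (-H / 2) * (1 - r)⁻¹) := by
    apply mul_le_mul_of_nonneg_left _ (inv_pos.2 hD).le
    exact (h.integral_YZ b H K).trans (mul_le_mul_of_nonneg_left g2 (exp_pos _).le)
  linarith

end

end Pool.Agent.helper97.Coll
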