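import Pool.Agent.helper97.Coll.Env2

namespace Pool.Agent.helper97.Coll

open Finset MeasureTheory ProbabilityTheory Real

set_option linter.unusedSectionVars false

noncomputable section

variable {Ω : Type*} [mΩ : MeasurableSpace Ω]
variable {P : Measure Ω} [IsProbabilityMeasure P] {X : ℤ → Ω → ℝ} {M₀ r : ℝ}

/-- the good event for the past of `m + n` -/
def Gev (X : ℤ → Ω → ℝ) (m : ℤ) (n : ℕ) (D T : ℝ) : Set Ω :=
  {a | ∑ i ∈ range n, exp (V X (m + 1 + i) (n - 1 - i) a / 4) ≤ D ∧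
    ∑ i ∈ range n, ∑ k ∈ range (n - i), exp (V X (m + 1 + i) k a) ≤ T}

theorem Gsum1_meas {T : Set ℤ} {m : ℤ} {n : ℕ} (hT : Set.Ioc m (m + n) ⊆ T) :
    Measurable[Fil X T] (fun a => ∑ i ∈ range n, exp (V X (m + 1 + i) (n - 1 - i) a / 4)) := by
  refine @Finset.measurable_fun_sum _ _ _ _ _ _ (Fil X T) _ _ fun i hi => ?_
  have := Finset.mem_range.1 hi
  refine measurable_exp.comp ((V_meas (X := X) (Set.Subset.trans ?_ hT)).div_const 4)
  intro x hx
  rw [Set.mem_Ioc] at hx ⊢
  omega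

theorem Gsum2_meas {T : Set ℤ} {m : ℤ} {n : ℕ} (hT : Set.Ioc m (m + n) ⊆ T) :
    Measurable[Fil X T] (fun a => ∑ i ∈ range n, ∑ k ∈ range (n - i),
      exp (V X (m + 1 + i) k a)) := by
  refine @Finset.measurable_fun_sum _ _ _ _ _ _ (Fil X T) _ _ fun i hi => ?_
  refine @Finset.measurable_fun_sum _ _ _ _ _ _ (Fil X T) _ _ fun k hk => ?_
  have := Finset.mem_range.1 hi
  have := Finset.mem_range.1 hk
  refine measurable_exp.comp (V_meas (X := X) (Set.Subset.trans ?_ hT))
  intro x hx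
  rw [Set.mem_Ioc] at hx ⊢
  omega

theorem Gev_meas {T : Set ℤ} {m : ℤ} {n : ℕ} (hT : Set.Ioc m (m + n) ⊆ T) (D T' : ℝ) :
    MeasurableSet[Fil X T] (Gev X m n D T') :=
  MeasurableSet.inter (Gsum1_meas (X := X) hT measurableSet_Iic)
    (Gsum2_meas (X := X) hT measurableSet_Iic)

theorem markov_real {f : Ω → ℝ} (hf : Integrable f P) (hf0 : ∀ a, 0 ≤ f a) {c : ℝ} (hc : 0 < c) :
    P.real {a | c < f a} ≤ (∫ a, f a ∂P) / c := by
  have h1 := mul_meas_ge_le_integral_of_nonneg (μ := P) (Filter.Eventually.of_forall hf0) hf c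
  have h2 : P.real {a | c < f a} ≤ P.real {a | c ≤ f a} :=
    measureReal_mono (fun a (ha : c < f a) => show c ≤ f a from ha.le)
  rw [le_div_iff₀ hc]
  nlinarith

theorem Inc.V_meas' (h : Inc P X M₀ r) (b : ℤ) (k : ℕ) : Measurable (V X b k) :=
  (V_meas (X := X) (T := Set.univ) (Set.subset_univ _)).mono (h.Fil_le _) le_rfl

theorem Inc.expV_int (h : Inc P X M₀ r) (b : ℤ) (k : ℕ) :
    Integrable (fun a => exp (V X b k a)) P := by
  refine integrable_of_bdd' (measurable_exp.comp (h.V_meas' b k)) (exp (k * M₀)) fun a => ?_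
  rw [abs_of_pos (exp_pos _)]
  exact exp_le_exp.2 ((le_abs_self _).trans (h.V_bdd b k a))

theorem Inc.expV4_int (h : Inc P X M₀ r) (b : ℤ) (k : ℕ) :
    Integrable (fun a => exp (V X b k a / 4)) P := by
  refine integrable_of_bdd' (measurable_exp.comp ((h.V_meas' b k).div_const 4))
    (exp (k * M₀ / 4)) fun a => ?_
  rw [abs_of_pos (exp_pos _)]
  have := (le_abs_self _).trans (h.V_bdd b k a)
  exact exp_le_exp.2 (by linarith)

theorem Inc.geom (h : Inc P X M₀ r) (n : ℕ) : ∑ i ∈ range n, r ^ i ≤ (1 - r)⁻¹ := by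
  have h1 := h.r1; have h0 := h.r0
  have : Summable fun i : ℕ => r ^ i := summable_geometric_of_lt_one h0.le h1
  rw [← tsum_geometric_of_lt_one h0.le h1]
  exact this.sum_le_tsum _ (fun i _ => by positivity)

theorem Inc.G1_compl (h : Inc P X M₀ r) (m : ℤ) (n : ℕ) {D : ℝ} (hD : 0 < D) :
    P.real {a | D < ∑ i ∈ range n, exp (V X (m + 1 + i) (n - 1 - i) a / 4)} ≤
      (1 - r)⁻¹ / D := by
  refine (markov_real (integrable_finsetSum _ fun i _ => h.expV4_int _ _)
    (fun a => Finset.sum_nonneg fun i _ => (exp_pos _).le) hD).trans ?_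
  apply div_le_div_of_nonneg_right _ hD.le
  rw [integral_finsetSum _ fun i _ => h.expV4_int _ _]
  calc ∑ i ∈ range n, ∫ a, exp (V X (m + 1 + i) (n - 1 - i) a / 4) ∂P
      ≤ ∑ i ∈ range n, r ^ (n - 1 - i) := Finset.sum_le_sum fun i _ => h.expV4 _ _
    _ = ∑ i ∈ range n, r ^ i := Finset.sum_range_reflect (fun i => r ^ i) n
    _ ≤ _ := h.geom n

theorem Phi_zero_le {t : ℝ} (ht : 0 ≤ t) : Phi t 0 ≤ 2 * exp (t / 2) := by
  unfold Phi
  rw [if_pos ht, zero_add, exp_zero]
  linarith

theorem Inc.G2_compl (h : Inc P X M₀ r) (m : ℤ) (n : ℕ) {t T : ℝ} (ht : 0 < t) (hT : 0 < T) :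
    P.real {a | T < ∑ i ∈ range n, ∑ k ∈ range (n - i), exp (V X (m + 1 + i) k a)} ≤
      n * exp (-t / 2) + n * (2 * exp (t / 2) / (4 / 3 * (1 - r))) / T := by
  classical
  have hr : 0 < 4 / 3 * (1 - r) := by have := h.r1; linarith
  set S : Ω → ℝ := fun a => ∑ i ∈ range n, ∑ k ∈ range n,
    (if V X (m + 1 + i) k a ≤ t then exp (V X (m + 1 + i) k a) else 0) with hS
  have hti : ∀ (i k : ℕ), Integrable (fun a => if V X (m + 1 + i) k a ≤ t then
      exp (V X (m + 1 + i) k a) else 0) P := by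
    intro i k
    refine integrable_of_bdd' (Measurable.ite (h.V_meas' _ _ measurableSet_Iic)
        (measurable_exp.comp (h.V_meas' _ _)) measurable_const) (exp (k * M₀)) ?_
    intro a
    split_ifs
    · rw [abs_of_pos (exp_pos _)]
      exact exp_le_exp.2 ((le_abs_self _).trans (h.V_bdd _ k a))
    · rw [abs_zero]; positivity
  have hSi : Integrable S P :=
    integrable_finsetSum _ fun i _ => integrable_finsetSum _ fun k _ => hti i k
  have hterm0 : ∀ (i k : ℕ) (a : Ω), 0 ≤ (if V X (m + 1 + i) k a ≤ t then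
      exp (V X (m + 1 + i) k a) else 0) := by
    intro i k a; split_ifs <;> positivity
  have hS0 : ∀ a, 0 ≤ S a := fun a => Finset.sum_nonneg fun i _ => Finset.sum_nonneg fun k _ =>
    hterm0 i k a
  have hSE : ∫ a, S a ∂P ≤ n * (2 * exp (t / 2) / (4 / 3 * (1 - r))) := by
    simp only [hS]
    rw [integral_finsetSum _ fun i _ => integrable_finsetSum _ fun k _ => hti i k]
    calc ∑ i ∈ range n, ∫ a, ∑ k ∈ range n, (if V X (m + 1 + i) k a ≤ t then
          exp (V X (m + 1 + i) k a) else 0) ∂P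
        ≤ ∑ i ∈ range n, (2 * exp (t / 2) / (4 / 3 * (1 - r))) := by
          refine Finset.sum_le_sum fun i _ => ?_
          rw [integral_finsetSum _ fun k _ => hti i k, le_div_iff₀ hr, mul_comm]
          exact (h.renewal (m + 1 + i) t n).trans (Phi_zero_le ht.le)
      _ = _ := by simp
  have hsub : {a | T < ∑ i ∈ range n, ∑ k ∈ range (n - i), exp (V X (m + 1 + i) k a)} ⊆
      (⋃ i ∈ range n, passed X (m + 1 + i) t n) ∪ {a | T < S a} := by
    intro a ha
    by_cases hp : a ∈ ⋃ i ∈ range n, passed X (m + 1 + i) t n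
    · left; exact hp
    · right
      have ha' : T < ∑ i ∈ range n, ∑ k ∈ range (n - i), exp (V X (m + 1 + i) k a) := ha
      refine lt_of_lt_of_le ha' ?_
      refine Finset.sum_le_sum fun i hi => ?_
      have hlt : ∀ k ≤ n, V X (m + 1 + i) k a < t := by
        intro k hk
        by_contra hcon
        push Not at hcon
        apply hp
        simp only [Set.mem_iUnion]
        exact ⟨i, hi, k, hk, hcon⟩
      calc ∑ k ∈ range (n - i), exp (V X (m + 1 + i) k a)
          ≤ ∑ k ∈ range (n - i), (if V X (m + 1 + i) k a ≤ t then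
            exp (V X (m + 1 + i) k a) else 0) := by
            refine Finset.sum_le_sum fun k hk => ?_
            have := Finset.mem_range.1 hk
            rw [if_pos (hlt k (by omega)).le]
        _ ≤ _ := Finset.sum_le_sum_of_subset_of_nonneg (by
            intro k hk; rw [Finset.mem_range] at *; omega) (fun k _ _ => hterm0 i k a)
  refine (measureReal_mono hsub).trans ((measureReal_union_le _ _).trans ?_)
  refine add_le_add ?_ ?_
  · calc P.real (⋃ i ∈ range n, passed X (m + 1 + i) t n)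
        ≤ ∑ i ∈ range n, P.real (passed X (m + 1 + i) t n) :=
          measureReal_biUnion_finset_le _ _
      _ ≤ ∑ i ∈ range n, exp (-t / 2) := Finset.sum_le_sum fun i _ => h.passed_le _ ht n
      _ = _ := by simp
  · refine (markov_real hSi hS0 hT).trans ?_
    exact div_le_div_of_nonneg_right hSE hT.le

/-- the past is good with probability at least `1/2` -/
theorem Inc.Gev_ge (h : Inc P X M₀ r) (m : ℤ) (n : ℕ) (hn : 0 < n) {T : ℝ}
    (hT : 96 * (n : ℝ) ^ 2 / (1 - r) ≤ T) :
    1 / 2 ≤ P.real (Gev X m n (4 / (1 - r)) T) := by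
  have hr : 0 < 1 - r := by have := h.r1; linarith
  have hn' : (1:ℝ) ≤ n := by exact_mod_cast hn
  have hT0 : 0 < T := lt_of_lt_of_le (by positivity) hT
  have hD : 0 < 4 / (1 - r) := by positivity
  have hGm : MeasurableSet (Gev X m n (4 / (1 - r)) T) :=
    h.Fil_le (Set.Ioc m (m+n)) _ (Gev_meas subset_rfl _ _)
  set t : ℝ := 2 * Real.log (8 * n) with htdef
  have ht : 0 < t := by
    have : 0 < Real.log (8 * n) := Real.log_pos (by linarith)
    positivity
  have e1 : exp (t / 2) = 8 * n := by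
    rw [htdef, mul_div_cancel_left₀ _ (two_ne_zero), Real.exp_log (by positivity)]
  have e2 : exp (-t / 2) = 1 / (8 * n) := by
    rw [neg_div, exp_neg, e1, one_div]
  have c1 := h.G1_compl m n hD
  have c2 := h.G2_compl m n ht hT0
  rw [e1, e2] at c2
  have c3 : (n:ℝ) * (1 / (8 * n)) = 1 / 8 := by field_simp
  have c4 : (n:ℝ) * (2 * (8 * n) / (4 / 3 * (1 - r))) / T ≤ 1 / 8 := by
    rw [div_le_iff₀ hT0]
    have : (n:ℝ) * (2 * (8 * n) / (4 / 3 * (1 - r))) = 1 / 8 * (96 * (n : ℝ) ^ 2 / (1 - r)) := by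
      field_simp; ring
    rw [this]
    linarith
  have c5 : (1 - r)⁻¹ / (4 / (1 - r)) = 1 / 4 := by field_simp
  have hcompl : (Gev X m n (4 / (1 - r)) T)ᶜ ⊆
      {a | 4 / (1 - r) < ∑ i ∈ range n, exp (V X (m + 1 + i) (n - 1 - i) a / 4)} ∪
      {a | T < ∑ i ∈ range n, ∑ k ∈ range (n - i), exp (V X (m + 1 + i) k a)} := by
    intro a ha
    by_contra hcon
    rw [Set.mem_union, not_or] at hcon
    apply ha
    exact ⟨not_lt.1 hcon.1, not_lt.1 hcon.2⟩
  have hle : P.real (Gev X m n (4 / (1 - r)) T)ᶜ ≤ 1 / 2 := by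
    refine (measureReal_mono hcompl).trans ((measureReal_union_le _ _).trans ?_)
    rw [c5] at c1
    rw [c3] at c2
    linarith
  rw [probReal_compl_eq_one_sub hGm] at hle
  linarith

theorem Inc.real_inter (h : Inc P X M₀ r) {S T : Set ℤ} (hST : Disjoint S T) {A B : Set Ω}
    (hA : MeasurableSet[Fil X S] A) (hB : MeasurableSet[Fil X T] B) :
    P.real (A ∩ B) = P.real A * P.real B := by
  have := (Indep_iff (Fil X S) (Fil X T) P).1 (h.indep_Fil hST) A B hA hB
  unfold Measure.real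
  rw [this, ENNReal.toReal_mul]

/-- pair estimate -/
theorem Inc.pair_le (h : Inc P X M₀ r) (b : ℤ) (j : ℕ) {H D : ℝ} (hH : 0 < H)
    (hD : 0 < D) (K : ℕ) :
    P.real (Fev X b H D K ∩ Fev X (b + j) H D K) ≤
      exp (-H / 2) * (exp (-H / 2) + D * r ^ j) := by
  set A : Set Ω := passed X b H j ∪ {a | exp (-V X b j a / 4) ≤ D} with hA
  have hVm : Measurable[Fil X (Set.Ioc b (b+j))] (fun a => exp (-V X b j a / 4)) :=
    measurable_exp.comp (((V_meas (X := X) subset_rfl).neg).div_const 4)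
  have hAm : MeasurableSet[Fil X (Set.Ioc b (b+j))] A :=
    MeasurableSet.union (passed_meas (n := j) subset_rfl H) (hVm measurableSet_Iic)
  have hFm : MeasurableSet[Fil X (Set.Ioc (b+j) (b+j+K))] (Fev X (b+j) H D K) :=
    Fev_meas subset_rfl H D
  have hdisj : Disjoint (Set.Ioc b (b+j)) (Set.Ioc (b+j) (b+j+K)) := by
    rw [Set.disjoint_left]
    intro x hx hx2
    rw [Set.mem_Ioc] at hx hx2
    omega
  have hsub : Fev X b H D K ∩ Fev X (b + j) H D K ⊆ A ∩ Fev X (b + j) H D K := by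
    rintro a ⟨⟨k, hk, hV, hs⟩, h2⟩
    refine ⟨?_, h2⟩
    by_cases hkj : k ≤ j
    · left; exact ⟨k, hkj, hV⟩
    · right
      push Not at hkj
      have : exp (-V X b j a / 4) ≤ ∑ i ∈ range (k + 1), exp (-V X b i a / 4) :=
        Finset.single_le_sum (f := fun i => exp (-V X b i a / 4)) (fun i _ => (exp_pos _).le)
          (Finset.mem_range.2 (by omega))
      exact this.trans hs
  have hind := h.real_inter hdisj hAm hFm
  have hPA : P.real A ≤ exp (-H / 2) + D * r ^ j := by
    refine (measureReal_union_le _ _).trans (add_le_add (h.passed_le b hH j) ?_)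
    have hsub2 : {a | exp (-V X b j a / 4) ≤ D} ⊆ {a | D⁻¹ ≤ exp (V X b j a / 4)} := by
      intro a ha
      have ha' : exp (-V X b j a / 4) ≤ D := ha
      have e : exp (V X b j a / 4) = (exp (-V X b j a / 4))⁻¹ := by
        rw [← exp_neg]; ring_nf
      change D⁻¹ ≤ exp (V X b j a / 4)
      rw [e]
      exact inv_anti₀ (exp_pos _) ha'
    refine (measureReal_mono hsub2).trans ?_
    have hmk := mul_meas_ge_le_integral_of_nonneg (μ := P)
      (f := fun a => exp (V X b j a / 4)) (Filter.Eventually.of_forall fun a => (exp_pos _).le)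
      (h.expV4_int b j) D⁻¹
    have h3 := hmk.trans (h.expV4 b j)
    rw [inv_mul_le_iff₀ hD] at h3
    exact h3
  calc P.real (Fev X b H D K ∩ Fev X (b + j) H D K) ≤ P.real (A ∩ Fev X (b + j) H D K) :=
        measureReal_mono hsub
    _ = P.real A * P.real (Fev X (b + j) H D K) := hind
    _ ≤ (exp (-H / 2) + D * r ^ j) * exp (-H / 2) :=
        mul_le_mul hPA (h.Fev_le _ hH D K) measureReal_nonneg
          (by have := h.r0; positivity)
    _ = _ := by ring

end

end Pool.Agent.helper97.Coll
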