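import Pool.Agent.helper97.Coll.Env3

namespace Pool.Agent.helper97.Coll

open Finset MeasureTheory ProbabilityTheory Real

set_option linter.unusedSectionVars false

noncomputable section

variable {Ω : Type*} [mΩ : MeasurableSpace Ω]
variable {P : Measure Ω} [IsProbabilityMeasure P] {X : ℤ → Ω → ℝ} {M₀ r : ℝ}

/-- second moment method -/
theorem second_moment {ι : Type*} (s : Finset ι) (A : ι → Set Ω) (hA : ∀ i, MeasurableSet (A i))
    {μ₀ C : ℝ} (hμ : 0 < μ₀) (hC : 0 < C) (h1 : μ₀ ≤ ∑ i ∈ s, P.real (A i))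
    (h2 : ∑ i ∈ s, ∑ j ∈ s, P.real (A i ∩ A j) ≤ C) :
    μ₀ ^ 2 / C ≤ P.real (⋃ i ∈ s, A i) := by
  classical
  set E : Set Ω := ⋃ i ∈ s, A i with hE
  have hEm : MeasurableSet E := Finset.measurableSet_biUnion s fun i _ => hA i
  set N : Ω → ℝ := fun a => ∑ i ∈ s, (A i).indicator (fun _ => (1:ℝ)) a with hN
  have hind : ∀ {B : Set Ω}, MeasurableSet B → Integrable (B.indicator (fun _ => (1:ℝ))) P :=
    fun hB => (integrable_const 1).indicator hB
  have hint : ∀ {B : Set Ω}, MeasurableSet B → ∫ a, B.indicator (fun _ => (1:ℝ)) a ∂P =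
      P.real B := fun hB => integral_indicator_one hB
  have hN2 : ∀ a, N a ^ 2 = ∑ i ∈ s, ∑ j ∈ s, (A i ∩ A j).indicator (fun _ => (1:ℝ)) a := by
    intro a
    simp only [hN]
    rw [sq, Finset.sum_mul_sum]
    refine Finset.sum_congr rfl fun i _ => Finset.sum_congr rfl fun j _ => ?_
    by_cases hi : a ∈ A i <;> by_cases hj : a ∈ A j <;> simp [hi, hj]
  set t : ℝ := C / μ₀ with ht
  have hpt : ∀ a, 0 ≤ N a ^ 2 - 2 * t * N a + t ^ 2 * E.indicator (fun _ => (1:ℝ)) a := by
    intro a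
    by_cases ha : a ∈ E
    · rw [Set.indicator_of_mem ha]
      nlinarith [sq_nonneg (N a - t)]
    · have : N a = 0 := by
        simp only [hN]
        refine Finset.sum_eq_zero fun i hi => ?_
        apply Set.indicator_of_notMem
        intro hai
        apply ha
        simp only [hE, Set.mem_iUnion]
        exact ⟨i, hi, hai⟩
      rw [this, Set.indicator_of_notMem ha]; simp
  have hNi : Integrable N P := integrable_finsetSum _ fun i _ => hind (hA i)
  have hN2i : Integrable (fun a => N a ^ 2) P := by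
    have : (fun a => N a ^ 2) = fun a => ∑ i ∈ s, ∑ j ∈ s,
        (A i ∩ A j).indicator (fun _ => (1:ℝ)) a := funext hN2
    rw [this]
    exact integrable_finsetSum _ fun i _ => integrable_finsetSum _ fun j _ =>
      hind ((hA i).inter (hA j))
  have e1 : ∫ a, N a ∂P = ∑ i ∈ s, P.real (A i) := by
    simp only [hN]
    rw [integral_finsetSum _ fun i _ => hind (hA i)]
    exact Finset.sum_congr rfl fun i _ => hint (hA i)
  have e2 : ∫ a, N a ^ 2 ∂P = ∑ i ∈ s, ∑ j ∈ s, P.real (A i ∩ A j) := by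
    simp only [hN2]
    rw [integral_finsetSum _ fun i _ => integrable_finsetSum _ fun j _ =>
      hind ((hA i).inter (hA j))]
    refine Finset.sum_congr rfl fun i _ => ?_
    rw [integral_finsetSum _ fun j _ => hind ((hA i).inter (hA j))]
    exact Finset.sum_congr rfl fun j _ => hint ((hA i).inter (hA j))
  have hfin : 0 ≤ ∫ a, (N a ^ 2 - 2 * t * N a + t ^ 2 * E.indicator (fun _ => (1:ℝ)) a) ∂P :=
    integral_nonneg hpt
  have i1 : Integrable (fun a => N a ^ 2 - 2 * t * N a) P := hN2i.sub (hNi.const_mul (2 * t))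
  have i2 : Integrable (fun a => t ^ 2 * E.indicator (fun _ => (1:ℝ)) a) P :=
    (hind hEm).const_mul (t ^ 2)
  have i3 : Integrable (fun a => 2 * t * N a) P := hNi.const_mul (2 * t)
  rw [integral_add i1 i2, integral_sub hN2i i3, integral_const_mul, integral_const_mul, hint hEm,
    e1, e2] at hfin
  have ht0 : 0 < t := div_pos hC hμ
  have h3 : 2 * t * μ₀ ≤ 2 * t * ∑ i ∈ s, P.real (A i) :=
    mul_le_mul_of_nonneg_left h1 (by positivity)
  have h4 : t * μ₀ = C := by rw [ht]; field_simp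
  have h5 : C ≤ t ^ 2 * P.real E := by nlinarith
  rw [div_le_iff₀ hC]
  have h6 : t ^ 2 * μ₀ ^ 2 = C ^ 2 := by rw [← h4]; ring
  have h7 : C * μ₀ ^ 2 ≤ P.real E * C ^ 2 := by
    rw [← h6]
    have := mul_le_mul_of_nonneg_right h5 (sq_nonneg μ₀)
    linarith
  have h8 : C * μ₀ ^ 2 ≤ C * (P.real E * C) := by
    calc C * μ₀ ^ 2 ≤ P.real E * C ^ 2 := h7
      _ = C * (P.real E * C) := by ring
  exact le_of_mul_le_mul_left h8 hC

/-- the event that the block `(m, m + 2L + K]` contains a good valley -/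
def Eev (X : ℤ → Ω → ℝ) (m : ℤ) (L : ℕ) (H D T : ℝ) (K : ℕ) : Set Ω :=
  ⋃ n ∈ Finset.Ioc L (2 * L), (Fev X (m + (n : ℕ)) H D K ∩ Gev X m n D T)

theorem Eev_meas {S : Set ℤ} {m : ℤ} {L K : ℕ} (hS : Set.Ioc m (m + 2 * L + K) ⊆ S) (H D T : ℝ) :
    MeasurableSet[Fil X S] (Eev X m L H D T K) := by
  unfold Eev
  refine @Finset.measurableSet_biUnion _ _ (Fil X S) _ _ fun n hn => ?_
  have hn' := Finset.mem_Ioc.1 hn
  refine MeasurableSet.inter (m := Fil X S) ?_ ?_
  · refine Fev_meas (Set.Subset.trans ?_ hS) _ _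
    intro x hx
    rw [Set.mem_Ioc] at hx ⊢
    omega
  · refine Gev_meas (Set.Subset.trans ?_ hS) _ _
    intro x hx
    rw [Set.mem_Ioc] at hx ⊢
    omega

theorem Inc.sum_dist (h : Inc P X M₀ r) (s : Finset ℕ) (n : ℕ) :
    ∑ j ∈ s, r ^ (Nat.dist n j) ≤ 2 * (1 - r)⁻¹ := by
  classical
  have h0 := h.r0
  rw [← Finset.sum_filter_add_sum_filter_not s (fun j => j ≤ n)]
  have e1 : ∑ j ∈ s.filter (fun j => j ≤ n), r ^ (Nat.dist n j) ≤ (1 - r)⁻¹ := by
    calc ∑ j ∈ s.filter (fun j => j ≤ n), r ^ (Nat.dist n j)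
        ≤ ∑ j ∈ range (n + 1), r ^ (n + 1 - 1 - j) := by
          have : ∑ j ∈ s.filter (fun j => j ≤ n), r ^ (Nat.dist n j) =
              ∑ j ∈ s.filter (fun j => j ≤ n), r ^ (n + 1 - 1 - j) := by
            refine Finset.sum_congr rfl fun j hj => ?_
            have := (Finset.mem_filter.1 hj).2
            rw [Nat.dist_eq_sub_of_le_right this]; rfl
          rw [this]
          refine Finset.sum_le_sum_of_subset_of_nonneg ?_ (fun j _ _ => by positivity)
          intro j hj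
          rw [Finset.mem_range]
          have := (Finset.mem_filter.1 hj).2
          omega
      _ = ∑ i ∈ range (n + 1), r ^ i := Finset.sum_range_reflect (fun i => r ^ i) (n + 1)
      _ ≤ _ := h.geom _
  have e2 : ∑ j ∈ s.filter (fun j => ¬ j ≤ n), r ^ (Nat.dist n j) ≤ (1 - r)⁻¹ := by
    set M := s.sup id + 1 with hM
    calc ∑ j ∈ s.filter (fun j => ¬ j ≤ n), r ^ (Nat.dist n j)
        ≤ ∑ j ∈ Finset.Ico n (n + M), r ^ (j - n) := by
          have : ∑ j ∈ s.filter (fun j => ¬ j ≤ n), r ^ (Nat.dist n j) =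
              ∑ j ∈ s.filter (fun j => ¬ j ≤ n), r ^ (j - n) := by
            refine Finset.sum_congr rfl fun j hj => ?_
            have := (Finset.mem_filter.1 hj).2
            rw [Nat.dist_eq_sub_of_le (by omega)]
          rw [this]
          refine Finset.sum_le_sum_of_subset_of_nonneg ?_ (fun j _ _ => by positivity)
          intro j hj
          have h1 := (Finset.mem_filter.1 hj)
          have h2 : j ≤ s.sup id := Finset.le_sup (f := id) h1.1
          rw [Finset.mem_Ico]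
          omega
      _ = ∑ i ∈ range M, r ^ i := by
          rw [Finset.sum_Ico_eq_sum_range]
          simp
      _ ≤ _ := h.geom _
  linarith

theorem Inc.pair_le' (h : Inc P X M₀ r) (m : ℤ) (n n' : ℕ) {H D : ℝ} (hH : 0 < H)
    (hD : 1 ≤ D) (K : ℕ) :
    P.real (Fev X (m + (n : ℕ)) H D K ∩ Fev X (m + (n' : ℕ)) H D K) ≤
      exp (-H / 2) * (exp (-H / 2) + D * r ^ (Nat.dist n n')) := by
  have main : ∀ n n' : ℕ, n ≤ n' →
      P.real (Fev X (m + (n : ℕ)) H D K ∩ Fev X (m + (n' : ℕ)) H D K) ≤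
      exp (-H / 2) * (exp (-H / 2) + D * r ^ (Nat.dist n n')) := by
    intro n n' hle
    obtain ⟨j, rfl⟩ := Nat.exists_eq_add_of_le hle
    have := h.pair_le (m + n) j hH (by linarith) K
    have e : m + ((n + j : ℕ) : ℤ) = m + n + j := by push_cast; ring
    rw [e, Nat.dist_eq_sub_of_le hle, Nat.add_sub_cancel_left]
    exact this
  rcases le_total n n' with hle | hle
  · exact main n n' hle
  · rw [Set.inter_comm, Nat.dist_comm]
    exact main n' n hle

/-- Uniform lower bound for the probability that a block contains a good valley. -/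
theorem Inc.Eev_ge (h : Inc P X M₀ r) {β : ℝ} (hβ : 2 ≤ β) (L : ℕ) (hL : 1 ≤ L) :
    ∃ K : ℕ, ∀ m : ℤ, (exp (-M₀ / 2) / (4 * β)) ^ 2 / (1 + 4 / (1 - r) * (2 * (1 - r)⁻¹)) ≤
      P.real (Eev X m L (2 * Real.log (β * L)) (4 / (1 - r)) (384 * (L:ℝ) ^ 2 / (1 - r)) K) := by
  have hr0 := h.r0
  have hr1 := h.r1
  have hr : 0 < 1 - r := by linarith
  have hL' : (1:ℝ) ≤ L := by exact_mod_cast hL
  have hβL : 1 < β * L := by nlinarith
  set H : ℝ := 2 * Real.log (β * L) with hH
  have hHpos : 0 < H := by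
    have := Real.log_pos hβL
    positivity
  have eH : exp (-H / 2) = 1 / (β * L) := by
    rw [hH, neg_div, mul_div_cancel_left₀ _ (two_ne_zero), exp_neg,
      Real.exp_log (by linarith), one_div]
  set D : ℝ := 4 / (1 - r) with hD
  have hD1 : 1 ≤ D := by rw [hD, le_div_iff₀ hr]; linarith
  have hD0 : 0 < D := by linarith
  -- choose K
  obtain ⟨K, hK⟩ : ∃ K : ℕ, exp (-H / 4) * r ^ K ≤ exp (-H / 2) / 4 := by
    obtain ⟨K, hK⟩ := exists_pow_lt_of_lt_one (y := r) (x := exp (-H/4) / 4) (by positivity) hr1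
    refine ⟨K, ?_⟩
    have : exp (-H / 4) * r ^ K ≤ exp (-H / 4) * (exp (-H/4) / 4) :=
      mul_le_mul_of_nonneg_left hK.le (exp_pos _).le
    refine this.trans (le_of_eq ?_)
    rw [← mul_div_assoc, ← exp_add]
    ring_nf
  refine ⟨K, fun m => ?_⟩
  have hF : ∀ b : ℤ, exp (-M₀ / 2) * exp (-H / 2) / 2 ≤ P.real (Fev X b H D K) := by
    intro b
    have h1 := h.Fev_ge b hHpos hD0 K
    have h2 : D⁻¹ * (exp (-H / 2) * (1 - r)⁻¹) = exp (-H/2) / 4 := by
      rw [hD]; field_simp
    rw [h2] at h1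
    have h3 : exp (-H / 2) / 2 ≤ exp (M₀ / 2) * P.real (Fev X b H D K) := by linarith
    have h4 : exp (-M₀ / 2) * (exp (-H / 2) / 2) ≤
        exp (-M₀ / 2) * (exp (M₀ / 2) * P.real (Fev X b H D K)) :=
      mul_le_mul_of_nonneg_left h3 (exp_pos _).le
    rw [← mul_assoc, ← exp_add] at h4
    have h5 : -M₀ / 2 + M₀ / 2 = 0 := by ring
    rw [h5, exp_zero, one_mul] at h4
    linarith
  set T : ℝ := 384 * (L:ℝ) ^ 2 / (1 - r) with hT
  have hG : ∀ n ∈ Finset.Ioc L (2 * L), 1 / 2 ≤ P.real (Gev X m n D T) := by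
    intro n hn
    have hn' := Finset.mem_Ioc.1 hn
    refine h.Gev_ge m n (by omega) ?_
    rw [hT]
    apply div_le_div_of_nonneg_right _ hr.le
    have : (n:ℝ) ≤ 2 * L := by exact_mod_cast hn'.2
    have h0 : (0:ℝ) ≤ n := by positivity
    nlinarith
  unfold Eev
  refine second_moment (P := P) (Finset.Ioc L (2*L)) _ ?_ ?_ ?_ ?_ ?_
  · intro n
    refine MeasurableSet.inter ?_ ?_
    · exact h.Fil_le _ _ (Fev_meas (X := X) (T := Set.univ) (Set.subset_univ _) H D)
    · exact h.Fil_le _ _ (Gev_meas (X := X) (T := Set.univ) (Set.subset_univ _) D T)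
  · positivity
  · positivity
  · have hterm : ∀ n ∈ Finset.Ioc L (2*L), exp (-M₀ / 2) * (1 / (β * L)) / 2 * (1 / 2) ≤
        P.real (Fev X (m + (n:ℕ)) H D K ∩ Gev X m n D T) := by
      intro n hn
      have hdisj : Disjoint (Set.Ioc (m + (n:ℕ)) (m + n + K)) (Set.Ioc m (m + n)) := by
        rw [Set.disjoint_left]
        intro x hx hx2
        rw [Set.mem_Ioc] at hx hx2
        omega
      rw [h.real_inter hdisj (Fev_meas subset_rfl H D) (Gev_meas subset_rfl D T)]
      have h1 := hF (m + (n:ℕ))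
      rw [eH] at h1
      exact mul_le_mul h1 (hG n hn) (by norm_num) measureReal_nonneg
    calc exp (-M₀ / 2) / (4 * β) = ∑ n ∈ Finset.Ioc L (2*L),
          exp (-M₀ / 2) * (1 / (β * L)) / 2 * (1 / 2) := by
          rw [Finset.sum_const, Nat.card_Ioc, nsmul_eq_mul]
          have : 2 * L - L = L := by omega
          rw [this]
          field_simp
          ring
      _ ≤ _ := Finset.sum_le_sum hterm
  · have hpair : ∀ n ∈ Finset.Ioc L (2*L), ∑ n' ∈ Finset.Ioc L (2*L),
        P.real ((Fev X (m + (n:ℕ)) H D K ∩ Gev X m n D T) ∩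
          (Fev X (m + (n':ℕ)) H D K ∩ Gev X m n' D T)) ≤
        1 / (β * L) * (L * (1 / (β * L)) + D * (2 * (1 - r)⁻¹)) := by
      intro n hn
      calc ∑ n' ∈ Finset.Ioc L (2*L), P.real ((Fev X (m + (n:ℕ)) H D K ∩ Gev X m n D T) ∩
          (Fev X (m + (n':ℕ)) H D K ∩ Gev X m n' D T))
          ≤ ∑ n' ∈ Finset.Ioc L (2*L), exp (-H / 2) * (exp (-H / 2) + D * r ^ (Nat.dist n n')) := by
            refine Finset.sum_le_sum fun n' _ => ?_
            refine le_trans (measureReal_mono ?_) (h.pair_le' m n n' hHpos hD1 K)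
            rintro a ⟨⟨h1, _⟩, ⟨h2, _⟩⟩
            exact ⟨h1, h2⟩
        _ = exp (-H / 2) * (L * exp (-H / 2) + D * ∑ n' ∈ Finset.Ioc L (2*L),
              r ^ (Nat.dist n n')) := by
            rw [← Finset.mul_sum, Finset.sum_add_distrib, ← Finset.mul_sum, Finset.sum_const,
              Nat.card_Ioc, nsmul_eq_mul]
            have : 2 * L - L = L := by omega
            rw [this]
        _ ≤ exp (-H / 2) * (L * exp (-H / 2) + D * (2 * (1 - r)⁻¹)) := by
            apply mul_le_mul_of_nonneg_left _ (exp_pos _).le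
            have := mul_le_mul_of_nonneg_left (h.sum_dist (Finset.Ioc L (2*L)) n) hD0.le
            linarith
        _ = _ := by rw [eH]
    calc _ ≤ ∑ n ∈ Finset.Ioc L (2*L), 1 / (β * L) * (L * (1 / (β * L)) + D * (2 * (1 - r)⁻¹)) :=
          Finset.sum_le_sum hpair
      _ = L * (1 / (β * L) * (L * (1 / (β * L)) + D * (2 * (1 - r)⁻¹))) := by
          rw [Finset.sum_const, Nat.card_Ioc, nsmul_eq_mul]
          have : 2 * L - L = L := by omega
          rw [this]
      _ = 1 / β * (1 / β + D * (2 * (1 - r)⁻¹)) := by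
          field_simp
      _ ≤ 1 * (1 + D * (2 * (1 - r)⁻¹)) := by
          have hb1 : 1 / β ≤ 1 := by rw [div_le_one (by linarith)]; linarith
          have hb0 : 0 ≤ 1 / β := by positivity
          have hp : 0 ≤ D * (2 * (1 - r)⁻¹) := by positivity
          apply mul_le_mul hb1 (by linarith) (by positivity) (by norm_num)
      _ = _ := by rw [one_mul]

end

end Pool.Agent.helper97.Coll
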