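import Pool.Agent.helper97.Coll.Chain2

namespace Pool.Agent.helper97.Coll

open Finset

noncomputable section

/-- joint states of `d` walks in the random environment and one simple random walk -/
abbrev St (d : ℕ) := (Fin d → ℤ) × ℤ

/-- one-step probabilities of the walk in environment `ω` -/
def sp (ω : ℤ → ℝ) (x y : ℤ) : ℝ := if y = x + 1 then ω x else if y = x - 1 then 1 - ω x else 0

/-- the two neighbours -/
def nb (x : ℤ) : Finset ℤ := {x + 1, x - 1}

theorem sum_nb (ω : ℤ → ℝ) (f : ℤ → ℝ) (x : ℤ) : ∑ y ∈ nb x, sp ω x y * f y = K ω f x := by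
  unfold nb K
  rw [Finset.sum_pair (by omega)]
  have : ¬ (x - 1 = x + 1) := by omega
  simp [sp, this]

theorem sp_nonneg {ω : ℤ → ℝ} (h0 : ∀ x, 0 ≤ ω x) (h1 : ∀ x, ω x ≤ 1) (x y : ℤ) :
    0 ≤ sp ω x y := by
  unfold sp
  split_ifs
  · exact h0 x
  · exact sub_nonneg.2 (h1 x)
  · exact le_rfl

theorem sp_eq_zero {ω : ℤ → ℝ} {x y : ℤ} (h : y ∉ nb x) : sp ω x y = 0 := by
  unfold nb at h
  simp only [Finset.mem_insert, Finset.mem_singleton, not_or] at h
  unfold sp
  rw [if_neg h.1, if_neg h.2]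

variable {d : ℕ} {ω : ℤ → ℝ}

/-- joint one-step probabilities -/
def jp (ω : ℤ → ℝ) (S T : St d) : ℝ := (∏ j, sp ω (S.1 j) (T.1 j)) * sp half S.2 T.2

/-- neighbours of a joint state -/
def jnb (S : St d) : Finset (St d) := Fintype.piFinset (fun j => nb (S.1 j)) ×ˢ nb S.2

/-- joint transition operator -/
def KK (ω : ℤ → ℝ) (F : St d → ℝ) (S : St d) : ℝ := ∑ T ∈ jnb S, jp ω S T * F T

theorem jp_nonneg (h0 : ∀ x, 0 ≤ ω x) (h1 : ∀ x, ω x ≤ 1) (S T : St d) : 0 ≤ jp ω S T :=
  mul_nonneg (Finset.prod_nonneg fun j _ => sp_nonneg h0 h1 _ _)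
    (sp_nonneg half_nonneg half_le_one _ _)

theorem jp_eq_zero {S T : St d} (h : T ∉ jnb S) : jp ω S T = 0 := by
  unfold jnb at h
  rw [Finset.mem_product, not_and_or] at h
  unfold jp
  rcases h with h | h
  · rw [Fintype.mem_piFinset] at h
    push Not at h
    obtain ⟨j, hj⟩ := h
    rw [Finset.prod_eq_zero (Finset.mem_univ j) (sp_eq_zero hj), zero_mul]
  · rw [sp_eq_zero h, mul_zero]

/-- product structure -/
theorem KK_prod (f : Fin d → ℤ → ℝ) (g : ℤ → ℝ) (S : St d) :
    KK ω (fun T => (∏ j, f j (T.1 j)) * g T.2) S = (∏ j, K ω (f j) (S.1 j)) * K half g S.2 := by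
  unfold KK jnb jp
  rw [Finset.sum_product]
  have h1 : ∏ j, K ω (f j) (S.1 j) = ∑ x ∈ Fintype.piFinset (fun j => nb (S.1 j)),
      ∏ j, (sp ω (S.1 j) (x j) * f j (x j)) := by
    have h2 := Finset.prod_univ_sum (fun j => nb (S.1 j)) (fun j y => sp ω (S.1 j) y * f j y)
    refine Eq.trans ?_ h2
    exact Finset.prod_congr rfl fun j _ => (sum_nb ω (f j) (S.1 j)).symm
  rw [h1, ← sum_nb half g S.2, Finset.sum_mul_sum]
  refine Finset.sum_congr rfl fun x _ => Finset.sum_congr rfl fun t _ => ?_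
  simp only
  rw [Finset.prod_mul_distrib]
  ring

theorem KK_mono (h0 : ∀ x, 0 ≤ ω x) (h1 : ∀ x, ω x ≤ 1) {F G : St d → ℝ} (S : St d)
    (hFG : ∀ T ∈ jnb S, F T ≤ G T) : KK ω F S ≤ KK ω G S :=
  Finset.sum_le_sum fun T hT => mul_le_mul_of_nonneg_left (hFG T hT) (jp_nonneg h0 h1 S T)

theorem KK_const (c : ℝ) (S : St d) : KK ω (fun _ => c) S = c := by
  have := KK_prod (ω := ω) (d := d) (fun _ _ => (1:ℝ)) (fun _ => c) S
  simp only [Finset.prod_const_one, one_mul, K_const] at this
  exact this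

theorem KK_add (F G : St d → ℝ) (S : St d) :
    KK ω (fun T => F T + G T) S = KK ω F S + KK ω G S := by
  unfold KK
  rw [← Finset.sum_add_distrib]
  exact Finset.sum_congr rfl fun T _ => by ring

theorem KK_smul (c : ℝ) (F : St d → ℝ) (S : St d) :
    KK ω (fun T => c * F T) S = c * KK ω F S := by
  unfold KK
  rw [Finset.mul_sum]
  exact Finset.sum_congr rfl fun T _ => by ring

theorem KK_sum {ι : Type*} (s : Finset ι) (F : ι → St d → ℝ) (S : St d) :
    KK ω (fun T => ∑ i ∈ s, F i T) S = ∑ i ∈ s, KK ω (F i) S := by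
  unfold KK
  simp only [Finset.mul_sum]
  rw [Finset.sum_comm]

theorem KK_nonneg (h0 : ∀ x, 0 ≤ ω x) (h1 : ∀ x, ω x ≤ 1) {F : St d → ℝ} (S : St d)
    (hF : ∀ T ∈ jnb S, 0 ≤ F T) : 0 ≤ KK ω F S :=
  Finset.sum_nonneg fun T hT => mul_nonneg (jp_nonneg h0 h1 S T) (hF T hT)

/-- a joint state is a collision when all walkers are at the same place -/
def coll (S : St d) : Prop := ∀ j, S.1 j = S.2

/-- probability of no collision during `[0, M]` -/
def nc (ω : ℤ → ℝ) : ℕ → St d → ℝ
  | 0 => fun S => by classical exact if coll S then 0 else 1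
  | M + 1 => fun S => by classical exact if coll S then 0 else KK ω (nc ω M) S

theorem nc_zero_of_coll {S : St d} (h : coll S) (M : ℕ) : nc ω M S = 0 := by
  cases M <;> simp [nc, h]

theorem nc_zero_of_not {S : St d} (h : ¬ coll S) : nc ω 0 S = 1 := by simp [nc, h]

theorem nc_succ_of_not {S : St d} (h : ¬ coll S) (M : ℕ) :
    nc ω (M + 1) S = KK ω (nc ω M) S := by simp [nc, h]

theorem nc_nonneg (h0 : ∀ x, 0 ≤ ω x) (h1 : ∀ x, ω x ≤ 1) (M : ℕ) (S : St d) :
    0 ≤ nc ω M S := by
  induction M generalizing S with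
  | zero =>
    by_cases h : coll S
    · rw [nc_zero_of_coll h]
    · rw [nc_zero_of_not h]; norm_num
  | succ M ih =>
    by_cases h : coll S
    · rw [nc_zero_of_coll h]
    · rw [nc_succ_of_not h]; exact KK_nonneg h0 h1 S fun T _ => ih T

theorem nc_le_one (h0 : ∀ x, 0 ≤ ω x) (h1 : ∀ x, ω x ≤ 1) (M : ℕ) (S : St d) :
    nc ω M S ≤ 1 := by
  induction M generalizing S with
  | zero =>
    by_cases h : coll S
    · rw [nc_zero_of_coll h]; norm_num
    · rw [nc_zero_of_not h]
  | succ M ih =>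
    by_cases h : coll S
    · rw [nc_zero_of_coll h]; norm_num
    · rw [nc_succ_of_not h]
      calc KK ω (nc ω M) S ≤ KK ω (fun _ => 1) S := KK_mono h0 h1 S fun T _ => ih T
        _ = 1 := KK_const 1 S

theorem nc_antitone_succ (h0 : ∀ x, 0 ≤ ω x) (h1 : ∀ x, ω x ≤ 1) (M : ℕ) (S : St d) :
    nc ω (M + 1) S ≤ nc ω M S := by
  induction M generalizing S with
  | zero =>
    by_cases h : coll S
    · rw [nc_zero_of_coll h, nc_zero_of_coll h]
    · rw [nc_zero_of_not h]; exact nc_le_one h0 h1 _ _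
  | succ M ih =>
    by_cases h : coll S
    · rw [nc_zero_of_coll h, nc_zero_of_coll h]
    · rw [nc_succ_of_not h, nc_succ_of_not h]; exact KK_mono h0 h1 S fun T _ => ih T

theorem nc_antitone (h0 : ∀ x, 0 ≤ ω x) (h1 : ∀ x, ω x ≤ 1) (S : St d) :
    Antitone (fun M => nc ω M S) := antitone_nat_of_succ_le (fun M => nc_antitone_succ h0 h1 M S)

/-- first-hitting probabilities of `b` at time exactly `i`, simple random walk -/
def fh (b : ℤ) : ℕ → ℤ → ℝ
  | 0 => pt b
  | i + 1 => fun t => if t = b then 0 else K half (fh b i) t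

theorem fh_nonneg (b : ℤ) (i : ℕ) (t : ℤ) : 0 ≤ fh b i t := by
  induction i generalizing t with
  | zero => exact pt_nonneg _ _
  | succ i ih =>
    simp only [fh]
    split_ifs
    · norm_num
    · unfold K half
      have := ih (t+1); have := ih (t-1)
      linarith

theorem fh_self_succ (b : ℤ) (i : ℕ) : fh b (i + 1) b = 0 := by simp [fh]

theorem fh_parity (b : ℤ) (i : ℕ) (t : ℤ) (h : ¬ Even ((i : ℤ) + t - b)) : fh b i t = 0 := by
  induction i generalizing t with
  | zero =>
    have : t ≠ b := by rintro rfl; simp at h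
    simp [fh, pt, this]
  | succ i ih =>
    simp only [fh]
    split_ifs
    · rfl
    · unfold K
      rw [ih (t+1) (by
        intro h2; apply h
        have : ((i+1:ℕ):ℤ) + t - b = (i:ℤ) + (t+1) - b := by push_cast; ring
        rw [this]; exact h2), ih (t-1) (by
        intro h2; apply h
        have : ((i+1:ℕ):ℤ) + t - b = ((i:ℤ) + (t-1) - b) + 2 := by push_cast; ring
        rw [this]; exact h2.add even_two)]
      ring

theorem K_fh_parity (b : ℤ) (n i : ℕ) (t : ℤ) (h : ¬ Even ((n : ℤ) + i + t - b)) :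
    (K half)^[n] (fh b i) t = 0 := by
  induction n generalizing t with
  | zero => exact fh_parity b i t (by simpa using h)
  | succ n ih =>
    rw [Function.iterate_succ_apply']
    unfold K at ih ⊢
    rw [ih (t+1) (by
        intro h2; apply h
        have : ((n+1:ℕ):ℤ) + i + t - b = (n:ℤ) + i + (t+1) - b := by push_cast; ring
        rw [this]; exact h2), ih (t-1) (by
        intro h2; apply h
        have : ((n+1:ℕ):ℤ) + i + t - b = ((n:ℤ) + i + (t-1) - b) + 2 := by push_cast; ring
        rw [this]; exact h2.add even_two)]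
    ring

theorem hit_half_eq_sum (b : ℤ) (m : ℕ) (t : ℤ) :
    hit half b m t = ∑ i ∈ range (m + 1), fh b i t := by
  induction m generalizing t with
  | zero => simp [hit, fh]
  | succ m ih =>
    rw [Finset.sum_range_succ']
    by_cases ht : t = b
    · subst ht
      rw [hit_self]
      simp [fh, pt]
    · have e1 : hit half b (m+1) t = K half (hit half b m) t := by simp [hit, ht]
      have e2 : fh b 0 t = 0 := by simp [fh, pt, ht]
      rw [e1, e2, add_zero]
      unfold K
      rw [ih, ih, Finset.mul_sum, Finset.mul_sum, ← Finset.sum_add_distrib]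
      refine Finset.sum_congr rfl fun i _ => ?_
      simp only [fh, if_neg ht, K]

/-- probability that simple random walk hits `b` for the first time within `k` steps and all
the other walkers are at `b` at that time -/
def G (ω : ℤ → ℝ) (b : ℤ) (k : ℕ) (S : St d) : ℝ :=
  ∑ i ∈ range (k + 1), (∏ j, q ω i (S.1 j) b) * fh b i S.2

theorem KK_iter_prod (n : ℕ) (f : Fin d → ℤ → ℝ) (g : ℤ → ℝ) :
    (KK ω)^[n] (fun T => (∏ j, f j (T.1 j)) * g T.2) =
      fun S => (∏ j, (K ω)^[n] (f j) (S.1 j)) * (K half)^[n] g S.2 := by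
  induction n with
  | zero => rfl
  | succ n ih =>
    rw [Function.iterate_succ_apply', ih]
    funext S
    rw [KK_prod]
    simp only [Function.iterate_succ_apply']

theorem KK_iter_sum {ι : Type*} (s : Finset ι) (n : ℕ) (F : ι → St d → ℝ) :
    (KK ω)^[n] (fun T => ∑ i ∈ s, F i T) = fun S => ∑ i ∈ s, (KK ω)^[n] (F i) S := by
  induction n with
  | zero => rfl
  | succ n ih =>
    rw [Function.iterate_succ_apply', ih]
    funext S
    rw [KK_sum]
    simp only [Function.iterate_succ_apply']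

theorem KK_iter_mono (h0 : ∀ x, 0 ≤ ω x) (h1 : ∀ x, ω x ≤ 1) (n : ℕ) {F G : St d → ℝ}
    (hFG : ∀ T, F T ≤ G T) (S : St d) : (KK ω)^[n] F S ≤ (KK ω)^[n] G S := by
  induction n generalizing S with
  | zero => exact hFG S
  | succ n ih =>
    rw [Function.iterate_succ_apply', Function.iterate_succ_apply']
    exact KK_mono h0 h1 S fun T _ => ih T

theorem G_le (h0 : ∀ x, 0 ≤ ω x) (h1 : ∀ x, ω x ≤ 1) (b : ℤ) (k : ℕ) (S : St d) :
    G ω b k S ≤ 1 - nc ω k S := by
  have hb : ∀ (k : ℕ) (S : St d), S.2 = b → G ω b k S = ∏ j, pt b (S.1 j) := by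
    intro k S hS
    unfold G
    rw [Finset.sum_range_succ']
    rw [Finset.sum_eq_zero (fun i _ => by rw [hS, fh_self_succ, mul_zero]), zero_add, hS]
    simp [fh, pt, q]
  have hbcoll : ∀ (k : ℕ) (S : St d), S.2 = b → G ω b k S ≤ 1 - nc ω k S := by
    intro k S hS
    rw [hb k S hS]
    by_cases hc : coll S
    · rw [nc_zero_of_coll hc, sub_zero]
      apply Finset.prod_le_one
      · intro j _; exact pt_nonneg _ _
      · intro j _; unfold pt; split_ifs <;> norm_num
    · have : ∏ j, pt b (S.1 j) = 0 := by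
        unfold coll at hc
        push Not at hc
        obtain ⟨j, hj⟩ := hc
        apply Finset.prod_eq_zero (Finset.mem_univ j)
        rw [hS] at hj
        simp [pt, hj]
      rw [this]
      have := nc_le_one h0 h1 k S
      linarith
  induction k generalizing S with
  | zero =>
    by_cases hS : S.2 = b
    · exact hbcoll 0 S hS
    · have : G ω b 0 S = 0 := by
        unfold G; simp [fh, pt, hS]
      rw [this]
      have := nc_le_one h0 h1 0 S
      linarith
  | succ k ih =>
    by_cases hS : S.2 = b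
    · exact hbcoll (k+1) S hS
    · have e : G ω b (k+1) S = KK ω (G ω b k) S := by
        have e1 : G ω b k = fun T : St d =>
            ∑ i ∈ range (k + 1), (∏ j, q ω i (T.1 j) b) * fh b i T.2 := rfl
        rw [e1, KK_sum]
        unfold G
        rw [Finset.sum_range_succ']
        have e0 : fh b 0 S.2 = 0 := by simp [fh, pt, hS]
        rw [e0, mul_zero, add_zero]
        refine Finset.sum_congr rfl fun i _ => ?_
        rw [KK_prod (ω := ω) (fun _ x => q ω i x b) (fh b i) S]
        congr 1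
        · refine Finset.prod_congr rfl fun j _ => ?_
          unfold q; rw [Function.iterate_succ_apply']
        · simp [fh, hS]
      rw [e]
      by_cases hc : coll S
      · rw [nc_zero_of_coll hc, sub_zero]
        calc KK ω (G ω b k) S ≤ KK ω (fun _ => 1) S := KK_mono h0 h1 S fun T _ => by
              have h2 := ih T; have h3 := nc_nonneg h0 h1 k T; linarith
          _ = 1 := KK_const 1 S
      · rw [nc_succ_of_not hc]
        calc KK ω (G ω b k) S ≤ KK ω (fun T => 1 + (-1) * nc ω k T) S :=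
              KK_mono h0 h1 S fun T _ => by have := ih T; linarith
          _ = 1 - KK ω (nc ω k) S := by
            rw [KK_add, KK_const, KK_smul]; ring

theorem KK_iter_one_sub_nc (h0 : ∀ x, 0 ≤ ω x) (h1 : ∀ x, ω x ≤ 1) (n k : ℕ) (S : St d) :
    (KK ω)^[n] (fun T => 1 - nc ω k T) S ≤ 1 - nc ω (n + k) S := by
  induction n generalizing S with
  | zero => simp
  | succ n ih =>
    rw [Function.iterate_succ_apply']
    have h2 : KK ω ((KK ω)^[n] (fun T => 1 - nc ω k T)) S ≤
        KK ω (fun T => 1 + (-1) * nc ω (n + k) T) S :=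
      KK_mono h0 h1 S fun T _ => by have := ih T; linarith
    refine h2.trans ?_
    rw [KK_add, KK_const, KK_smul]
    have : n + 1 + k = (n + k) + 1 := by ring
    rw [this]
    by_cases hc : coll S
    · rw [nc_zero_of_coll hc]
      have : 0 ≤ KK ω (nc ω (n+k)) S := KK_nonneg h0 h1 S fun T _ => nc_nonneg h0 h1 _ _
      linarith
    · rw [nc_succ_of_not hc]; linarith

/-- Main collision estimate. -/
theorem nc_le (h0 : ∀ x, 0 ≤ ω x) (h1 : ∀ x, ω x ≤ 1) (b : ℤ) (s : ℕ) (hs : 0 < s)
    (κ : ℝ) (hκ : 0 ≤ κ) (S : St d) (hz : |S.2 - b| ≤ s) (hpar : ∀ j, Even (S.1 j - S.2))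
    (hq : ∀ j, ∀ n : ℕ, s ^ 2 ≤ n → n ≤ 145 * s ^ 2 → Even ((n : ℤ) + S.1 j - b) →
      κ ≤ q ω n (S.1 j) b) :
    nc ω (145 * s ^ 2) S ≤ 1 - κ ^ d / 3 := by
  have hlen : 145 * s ^ 2 = s ^ 2 + 144 * s ^ 2 := by ring
  have hA : (KK ω)^[s ^ 2] (G ω b (144 * s ^ 2)) S ≤ 1 - nc ω (145 * s ^ 2) S := by
    rw [hlen]
    exact (KK_iter_mono h0 h1 _ (G_le h0 h1 b _) S).trans (KK_iter_one_sub_nc h0 h1 _ _ S)
  have hB : κ ^ d * (K half)^[s ^ 2] (hit half b (144 * s ^ 2)) S.2 ≤
      (KK ω)^[s ^ 2] (G ω b (144 * s ^ 2)) S := by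
    have e1 : G ω b (144 * s ^ 2) = fun T : St d =>
        ∑ i ∈ range (144 * s ^ 2 + 1), (∏ j, q ω i (T.1 j) b) * fh b i T.2 := rfl
    have e2 : hit half b (144 * s ^ 2) = fun t => ∑ i ∈ range (144 * s ^ 2 + 1), fh b i t := by
      funext t; exact hit_half_eq_sum b _ t
    rw [e1, KK_iter_sum, e2, K_iter_sum, Finset.mul_sum]
    refine Finset.sum_le_sum fun i hi => ?_
    have e3 := KK_iter_prod (ω := ω) (s ^ 2) (fun _ : Fin d => fun x => q ω i x b) (fh b i)
    rw [e3]
    simp only
    by_cases hp : Even (((s ^ 2 : ℕ) : ℤ) + i + S.2 - b)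
    · apply mul_le_mul_of_nonneg_right
      · have hc : κ ^ d = ∏ _j : Fin d, κ := by simp
        rw [hc]
        refine Finset.prod_le_prod (fun _ _ => hκ) fun j _ => ?_
        have e4 : (K ω)^[s ^ 2] (fun x => q ω i x b) (S.1 j) = q ω (s ^ 2 + i) (S.1 j) b := by
          unfold q; rw [Function.iterate_add_apply]
        rw [e4]
        apply hq j
        · omega
        · have := Finset.mem_range.1 hi; omega
        · have : (((s ^ 2 + i : ℕ) : ℤ) + S.1 j - b) =
              (((s ^ 2 : ℕ) : ℤ) + i + S.2 - b) + (S.1 j - S.2) := by push_cast; ring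
          rw [this]
          exact hp.add (hpar j)
      · exact K_iter_nonneg half_nonneg half_le_one _ (fh_nonneg b i) _
    · rw [K_fh_parity b _ _ _ hp]; simp
  have hC := srw_window s hs b S.2 hz
  have hκd : 0 ≤ κ ^ d := pow_nonneg hκ d
  nlinarith

end

end Pool.Agent.helper97.Coll
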