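import Pool.Agent.helper97.Coll.Joint

namespace Pool.Agent.helper97.Coll

open Finset MeasureTheory Filter
open scoped ENNReal Topology

noncomputable section

variable {d : ℕ} {ω : ℤ → ℝ}

/-- all walkers have the same parity -/
def par (S : St d) : Prop := ∀ j, Even (S.1 j - S.2)

theorem par_of_mem {S T : St d} (hS : par S) (hT : T ∈ jnb S) : par T := by
  intro j
  unfold jnb at hT
  rw [Finset.mem_product, Fintype.mem_piFinset] at hT
  have h1 := hT.1 j
  have h2 := hT.2
  have h3 := hS j
  unfold nb at h1 h2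
  simp only [Finset.mem_insert, Finset.mem_singleton] at h1 h2
  rw [Int.even_iff] at h3 ⊢
  omega

/-- if from every same-parity state a collision occurs with probability at least `c`, then
a collision occurs almost surely -/
theorem nc_tendsto_zero (h0 : ∀ x, 0 ≤ ω x) (h1 : ∀ x, ω x ≤ 1) (c : ℝ) (hc : 0 < c)
    (hlow : ∀ S : St d, par S → ∃ M, nc ω M S ≤ 1 - c) (S : St d) (hS : par S) :
    Tendsto (fun M => nc ω M S) atTop (𝓝 0) := by
  classical
  set L : St d → ℝ := fun S => ⨅ M, nc ω M S with hL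
  have hbdd : ∀ S : St d, BddBelow (Set.range fun M => nc ω M S) := fun S =>
    ⟨0, by rintro _ ⟨M, rfl⟩; exact nc_nonneg h0 h1 M S⟩
  have htend : ∀ S : St d, Tendsto (fun M => nc ω M S) atTop (𝓝 (L S)) := fun S =>
    tendsto_atTop_ciInf (nc_antitone h0 h1 S) (hbdd S)
  have hL0 : ∀ S, 0 ≤ L S := fun S => le_ciInf fun M => nc_nonneg h0 h1 M S
  have hLle : ∀ S M, L S ≤ nc ω M S := fun S M => ciInf_le (hbdd S) M
  have hfix : ∀ S, ¬ coll S → L S = KK ω L S := by
    intro S hcS
    have t1 : Tendsto (fun M => nc ω (M+1) S) atTop (𝓝 (L S)) :=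
      (htend S).comp (tendsto_add_atTop_nat 1)
    have t2 : Tendsto (fun M => KK ω (nc ω M) S) atTop (𝓝 (KK ω L S)) := by
      unfold KK
      exact tendsto_finsetSum _ fun T _ => (htend T).const_mul _
    have : (fun M => nc ω (M+1) S) = fun M => KK ω (nc ω M) S := by
      funext M; exact nc_succ_of_not hcS M
    rw [this] at t1
    exact tendsto_nhds_unique t1 t2
  have hind : ∀ N : ℕ, ∀ S, par S → L S ≤ (1 - c) * nc ω N S := by
    intro N
    induction N with
    | zero =>
      intro S hS
      by_cases hcS : coll S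
      · rw [nc_zero_of_coll hcS, mul_zero]
        have := hLle S 0
        rwa [nc_zero_of_coll hcS] at this
      · rw [nc_zero_of_not hcS, mul_one]
        obtain ⟨M, hM⟩ := hlow S hS
        exact (hLle S M).trans hM
    | succ N ih =>
      intro S hS
      by_cases hcS : coll S
      · rw [nc_zero_of_coll hcS, mul_zero]
        have := hLle S 0
        rwa [nc_zero_of_coll hcS] at this
      · rw [nc_succ_of_not hcS, hfix S hcS, ← KK_smul]
        exact KK_mono h0 h1 S fun T hT => ih T (par_of_mem hS hT)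
  have hfin : L S ≤ (1 - c) * L S :=
    ge_of_tendsto' ((htend S).const_mul (1 - c)) fun N => hind N S hS
  have : L S = 0 := by
    have := hL0 S
    nlinarith
  rw [← this]
  exact htend S

theorem KK_iter_nc_tendsto_zero
    (hnc : ∀ S : St d, par S → Tendsto (fun M => nc ω M S) atTop (𝓝 0)) (N : ℕ)
    (S : St d) (hS : par S) :
    Tendsto (fun M => (KK ω)^[N] (nc ω M) S) atTop (𝓝 0) := by
  induction N generalizing S with
  | zero => exact hnc S hS
  | succ N ih =>
    simp only [Function.iterate_succ_apply']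
    unfold KK at ih ⊢
    have : (0:ℝ) = ∑ T ∈ jnb S, jp ω S T * 0 := by simp
    rw [this]
    exact tendsto_finsetSum _ fun T hT => (ih T (par_of_mem hS hT)).const_mul _

/-- `P` is the law on path space of the Markov chain with transition probabilities `jp ω`
started at `S₀`. -/
structure IsQuenched (ω : ℤ → ℝ) (S₀ : St d) (P : Measure (ℕ → St d)) : Prop where
  prob : IsProbabilityMeasure P
  cyl : ∀ (n : ℕ) (s : ℕ → St d), P {X | ∀ i ≤ n, X i = s i} =
    if s 0 = S₀ then ENNReal.ofReal (∏ i ∈ range n, jp ω (s i) (s (i + 1))) else 0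

/-- cylinder event -/
def cy (n : ℕ) (s : ℕ → St d) : Set (ℕ → St d) := {X | ∀ i ≤ n, X i = s i}

theorem measurableSet_cyl (n : ℕ) (s : ℕ → St d) : MeasurableSet (cy n s) := by
  have : cy n s = ⋂ i ∈ Set.Iic n, (fun X : ℕ → St d => X i) ⁻¹' {s i} := by
    ext X; simp [cy]
  rw [this]
  exact MeasurableSet.biInter (Set.to_countable _) fun i _ =>
    measurable_pi_apply i (measurableSet_singleton _)

/-- no collision during `[a, b]` -/
def noc (a b : ℕ) : Set (ℕ → St d) := {X | ∀ i, a ≤ i → i ≤ b → ¬ coll (X i)}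

theorem measurableSet_coll : MeasurableSet {S : St d | coll S} := (Set.to_countable _).measurableSet

theorem measurableSet_noc (a b : ℕ) : MeasurableSet (noc (d := d) a b) := by
  have : noc (d := d) a b = ⋂ i ∈ {i | a ≤ i ∧ i ≤ b}, (fun X : ℕ → St d => X i) ⁻¹'
      {S | coll S}ᶜ := by
    ext X; simp [noc]
  rw [this]
  exact MeasurableSet.biInter (Set.to_countable _) fun i _ =>
    measurable_pi_apply i measurableSet_coll.compl

theorem IsQuenched.cyl_update {S₀ : St d} {P : Measure (ℕ → St d)} (h : IsQuenched ω S₀ P)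
    (h0 : ∀ x, 0 ≤ ω x) (h1 : ∀ x, ω x ≤ 1) (n : ℕ) (s : ℕ → St d) (T : St d) :
    P (cy (n + 1) (Function.update s (n + 1) T)) =
      P (cy n s) * ENNReal.ofReal (jp ω (s n) T) := by
  have e1 := h.cyl (n+1) (Function.update s (n+1) T)
  have e2 := h.cyl n s
  unfold cy
  rw [e1, e2]
  have e3 : Function.update s (n+1) T 0 = s 0 := Function.update_of_ne (by omega) _ _
  rw [e3]
  split_ifs with hs
  · rw [Finset.prod_range_succ, ENNReal.ofReal_mul']
    · congr 1
      · congr 1
        refine Finset.prod_congr rfl fun i hi => ?_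
        have hi' := Finset.mem_range.1 hi
        rw [Function.update_of_ne (by omega), Function.update_of_ne (by omega)]
      · rw [Function.update_self, Function.update_of_ne (by omega)]
    · exact jp_nonneg h0 h1 _ _
  · rw [zero_mul]

/-- one-step decomposition -/
theorem IsQuenched.step {S₀ : St d} {P : Measure (ℕ → St d)} (h : IsQuenched ω S₀ P)
    (h0 : ∀ x, 0 ≤ ω x) (h1 : ∀ x, ω x ≤ 1) (n : ℕ) (E : Set (ℕ → St d))
    (hE : MeasurableSet E) (f : St d → ℝ) (hf : ∀ T, 0 ≤ f T)
    (hst : ∀ s : ℕ → St d, P (cy (n + 1) s ∩ E) =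
      P (cy (n + 1) s) * ENNReal.ofReal (f (s (n + 1)))) (s : ℕ → St d) :
    P (cy n s ∩ E) = P (cy n s) * ENNReal.ofReal (KK ω f (s n)) := by
  have hdec : cy n s ∩ E = ⋃ T : St d, (cy (n + 1) (Function.update s (n + 1) T) ∩ E) := by
    ext X
    simp only [Set.mem_inter_iff, Set.mem_iUnion, cy, Set.mem_ofPred_eq]
    constructor
    · rintro ⟨hX, hXE⟩
      refine ⟨X (n+1), ?_, hXE⟩
      intro i hi
      rcases Nat.lt_or_ge i (n+1) with hlt | hge
      · rw [Function.update_of_ne (by omega)]; exact hX i (by omega)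
      · have : i = n + 1 := by omega
        subst this; rw [Function.update_self]
    · rintro ⟨T, hX, hXE⟩
      refine ⟨?_, hXE⟩
      intro i hi
      have := hX i (by omega)
      rwa [Function.update_of_ne (by omega)] at this
  rw [hdec, measure_iUnion]
  · have e1 : ∀ T : St d, P (cy (n + 1) (Function.update s (n + 1) T) ∩ E) =
        P (cy n s) * ENNReal.ofReal (jp ω (s n) T * f T) := by
      intro T
      rw [hst, h.cyl_update h0 h1, Function.update_self,
        ENNReal.ofReal_mul (jp_nonneg h0 h1 _ _), mul_assoc]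
    simp only [e1]
    rw [ENNReal.tsum_mul_left]
    congr 1
    rw [tsum_eq_sum (s := jnb (s n))]
    · unfold KK
      rw [ENNReal.ofReal_sum_of_nonneg]
      intro T _
      exact mul_nonneg (jp_nonneg h0 h1 _ _) (hf T)
    · intro T hT
      rw [jp_eq_zero hT]; simp
  · intro T₁ T₂ hne
    rw [Function.onFun, Set.disjoint_left]
    rintro X ⟨hX1, _⟩ ⟨hX2, _⟩
    apply hne
    have a1 := hX1 (n+1) le_rfl
    have a2 := hX2 (n+1) le_rfl
    rw [Function.update_self] at a1 a2
    rw [← a1, ← a2]
  · intro T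
    exact (measurableSet_cyl _ _).inter hE

theorem IsQuenched.noc_start {S₀ : St d} {P : Measure (ℕ → St d)} (h : IsQuenched ω S₀ P)
    (h0 : ∀ x, 0 ≤ ω x) (h1 : ∀ x, ω x ≤ 1) (M : ℕ) : ∀ (n : ℕ) (s : ℕ → St d),
    P (cy n s ∩ noc n (n + M)) = P (cy n s) * ENNReal.ofReal (nc ω M (s n)) := by
  induction M with
  | zero =>
    intro n s
    by_cases hc : coll (s n)
    · have : cy n s ∩ noc n (n + 0) = ∅ := by
        ext X
        simp only [cy, noc, Set.mem_inter_iff, Set.mem_ofPred_eq, Set.mem_empty_iff_false,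
          iff_false, not_and, not_forall]
        intro hX
        refine ⟨n, le_rfl, by omega, ?_⟩
        rw [hX n le_rfl]
        exact not_not.2 hc
      rw [this, nc_zero_of_coll hc]; simp
    · have : cy n s ∩ noc n (n + 0) = cy n s := by
        ext X
        simp only [cy, noc, Set.mem_inter_iff, Set.mem_ofPred_eq, and_iff_left_iff_imp]
        intro hX i hi hi2
        have : i = n := by omega
        subst this
        rw [hX i le_rfl]; exact hc
      rw [this, nc_zero_of_not hc]; simp
  | succ M ih =>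
    intro n s
    by_cases hc : coll (s n)
    · have : cy n s ∩ noc n (n + (M+1)) = ∅ := by
        ext X
        simp only [cy, noc, Set.mem_inter_iff, Set.mem_ofPred_eq, Set.mem_empty_iff_false,
          iff_false, not_and, not_forall]
        intro hX
        refine ⟨n, le_rfl, by omega, ?_⟩
        rw [hX n le_rfl]
        exact not_not.2 hc
      rw [this, nc_zero_of_coll hc]; simp
    · have : cy n s ∩ noc n (n + (M+1)) = cy n s ∩ noc (n+1) (n+1+M) := by
        ext X
        simp only [cy, noc, Set.mem_inter_iff, Set.mem_ofPred_eq, and_congr_right_iff]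
        intro hX
        constructor
        · intro h i hi hi2; exact h i (by omega) (by omega)
        · intro h i hi hi2
          rcases eq_or_lt_of_le hi with rfl | hlt
          · rw [hX n le_rfl]; exact hc
          · exact h i (by omega) (by omega)
      rw [this, nc_succ_of_not hc]
      exact h.step h0 h1 n _ (measurableSet_noc _ _) (nc ω M) (nc_nonneg h0 h1 M)
        (fun s => ih (n+1) s) s

theorem IsQuenched.noc_later {S₀ : St d} {P : Measure (ℕ → St d)} (h : IsQuenched ω S₀ P)
    (h0 : ∀ x, 0 ≤ ω x) (h1 : ∀ x, ω x ≤ 1) (M N : ℕ) : ∀ (n : ℕ) (s : ℕ → St d),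
    P (cy n s ∩ noc (n + N) (n + N + M)) =
      P (cy n s) * ENNReal.ofReal ((KK ω)^[N] (nc ω M) (s n)) := by
  have hnn : ∀ (N : ℕ) (T : St d), 0 ≤ (KK ω)^[N] (nc ω M) T := by
    intro N
    induction N with
    | zero => intro T; exact nc_nonneg h0 h1 M T
    | succ N ih =>
      intro T; rw [Function.iterate_succ_apply']; exact KK_nonneg h0 h1 T fun U _ => ih U
  induction N with
  | zero => intro n s; exact h.noc_start h0 h1 M n s
  | succ N ih =>
    intro n s
    rw [Function.iterate_succ_apply']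
    have e : n + (N + 1) = n + 1 + N := by ring
    rw [e]
    exact h.step h0 h1 n _ (measurableSet_noc _ _) _ (hnn N) (fun s => ih (n+1) s) s

theorem IsQuenched.noc_eq {S₀ : St d} {P : Measure (ℕ → St d)} (h : IsQuenched ω S₀ P)
    (h0 : ∀ x, 0 ≤ ω x) (h1 : ∀ x, ω x ≤ 1) (N M : ℕ) :
    P (noc N (N + M)) = ENNReal.ofReal ((KK ω)^[N] (nc ω M) S₀) := by
  have := h.prob
  have hA := h.cyl 0 (fun _ => S₀)
  simp only [range_zero, prod_empty, ENNReal.ofReal_one, if_true] at hA
  have hA' : P (cy 0 (fun _ => S₀)) = 1 := hA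
  have e := h.noc_later h0 h1 M N 0 (fun _ => S₀)
  rw [hA', one_mul, zero_add] at e
  rw [← e]
  have hae : ∀ᵐ X ∂P, X ∈ cy 0 (fun _ => S₀) := by
    rw [← prob_compl_eq_zero_iff (measurableSet_cyl _ _)] at hA'
    exact hA'
  apply measure_congr
  filter_upwards [hae] with X hX
  apply propext
  constructor
  · intro hX2; exact ⟨hX, hX2⟩
  · intro hX2; exact hX2.2

/-- almost surely infinitely many collisions -/
theorem IsQuenched.infinite_coll {S₀ : St d} {P : Measure (ℕ → St d)} (h : IsQuenched ω S₀ P)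
    (h0 : ∀ x, 0 ≤ ω x) (h1 : ∀ x, ω x ≤ 1) (c : ℝ) (hc : 0 < c)
    (hlow : ∀ S : St d, par S → ∃ M, nc ω M S ≤ 1 - c) (hS : par S₀) :
    ∀ᵐ X ∂P, {n | coll (X n)}.Infinite := by
  have := h.prob
  have hz : ∀ N : ℕ, P {X | ∀ i, N ≤ i → ¬ coll (X i)} = 0 := by
    intro N
    have hle : ∀ M : ℕ, P {X | ∀ i, N ≤ i → ¬ coll (X i)} ≤
        ENNReal.ofReal ((KK ω)^[N] (nc ω M) S₀) := by
      intro M
      rw [← h.noc_eq h0 h1 N M]
      exact measure_mono fun X hX i hi _ => hX i hi
    have ht := KK_iter_nc_tendsto_zero (nc_tendsto_zero h0 h1 c hc hlow) N S₀ hS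
    have ht2 := ENNReal.tendsto_ofReal ht
    rw [ENNReal.ofReal_zero] at ht2
    exact le_antisymm (ge_of_tendsto' ht2 hle) (zero_le)
  have hall : ∀ᵐ X ∂P, ∀ N : ℕ, ¬ (∀ i, N ≤ i → ¬ coll (X i)) := by
    rw [ae_all_iff]
    intro N
    rw [ae_iff]
    simpa using hz N
  filter_upwards [hall] with X hX
  rw [Set.infinite_iff_exists_gt]  
  intro N
  have := hX (N+1)
  push Not at this
  obtain ⟨i, hi, hci⟩ := this
  exact ⟨i, hci, by omega⟩

end

end Pool.Agent.helper97.Coll
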